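import Mathlib

set_option autoImplicit false
set_option linter.dupNamespace false

namespace Pool.Agent.P.MP_152bd8_lc

/-- A copy of `Computable` registered with `fun_prop`. -/
@[fun_prop] def Cp {α β : Type} [Primcodable α] [Primcodable β] (f : α → β) : Prop :=
  Computable f

namespace Cp

variable {α β γ σ : Type} [Primcodable α] [Primcodable β] [Primcodable γ] [Primcodable σ]

theorem of_eq {f g : α → β} (hf : Cp f) (h : ∀ a, f a = g a) : Cp g := Computable.of_eq hf h

@[fun_prop] theorem id : Cp (fun a : α => a) := Computable.id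

@[fun_prop] theorem const (b : β) : Cp (fun _ : α => b) := Computable.const b

@[fun_prop] theorem comp {f : β → γ} {g : α → β} (hf : Cp f) (hg : Cp g) :
    Cp (fun a => f (g a)) := Computable.comp hf hg

@[fun_prop] theorem prodMk {f : α → β} {g : α → γ} (hf : Cp f) (hg : Cp g) :
    Cp (fun a => (f a, g a)) := Computable.pair hf hg

@[fun_prop] theorem fst {f : α → β × γ} (hf : Cp f) : Cp (fun a => (f a).1) :=
  Computable.comp Computable.fst hf

@[fun_prop] theorem snd {f : α → β × γ} (hf : Cp f) : Cp (fun a => (f a).2) :=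
  Computable.comp Computable.snd hf

@[fun_prop] theorem cond {c : α → Bool} {f g : α → β} (hc : Cp c) (hf : Cp f) (hg : Cp g) :
    Cp (fun a => bif c a then f a else g a) := Computable.cond hc hf hg

theorem prim2 {F : β → γ → σ} (hF : Primrec₂ F) {f : α → β} {g : α → γ} (hf : Cp f) (hg : Cp g) :
    Cp (fun a => F (f a) (g a)) := Computable₂.comp hF.to_comp hf hg

theorem prim1 {F : β → σ} (hF : Primrec F) {f : α → β} (hf : Cp f) :
    Cp (fun a => F (f a)) := Computable.comp hF.to_comp hf

@[fun_prop] theorem not {c : α → Bool} (hc : Cp c) : Cp (fun a => !c a) := prim1 Primrec.not hc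

@[fun_prop] theorem and {c d : α → Bool} (hc : Cp c) (hd : Cp d) : Cp (fun a => c a && d a) :=
  prim2 Primrec.and hc hd

@[fun_prop] theorem or {c d : α → Bool} (hc : Cp c) (hd : Cp d) : Cp (fun a => c a || d a) :=
  prim2 Primrec.or hc hd

@[fun_prop] theorem beq {f g : α → ℕ} (hf : Cp f) (hg : Cp g) : Cp (fun a => f a == g a) :=
  prim2 (Primrec.beq (α := ℕ)) hf hg

@[fun_prop] theorem bne {f g : α → ℕ} (hf : Cp f) (hg : Cp g) : Cp (fun a => f a != g a) :=
  not (beq hf hg)

@[fun_prop] theorem add {f g : α → ℕ} (hf : Cp f) (hg : Cp g) : Cp (fun a => f a + g a) :=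
  prim2 Primrec.nat_add hf hg

@[fun_prop] theorem mul {f g : α → ℕ} (hf : Cp f) (hg : Cp g) : Cp (fun a => f a * g a) :=
  prim2 Primrec.nat_mul hf hg

@[fun_prop] theorem pow {f g : α → ℕ} (hf : Cp f) (hg : Cp g) : Cp (fun a => f a ^ g a) :=
  prim2 (Primrec₂.unpaired'.1 Nat.Primrec.pow) hf hg

@[fun_prop] theorem natPair {f g : α → ℕ} (hf : Cp f) (hg : Cp g) :
    Cp (fun a => Nat.pair (f a) (g a)) := prim2 Primrec₂.natPair hf hg

@[fun_prop] theorem blt {f g : α → ℕ} (hf : Cp f) (hg : Cp g) :
    Cp (fun a => Nat.blt (f a) (g a)) :=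
  (prim2 Primrec.nat_lt.decide hf hg).of_eq fun a => by
    rw [Bool.eq_iff_iff]; simp [Nat.blt_eq]

@[fun_prop] theorem cons {f : α → β} {l : α → List β} (hf : Cp f) (hl : Cp l) :
    Cp (fun a => f a :: l a) := prim2 Primrec.list_cons hf hl

@[fun_prop] theorem append {l m : α → List β} (hl : Cp l) (hm : Cp m) :
    Cp (fun a => l a ++ m a) := prim2 Primrec.list_append hl hm

@[fun_prop] theorem length {l : α → List β} (hl : Cp l) : Cp (fun a => (l a).length) :=
  prim1 Primrec.list_length hl

@[fun_prop] theorem range {f : α → ℕ} (hf : Cp f) : Cp (fun a => List.range (f a)) :=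
  prim1 Primrec.list_range hf

@[fun_prop] theorem getD {l : α → List β} {f : α → ℕ} (d : β) (hl : Cp l) (hf : Cp f) :
    Cp (fun a => (l a).getD (f a) d) := prim2 (Primrec.list_getD d) hl hf

theorem foldl {f : α → σ → β → σ} {l : α → List β} {s : α → σ}
    (hf : Cp (fun x : α × σ × β => f x.1 x.2.1 x.2.2)) (hl : Cp l) (hs : Cp s) :
    Cp (fun a => (l a).foldl (f a) (s a)) := by
  have h1 : Cp (fun a => (Nat.rec (s a) (fun i acc =>
      Option.casesOn (l a)[i]? acc (fun x => f a acc x)) (l a).length : σ)) := by
    refine Computable.nat_rec (h := fun a (p : ℕ × σ) =>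
      Option.casesOn (l a)[p.1]? p.2 (fun x => f a p.2 x)) (length hl) hs ?_
    refine Computable.option_casesOn (o := fun x : α × ℕ × σ => (l x.1)[x.2.1]?)
      (f := fun x => x.2.2) (g := fun x b => f x.1 x.2.2 b) ?_ ?_ ?_
    · exact prim2 (α := α × ℕ × σ) Primrec.list_getElem? (comp hl (fst id)) (fst (snd id))
    · exact snd (snd id)
    · exact comp (g := fun x : (α × ℕ × σ) × β => (x.1.1, x.1.2.2, x.2)) hf (by fun_prop)
  refine h1.of_eq fun a => ?_
  have key : ∀ n, (Nat.rec (s a) (fun i acc =>
      Option.casesOn (l a)[i]? acc (fun x => f a acc x)) n : σ) = ((l a).take n).foldl (f a) (s a) := by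
    intro n
    induction n with
    | zero => simp
    | succ n ih =>
      rw [List.take_add_one, List.foldl_append, ← ih]
      cases h : (l a)[n]? <;> simp [h]
  rw [key, List.take_length]

@[fun_prop] theorem flatMap {g : α → β → List γ} {l : α → List β}
    (hg : Cp (fun x : α × β => g x.1 x.2)) (hl : Cp l) : Cp (fun a => (l a).flatMap (g a)) := by
  refine (foldl (f := fun a acc x => acc ++ g a x) (s := fun _ => []) ?_ hl (const _)).of_eq
    fun a => ?_
  · exact append (by fun_prop) (comp (g := fun x : α × List γ × β => (x.1, x.2.2)) hg (by fun_prop))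
  · have : ∀ (m : List β) (acc : List γ),
        m.foldl (fun acc x => acc ++ g a x) acc = acc ++ m.flatMap (g a) := by
      intro m
      induction m with
      | nil => simp
      | cons x m ih => intro acc; simp [ih]
    simp [this]

@[fun_prop] theorem map {g : α → β → γ} {l : α → List β}
    (hg : Cp (fun x : α × β => g x.1 x.2)) (hl : Cp l) : Cp (fun a => (l a).map (g a)) :=
  (flatMap (g := fun a b => [g a b]) (cons hg (const _)) hl).of_eq fun a => by
    induction l a with
    | nil => simp
    | cons x m ih => simp [ih]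

@[fun_prop] theorem any {g : α → β → Bool} {l : α → List β}
    (hg : Cp (fun x : α × β => g x.1 x.2)) (hl : Cp l) : Cp (fun a => (l a).any (g a)) := by
  refine (foldl (f := fun a acc x => acc || g a x) (s := fun _ => false) ?_ hl (const _)).of_eq
    fun a => ?_
  · exact or (by fun_prop) (comp (g := fun x : α × Bool × β => (x.1, x.2.2)) hg (by fun_prop))
  · have : ∀ (m : List β) (acc : Bool),
        m.foldl (fun acc x => acc || g a x) acc = (acc || m.any (g a)) := by
      intro m
      induction m with
      | nil => simp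
      | cons x m ih => intro acc; simp [ih, Bool.or_assoc]
    simp [this]

@[fun_prop] theorem all {g : α → β → Bool} {l : α → List β}
    (hg : Cp (fun x : α × β => g x.1 x.2)) (hl : Cp l) : Cp (fun a => (l a).all (g a)) :=
  (not (any (g := fun a b => !g a b) (not hg) hl)).of_eq fun a => by
    rw [Bool.eq_iff_iff]; simp

@[fun_prop] theorem prod {l : α → List ℕ} (hl : Cp l) : Cp (fun a => (l a).prod) :=
  (foldl (f := fun _ acc x => acc * x) (s := fun _ => 1) (by fun_prop) hl (const _)).of_eq
    fun a => by rw [List.prod_eq_foldl]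

end Cp

/-- All lists of length at most `k` with entries from `xs`. -/
def allL {β : Type} (xs : List β) : ℕ → List (List β)
  | 0 => [[]]
  | k + 1 => [] :: (allL xs k).flatMap fun l => xs.map fun x => x :: l

theorem mem_allL {β : Type} (xs : List β) (k : ℕ) (l : List β) (h1 : l.length ≤ k)
    (h2 : ∀ x ∈ l, x ∈ xs) : l ∈ allL xs k := by
  induction k generalizing l with
  | zero => simp_all [allL]
  | succ k ih =>
    cases l with
    | nil => simp [allL]
    | cons x l =>
      simp only [allL, List.mem_cons, List.mem_flatMap, List.mem_map]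
      exact Or.inr ⟨l, ih l (by simpa using h1) (fun y hy => h2 y (by simp [hy])), x,
        h2 x (by simp), rfl⟩

@[fun_prop] theorem Cp.allL {α β : Type} [Primcodable α] [Primcodable β] {xs : α → List β}
    {k : α → ℕ} (hx : Cp xs) (hk : Cp k) : Cp (fun a => allL (xs a) (k a)) := by
  have h1 : Cp (fun a => (Nat.rec [[]] (fun _ acc =>
      [] :: acc.flatMap fun l => (xs a).map fun x => x :: l) (k a) : List (List β))) := by
    refine Computable.nat_rec (h := fun a (p : ℕ × List (List β)) =>
      [] :: p.2.flatMap fun l => (xs a).map fun x => x :: l) hk (Cp.const _) ?_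
    change Cp (fun y : α × ℕ × List (List β) =>
      [] :: y.2.2.flatMap fun l => (xs y.1).map fun x => x :: l)
    fun_prop
  refine h1.of_eq fun a => ?_
  induction k a with
  | zero => rfl
  | succ n ih => simp only [MP_152bd8_lc.allL, ← ih]

end Pool.Agent.P.MP_152bd8_lc
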