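import Pool.Agent.P.MP_152bd8_lc.Ops
import Pool.Agent.P.MP_152bd8_lc.Cp

set_option autoImplicit false
set_option linter.dupNamespace false

namespace Pool.Agent.P.MP_152bd8_lc

open Function

abbrev Tb := List (List ℕ)

def op (c : Tb) (a b : ℕ) : ℕ := (c.getD a []).getD b 0

@[fun_prop] theorem Cp.op {α : Type} [Primcodable α] {c : α → Tb} {f g : α → ℕ} (hc : Cp c)
    (hf : Cp f) (hg : Cp g) : Cp (fun a => op (c a) (f a) (g a)) := by
  unfold MP_152bd8_lc.op; fun_prop

/-- A numbering of `S` compatible with the table `c`. -/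
structure Num (c : Tb) (S : Type) [Semigroup S] (ν : S → ℕ) : Prop where
  inj : Injective ν
  lt : ∀ s, ν s < c.length
  surj : ∀ a < c.length, ∃ s, ν s = a
  mul : ∀ s t, ν (s * t) = op c (ν s) (ν t)

theorem isTableOf_iff {c : Tb} {S : Type} [Semigroup S] : IsTableOf c S ↔ ∃ ν, Num c S ν := by
  constructor
  · rintro ⟨e, he⟩
    refine ⟨fun s => (e.symm s).val, fun a b h => e.symm.injective (Fin.ext h),
      fun s => (e.symm s).2, fun a ha => ⟨e ⟨a, ha⟩, by simp⟩, fun s t => ?_⟩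
    simpa [op] using he (e.symm s) (e.symm t)
  · rintro ⟨ν, h⟩
    let f : S → Fin c.length := fun s => ⟨ν s, h.lt s⟩
    have hf : Bijective f := ⟨fun a b hab => h.inj (congrArg Fin.val hab), fun a => by
      obtain ⟨s, hs⟩ := h.surj a.1 a.2
      exact ⟨s, Fin.ext hs⟩⟩
    refine ⟨(Equiv.ofBijective f hf).symm, fun a b => ?_⟩
    have ha : ν ((Equiv.ofBijective f hf).symm a) = a :=
      congrArg Fin.val ((Equiv.ofBijective f hf).apply_symm_apply a)
    have hb : ν ((Equiv.ofBijective f hf).symm b) = b :=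
      congrArg Fin.val ((Equiv.ofBijective f hf).apply_symm_apply b)
    change ν _ = _
    rw [h.mul, ha, hb]; rfl

theorem IsTableOf.card {c : Tb} {S : Type} [Semigroup S] (h : IsTableOf c S) :
    Nat.card S = c.length := by
  obtain ⟨e, -⟩ := h
  rw [← Nat.card_congr e]; simp

theorem IsTableOf.finite {c : Tb} {S : Type} [Semigroup S] (h : IsTableOf c S) : Finite S := by
  obtain ⟨e, -⟩ := h
  exact Finite.of_equiv _ e

def validB (c : Tb) : Bool :=
  (List.range c.length).all fun a => (List.range c.length).all fun b =>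
    Nat.blt (op c a b) c.length && (List.range c.length).all fun d =>
      op c (op c a b) d == op c a (op c b d)

@[fun_prop] theorem Cp.validB {α : Type} [Primcodable α] {c : α → Tb} (hc : Cp c) :
    Cp (fun a => validB (c a)) := by
  unfold MP_152bd8_lc.validB; fun_prop

theorem IsTableOf.valid {c : Tb} {S : Type} [Semigroup S] (h : IsTableOf c S) :
    validB c = true := by
  obtain ⟨ν, h⟩ := isTableOf_iff.1 h
  simp only [validB, List.all_eq_true, List.mem_range, Bool.and_eq_true, Nat.blt_eq, beq_iff_eq]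
  intro a ha b hb
  obtain ⟨a, rfl⟩ := h.surj a ha
  obtain ⟨b, rfl⟩ := h.surj b hb
  refine ⟨h.mul a b ▸ h.lt _, fun d hd => ?_⟩
  obtain ⟨d, rfl⟩ := h.surj d hd
  simp only [← h.mul, mul_assoc]

theorem exists_of_valid {c : Tb} (h : validB c = true) :
    ∃ (S : Type) (_ : Semigroup S), IsTableOf c S := by
  simp only [validB, List.all_eq_true, List.mem_range, Bool.and_eq_true, Nat.blt_eq,
    beq_iff_eq] at h
  let inst : Semigroup (Fin c.length) :=
    { mul := fun a b => ⟨op c a b, (h a a.2 b b.2).1⟩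
      mul_assoc := fun a b d => Fin.ext ((h a a.2 b b.2).2 d d.2) }
  exact ⟨Fin c.length, inst, Equiv.refl _, fun a b => rfl⟩

def tables (b : ℕ) : List Tb := allL (allL (List.range b) b) b

@[fun_prop] theorem Cp.tables {α : Type} [Primcodable α] {b : α → ℕ} (hb : Cp b) :
    Cp (fun a => tables (b a)) := by
  unfold MP_152bd8_lc.tables; fun_prop

/-- The table with prescribed entries. -/
def mkTb (m n : ℕ) (F : ℕ → ℕ → ℕ) : Tb := (List.range m).map fun a => (List.range n).map (F a)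

theorem op_mkTb {m n : ℕ} {F : ℕ → ℕ → ℕ} {a b : ℕ} (ha : a < m) (hb : b < n) :
    op (mkTb m n F) a b = F a b := by
  simp [op, mkTb, List.getD_eq_getElem?_getD, ha, hb]

theorem mkTb_mem {m n k : ℕ} {F : ℕ → ℕ → ℕ} (hm : m ≤ k) (hn : n ≤ k)
    (hF : ∀ a < m, ∀ b < n, F a b < k) : mkTb m n F ∈ tables k := by
  refine mem_allL _ _ _ (by simpa [mkTb] using hm) fun r hr => ?_
  simp only [mkTb, List.mem_map, List.mem_range] at hr
  obtain ⟨a, ha, rfl⟩ := hr
  refine mem_allL _ _ _ (by simpa using hn) fun x hx => ?_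
  simp only [List.mem_map, List.mem_range] at hx ⊢
  obtain ⟨b, hb, rfl⟩ := hx
  exact hF a ha b hb

theorem exists_table (S : Type) [Semigroup S] [Finite S] {b : ℕ} (hb : Nat.card S ≤ b) :
    ∃ c ∈ tables b, IsTableOf c S := by
  let e := Finite.equivFin S
  let F : ℕ → ℕ → ℕ := fun x y =>
    if h : x < Nat.card S ∧ y < Nat.card S then (e (e.symm ⟨x, h.1⟩ * e.symm ⟨y, h.2⟩)).val else 0
  refine ⟨mkTb (Nat.card S) (Nat.card S) F, mkTb_mem hb hb fun x hx y hy => ?_,
    isTableOf_iff.2 ⟨fun s => (e s).val, fun s t h => e.injective (Fin.ext h), fun s => ?_,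
      fun a ha => ?_, fun s t => ?_⟩⟩
  · simp only [F, hx, hy, and_self, dite_true]
    exact (Fin.is_lt _).trans_le hb
  · simp [mkTb]
  · have ha' : a < Nat.card S := by simpa [mkTb] using ha
    exact ⟨e.symm ⟨a, ha'⟩, by simp⟩
  · rw [op_mkTb (e s).2 (e t).2]
    simp [F]

def homB (f : List ℕ) (d c : Tb) : Bool :=
  (List.range d.length).all fun a => Nat.blt (f.getD a 0) c.length &&
    (List.range d.length).all fun b => f.getD (op d a b) 0 == op c (f.getD a 0) (f.getD b 0)

@[fun_prop] theorem Cp.homB {α : Type} [Primcodable α] {f : α → List ℕ} {d c : α → Tb}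
    (hf : Cp f) (hd : Cp d) (hc : Cp c) : Cp (fun a => homB (f a) (d a) (c a)) := by
  unfold MP_152bd8_lc.homB; fun_prop

theorem hom_of_homB {f : List ℕ} {d c : Tb} {U T : Type} [Semigroup U] [Semigroup T]
    {μ : U → ℕ} {ν : T → ℕ} (hd : Num d U μ) (hc : Num c T ν) (h : homB f d c = true) :
    ∃ φ : U →ₙ* T, ∀ u, ν (φ u) = f.getD (μ u) 0 := by
  simp only [homB, List.all_eq_true, List.mem_range, Bool.and_eq_true, Nat.blt_eq,
    beq_iff_eq] at h
  choose φ hφ using fun u => hc.surj _ (h (μ u) (hd.lt u)).1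
  refine ⟨⟨φ, fun u v => hc.inj ?_⟩, hφ⟩
  rw [hc.mul, hφ, hφ, hφ, hd.mul, (h _ (hd.lt u)).2 _ (hd.lt v)]

theorem homB_of_hom {d c : Tb} {U T : Type} [Semigroup U] [Semigroup T]
    {μ : U → ℕ} {ν : T → ℕ} (hd : Num d U μ) (hc : Num c T ν) (φ : U →ₙ* T) {b b' : ℕ}
    (hb : c.length ≤ b) (hb' : d.length ≤ b') :
    ∃ f ∈ allL (List.range b) b', homB f d c = true ∧ ∀ u, ν (φ u) = f.getD (μ u) 0 := by
  classical
  let F : ℕ → ℕ := fun a => if h : ∃ u, μ u = a then ν (φ h.choose) else 0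
  have hF : ∀ u, F (μ u) = ν (φ u) := fun u => by
    have h : ∃ v, μ v = μ u := ⟨u, rfl⟩
    simp only [F, h, dite_true]
    rw [hd.inj h.choose_spec]
  have hg : ∀ u, ((List.range d.length).map F).getD (μ u) 0 = ν (φ u) := fun u => by
    simp [List.getD_eq_getElem?_getD, hd.lt u, hF]
  refine ⟨(List.range d.length).map F, mem_allL _ _ _ (by simpa using hb') fun x hx => ?_, ?_,
    fun u => (hg u).symm⟩
  · simp only [List.mem_map, List.mem_range] at hx ⊢
    obtain ⟨a, ha, rfl⟩ := hx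
    obtain ⟨u, rfl⟩ := hd.surj a ha
    rw [hF]; exact (hc.lt _).trans_le hb
  · simp only [homB, List.all_eq_true, List.mem_range, Bool.and_eq_true, Nat.blt_eq, beq_iff_eq]
    intro a ha
    obtain ⟨u, rfl⟩ := hd.surj a ha
    refine ⟨by rw [hg]; exact hc.lt _, fun b hb => ?_⟩
    obtain ⟨v, rfl⟩ := hd.surj b hb
    rw [← hd.mul, hg, hg, hg, map_mul, hc.mul]

/-- Decidability of membership for semigroups with at least two elements. -/
def RecNT (K : Cls) : Prop :=
  ∃ p : Tb → Bool, Cp p ∧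
    ∀ (c : Tb) (S : Type) [Semigroup S], IsTableOf c S → Nontrivial S → (p c = true ↔ K S)

theorem RecNT.of_eqv {K L : Cls} (h : RecNT L) (e : Eqv K L) : RecNT K := by
  obtain ⟨p, hp, h⟩ := h
  exact ⟨p, hp, fun c S _ hc hS => (h c S hc hS).trans ⟨e.2 S hS, e.1 S hS⟩⟩

theorem RecNT.H {K : Cls} (h : RecNT K) (b : ℕ → ℕ) (hb : Cp b)
    (hbd : ∀ (T : Type) [Semigroup T] [Finite T], Nontrivial T → opH K T →
      ∃ (U : Type) (_ : Semigroup U), Finite U ∧ Nat.card U ≤ b (Nat.card T) ∧ K U ∧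
        ∃ f : U →ₙ* T, Surjective f) : RecNT (opH K) := by
  obtain ⟨p, hp, h⟩ := h
  refine ⟨fun c => (tables (b c.length)).any fun d => validB d && p d &&
    (allL (List.range c.length) (b c.length)).any fun f => homB f d c &&
      (List.range c.length).all fun t => (List.range d.length).any fun a => f.getD a 0 == t,
    by fun_prop, fun c T _ hc hT => ?_⟩
  have := hc.finite
  have hcard := hc.card
  obtain ⟨ν, hν⟩ := isTableOf_iff.1 hc
  simp only [List.any_eq_true, List.all_eq_true, List.mem_range, Bool.and_eq_true, beq_iff_eq]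
  constructor
  · rintro ⟨d, -, ⟨hv, hpd⟩, f, -, hf, hs⟩
    obtain ⟨U, _, hU⟩ := exists_of_valid hv
    obtain ⟨μ, hμ⟩ := isTableOf_iff.1 hU
    obtain ⟨φ, hφ⟩ := hom_of_homB hμ hν hf
    have hs' : Surjective φ := fun t => by
      obtain ⟨a, ha, hat⟩ := hs _ (hν.lt t)
      obtain ⟨u, rfl⟩ := hμ.surj a ha
      exact ⟨u, hν.inj ((hφ u).trans hat)⟩
    exact ⟨U, inferInstance, (h d U hU hs'.nontrivial).1 hpd, φ, hs'⟩
  · intro hH
    obtain ⟨U, _, _, hcU, hU, φ, hφ⟩ := hbd T hT hH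
    rw [hcard] at hcU
    obtain ⟨d, hd, hdU⟩ := exists_table U hcU
    obtain ⟨μ, hμ⟩ := isTableOf_iff.1 hdU
    obtain ⟨f, hf, hf1, hf2⟩ := homB_of_hom hμ hν φ le_rfl (hdU.card ▸ hcU)
    refine ⟨d, hd, ⟨hdU.valid, (h d U hdU hφ.nontrivial).2 hU⟩, f, hf, hf1, fun t ht => ?_⟩
    obtain ⟨t, rfl⟩ := hν.surj t ht
    obtain ⟨u, rfl⟩ := hφ t
    exact ⟨μ u, hμ.lt u, (hf2 u).symm⟩

theorem RecNT.S {K : Cls} (h : RecNT K) (b : ℕ → ℕ) (hb : Cp b)
    (hbd : ∀ (T : Type) [Semigroup T] [Finite T], Nontrivial T → opS K T →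
      ∃ (U : Type) (_ : Semigroup U), Finite U ∧ Nat.card U ≤ b (Nat.card T) ∧ K U ∧
        ∃ f : T →ₙ* U, Injective f) : RecNT (opS K) := by
  obtain ⟨p, hp, h⟩ := h
  refine ⟨fun c => (tables (b c.length)).any fun d => validB d && p d &&
    (allL (List.range (b c.length)) c.length).any fun f => homB f c d &&
      (List.range c.length).all fun a => (List.range c.length).all fun a' =>
        f.getD a 0 != f.getD a' 0 || a == a',
    by fun_prop, fun c T _ hc hT => ?_⟩
  have := hc.finite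
  have hcard := hc.card
  obtain ⟨ν, hν⟩ := isTableOf_iff.1 hc
  simp only [List.any_eq_true, List.all_eq_true, List.mem_range, Bool.and_eq_true, beq_iff_eq,
    Bool.or_eq_true, bne_iff_ne]
  constructor
  · rintro ⟨d, -, ⟨hv, hpd⟩, f, -, hf, hs⟩
    obtain ⟨U, _, hU⟩ := exists_of_valid hv
    obtain ⟨μ, hμ⟩ := isTableOf_iff.1 hU
    obtain ⟨φ, hφ⟩ := hom_of_homB hν hμ hf
    have hs' : Injective φ := fun s t hst => by
      rcases hs _ (hν.lt s) _ (hν.lt t) with h1 | h1
      · exact absurd (by rw [← hφ, ← hφ, hst]) h1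
      · exact hν.inj h1
    exact ⟨U, inferInstance, (h d U hU hs'.nontrivial).1 hpd, φ, hs'⟩
  · intro hH
    obtain ⟨U, _, _, hcU, hU, φ, hφ⟩ := hbd T hT hH
    rw [hcard] at hcU
    obtain ⟨d, hd, hdU⟩ := exists_table U hcU
    obtain ⟨μ, hμ⟩ := isTableOf_iff.1 hdU
    obtain ⟨f, hf, hf1, hf2⟩ := homB_of_hom hν hμ φ (hdU.card ▸ hcU) le_rfl
    refine ⟨d, hd, ⟨hdU.valid, (h d U hdU hφ.nontrivial).2 hU⟩, f, hf, hf1,
      fun s hs t ht => ?_⟩
    obtain ⟨t, rfl⟩ := hν.surj t ht
    obtain ⟨s, rfl⟩ := hν.surj s hs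
    rw [← hf2, ← hf2]
    by_cases hst : s = t
    · exact Or.inr (by rw [hst])
    · exact Or.inl fun h1 => hst (hφ (hμ.inj h1))

theorem RecNT.P {K : Cls} (h : RecNT K) : RecNT (opP 0 K) := by
  obtain ⟨p, hp, h⟩ := h
  refine ⟨fun c => (allL ((tables c.length).flatMap fun d =>
      (allL (List.range c.length) c.length).map fun f => (d, f)) c.length).any fun L =>
      (L.all fun x => validB x.1 && Nat.blt 1 x.1.length && p x.1 && homB x.2 c x.1) &&
      ((List.range c.length).all fun a => (List.range c.length).all fun a' =>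
        a == a' || L.any fun x => x.2.getD a 0 != x.2.getD a' 0) &&
      (L.map fun x => x.1.length).prod == c.length,
    by fun_prop, fun c T _ hc hT => ?_⟩
  have := hc.finite
  have hcard := hc.card
  obtain ⟨ν, hν⟩ := isTableOf_iff.1 hc
  simp only [List.any_eq_true, List.all_eq_true, List.mem_range, Bool.and_eq_true, beq_iff_eq,
    Bool.or_eq_true, bne_iff_ne, Nat.blt_eq]
  constructor
  · rintro ⟨L, -, ⟨h1, h2⟩, h3⟩
    have h4 : ∀ i : Fin L.length, ∃ (U : Type) (_ : Semigroup U) (μ : U → ℕ) (φ : T →ₙ* U),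
        K U ∧ Nat.card U = L[i].1.length ∧ Finite U ∧ Injective μ ∧
          ∀ t, μ (φ t) = L[i].2.getD (ν t) 0 := fun i => by
      obtain ⟨⟨⟨hv, hl⟩, hpd⟩, hf⟩ := h1 L[i] (List.getElem_mem _)
      obtain ⟨U, _, hU⟩ := exists_of_valid hv
      obtain ⟨μ, hμ⟩ := isTableOf_iff.1 hU
      obtain ⟨φ, hφ⟩ := hom_of_homB hν hμ hf
      have := hU.finite
      have hnt : Nontrivial U := Finite.one_lt_card_iff_nontrivial.1 (hU.card ▸ hl)
      exact ⟨U, inferInstance, μ, φ, (h _ U hU hnt).1 hpd, hU.card, this, hμ.inj, hφ⟩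
    choose U iU μ φ hK hcU hfin hμ hφ using h4
    let ψ : T →ₙ* ∀ i, U i := MulHom.pi φ
    have hψ : Injective ψ := fun s t hst => by
      rcases h2 _ (hν.lt s) _ (hν.lt t) with h5 | ⟨x, hx, h5⟩
      · exact hν.inj h5
      · obtain ⟨i, hi, rfl⟩ := List.getElem_of_mem hx
        refine absurd ?_ h5
        have e1 := hφ ⟨i, hi⟩ s
        have e2 := hφ ⟨i, hi⟩ t
        have e3 : φ ⟨i, hi⟩ s = φ ⟨i, hi⟩ t := congrFun hst ⟨i, hi⟩
        simp only [Fin.getElem_fin] at e1 e2
        rw [← e1, ← e2, e3]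
    have hc2 : Nat.card T = Nat.card (∀ i, U i) := by
      rw [Nat.card_pi, hcard, ← h3]
      simp only [hcU]
      rw [← List.prod_ofFn]
      congr 1
      apply List.ext_getElem <;> simp
    have hb : Bijective ψ := hψ.bijective_of_nat_card_le hc2.ge
    exact ⟨_, U, iU, by omega, hK, ⟨MulEquiv.ofBijective ψ hb⟩⟩
  · intro hP
    obtain ⟨n, A, _, -, hA, ⟨e⟩⟩ := opP_NT hT hP
    have hnt : ∀ i, Nontrivial (A i) := fun i => (hA i).2
    have hfinP : Finite (∀ i, A i) := Finite.of_equiv _ e.toEquiv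
    have hsurj : ∀ i, Surjective (fun t => e t i) := fun i =>
      (surjective_eval i).comp e.surjective
    have hfin : ∀ i, Finite (A i) := fun i => Finite.of_surjective _ (hsurj i)
    have hle : ∀ i, Nat.card (A i) ≤ c.length := fun i =>
      hcard ▸ Nat.card_le_card_of_surjective _ (hsurj i)
    have hprod : ∏ i, Nat.card (A i) = c.length := by
      rw [← hcard, Nat.card_congr e.toEquiv, Nat.card_pi]
    have hn : n ≤ c.length := by
      have h2 : 2 ^ n ≤ ∏ i, Nat.card (A i) := by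
        have := Finset.pow_card_le_prod Finset.univ (fun i => Nat.card (A i)) 2
          (fun i _ => Finite.one_lt_card (α := A i))
        simpa using this
      exact (Nat.lt_two_pow_self.le.trans h2).trans hprod.le
    have h4 : ∀ i, ∃ x : Tb × List ℕ, x.1 ∈ tables c.length ∧
        x.2 ∈ allL (List.range c.length) c.length ∧ IsTableOf x.1 (A i) ∧ homB x.2 c x.1 = true ∧
        ∃ μ : A i → ℕ, Injective μ ∧ ∀ t, μ (e t i) = x.2.getD (ν t) 0 := fun i => by
      obtain ⟨d, hd, hdU⟩ := exists_table (A i) (hle i)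
      obtain ⟨μ, hμ⟩ := isTableOf_iff.1 hdU
      obtain ⟨f, hf, hf1, hf2⟩ := homB_of_hom hν hμ
        ((Pi.evalMulHom A i).comp (e : T →ₙ* ∀ i, A i)) (hdU.card ▸ hle i) le_rfl
      exact ⟨(d, f), hd, hf, hdU, hf1, μ, hμ.inj, hf2⟩
    choose x hx1 hx2 hx3 hx4 μ hμ hx5 using h4
    refine ⟨List.ofFn x, mem_allL _ _ _ (by simpa using hn) fun y hy => ?_,
      ⟨fun y hy => ?_, fun a ha a' ha' => ?_⟩, ?_⟩
    · obtain ⟨i, rfl⟩ := List.mem_ofFn.1 hy
      simp only [List.mem_flatMap, List.mem_map]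
      exact ⟨_, hx1 i, _, hx2 i, rfl⟩
    · obtain ⟨i, rfl⟩ := List.mem_ofFn.1 hy
      refine ⟨⟨⟨(hx3 i).valid, ?_⟩, (h _ _ (hx3 i) (hnt i)).2 (hA i).1⟩, hx4 i⟩
      rw [← (hx3 i).card]; exact Finite.one_lt_card
    · obtain ⟨s, rfl⟩ := hν.surj a ha
      obtain ⟨t, rfl⟩ := hν.surj a' ha'
      by_cases hst : s = t
      · exact Or.inl (by rw [hst])
      · right
        have : ∃ i, e s i ≠ e t i := by
          by_contra hne
          push Not at hne
          exact hst (e.injective (funext hne))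
        obtain ⟨i, hi⟩ := this
        refine ⟨x i, List.mem_ofFn.2 ⟨i, rfl⟩, ?_⟩
        rw [← hx5, ← hx5]
        exact fun h1 => hi (hμ i h1)
    · rw [List.map_ofFn, List.prod_ofFn, ← hprod]
      exact Finset.prod_congr rfl fun i _ => (hx3 i).card.symm

theorem RecNT.recursive {K : Cls} (h : RecNT K) (hK : IsoClosed K) : Recursive K := by
  classical
  obtain ⟨p, hp, h⟩ := h
  let A : ℕ → Prop := fun n => ∃ (S : Type) (_ : Semigroup S), Finite S ∧ Nat.card S = n ∧ K S
  have hq : Cp (fun c : Tb => validB c && (bif Nat.blt 1 c.length then p c else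
      bif c.length == 0 then decide (A 0) else decide (A 1))) := by fun_prop
  refine ComputablePred.computable_iff.2 ⟨_, hq, ?_⟩
  funext c
  simp only [Bool.and_eq_true, eq_iff_iff]
  have hA : ∀ (S : Type) [Semigroup S], IsTableOf c S → c.length ≤ 1 → (K S ↔ A c.length) := by
    intro S _ hS hc
    have := hS.finite
    refine ⟨fun hK => ⟨S, inferInstance, this, hS.card, hK⟩, ?_⟩
    rintro ⟨S', _, _, hS', hK'⟩
    have hsub : Subsingleton S := Finite.card_le_one_iff_subsingleton.1 (hS.card ▸ hc)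
    obtain ⟨e⟩ : Nonempty (S' ≃ S) := Finite.card_eq.1 (hS'.trans hS.card.symm)
    exact hK S' S { e with map_mul' := fun _ _ => Subsingleton.elim _ _ } hK'
  have key : ∀ (S : Type) [Semigroup S], IsTableOf c S → (K S ↔
      (bif Nat.blt 1 c.length then p c else
        bif c.length == 0 then decide (A 0) else decide (A 1)) = true) := by
    intro S _ hS
    have := hS.finite
    by_cases h1 : 1 < c.length
    · have hb : Nat.blt 1 c.length = true := by simpa [Nat.blt_eq] using h1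
      rw [hb, cond_true]
      exact (h c S hS (Finite.one_lt_card_iff_nontrivial.1 (hS.card ▸ h1))).symm
    · have hb : Nat.blt 1 c.length = false := by
        rw [← Bool.not_eq_true, Nat.blt_eq]; exact h1
      rw [hb, cond_false, hA S hS (by omega)]
      by_cases h0 : c.length = 0
      · simp [h0]
      · have : c.length = 1 := by omega
        simp [this]
  constructor
  · rintro ⟨S, _, hS, hK⟩
    exact ⟨hS.valid, (key S hS).1 hK⟩
  · rintro ⟨hv, hq⟩
    obtain ⟨S, _, hS⟩ := exists_of_valid hv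
    exact ⟨S, inferInstance, hS, (key S hS).2 hq⟩

end Pool.Agent.P.MP_152bd8_lc
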