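import Pool.Agent.P.MP_152bd8_lc.Struct
import Pool.Agent.P.MP_152bd8_lc.Tab

set_option autoImplicit false
set_option linter.dupNamespace false

namespace Pool.Agent.P.MP_152bd8_lc

open Function

theorem mem_S_of_embed {b : Prop} {V : GCls} {M : RM} (hG : V M.G) (hm : MonoR b M.supp)
    {T : Type} [Semigroup T] [Finite T] (f : T →ₙ* M.S) (hf : Injective f) :
    opS (Phi b V) T := by
  obtain ⟨M0, j, a0, h0, -, -, hj, -, ha⟩ := RM.exists_compress (V := V) hG hm f
  obtain ⟨φ, hφ⟩ := exists_factor f j hj fun t => ⟨a0 t, ha t⟩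
  exact h0.mem_S φ fun x y h => hf (by rw [← hφ, ← hφ, h])

theorem exists_natRep {b : Prop} {V : GCls} {T : Type} [Semigroup T] [Finite T]
    (h : opS (Phi b V) T) : ∃ (G : Type) (_ : Group G) (P : ℕ → ℕ → Option G) (f : T →ₙ* Rees P),
      V G ∧ Injective f ∧ MonoR b (fun l i => P l i ≠ none) ∧
      (∀ l i, P l i ≠ none → l < Nat.card T ∧ i < Nat.card T) ∧
      ∀ t i g l, f t = Rees.mk i g l → i < Nat.card T ∧ l < Nat.card T := by
  classical
  obtain ⟨U, _, ⟨M, hM, -, ⟨e⟩⟩, f, hf⟩ := h
  obtain ⟨M0, j, a0, h0, hI, hL, hj, -, ha⟩ :=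
    RM.exists_compress (V := V) hM.mem hM.mono ((e : U →ₙ* M.S).comp f)
  obtain ⟨φ, hφ⟩ := exists_factor ((e : U →ₙ* M.S).comp f) j hj fun t => ⟨a0 t, ha t⟩
  have hφi : Injective φ := fun x y h => (e.injective.comp hf) ((hφ x).symm.trans (h ▸ hφ y))
  have := h0.finI
  have := h0.finL
  let εI : M0.I → ℕ := fun i => (Finite.equivFin M0.I i).val
  let εL : M0.L → ℕ := fun i => (Finite.equivFin M0.L i).val
  have hεI : Injective εI := Fin.val_injective.comp (Finite.equivFin M0.I).injective
  have hεL : Injective εL := Fin.val_injective.comp (Finite.equivFin M0.L).injective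
  have hI' : ∀ i, εI i < Nat.card T := fun i => (Fin.is_lt _).trans_le hI
  have hL' : ∀ i, εL i < Nat.card T := fun i => (Fin.is_lt _).trans_le hL
  have hε : Injective (Prod.map εL εI) := hεL.prodMap hεI
  let P : ℕ → ℕ → Option M0.G := fun l i =>
    extend (Prod.map εL εI) (fun x => M0.P x.1 x.2) (fun _ => none) (l, i)
  have hP : ∀ l i, P (εL l) (εI i) = M0.P l i := fun l i => hε.extend_apply _ _ (l, i)
  have hP2 : ∀ l i, P l i ≠ none → ∃ l' i', εL l' = l ∧ εI i' = i := fun l i h => by
    by_contra hne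
    refine h (extend_apply' _ _ _ ?_)
    rintro ⟨⟨l', i'⟩, h1⟩
    exact hne ⟨l', i', Prod.ext_iff.1 h1⟩
  let ψ : M0.S →ₙ* Rees P := Rees.map0 εI εL (MonoidHom.id _)
    (fun l i => (hP l i).trans (map_id_hom _))
  have hψ : Injective ψ := Rees.map0_injective hεI hεL injective_id
  refine ⟨M0.G, inferInstance, P, ψ.comp φ, h0.mem, hψ.comp hφi, fun hb => ⟨?_, ?_⟩, ?_, ?_⟩
  · intro l i i' h1 h2
    obtain ⟨l1, i1, rfl, rfl⟩ := hP2 _ _ h1
    obtain ⟨l2, i2, h3, rfl⟩ := hP2 _ _ h2
    rw [hP] at h1 h2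
    rw [(h0.mono hb).1 _ _ _ h1 h2]
  · intro l l' i h1 h2
    obtain ⟨l1, i1, rfl, rfl⟩ := hP2 _ _ h1
    obtain ⟨l2, i2, rfl, h3⟩ := hP2 _ _ h2
    rw [hP] at h1 h2
    rw [(h0.mono hb).2 _ _ _ h1 h2]
  · intro l i h
    obtain ⟨l1, i1, rfl, rfl⟩ := hP2 _ _ h
    exact ⟨hL' _, hI' _⟩
  · intro t i g l h
    rcases Rees.zero_or (φ t) with h1 | ⟨i', g', l', h1⟩
    · simp [h1, ψ] at h
    · simp only [MulHom.comp_apply, h1, ψ, Rees.map0_mk, Rees.mk_inj] at h
      obtain ⟨rfl, -, rfl⟩ := h
      exact ⟨hI' _, hL' _⟩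

def zf (D : Tb) (t : ℕ) : Bool := op D 0 t != 0
def spB (D : Tb) (n l i : ℕ) : Bool := Nat.blt l n && Nat.blt i n && op D (l + 3) i != 0
def nzB (D : Tb) (n s t : ℕ) : Bool := zf D s && zf D t && spB D n (op D 2 s) (op D 1 t)

def chkB (c D : Tb) : Bool :=
  (List.range c.length).all fun s => (List.range c.length).all fun t =>
    (bif nzB D c.length s t then
      zf D (op c s t) && op D 1 (op c s t) == op D 1 s && op D 2 (op c s t) == op D 2 t
    else !zf D (op c s t)) && (s == t || zf D s || zf D t)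

def monoB (D : Tb) (n : ℕ) : Bool :=
  (List.range n).all fun l => (List.range n).all fun i => (List.range n).all fun j =>
    (!(spB D n l i && spB D n l j) || i == j) && (!(spB D n i l && spB D n j l) || i == j)

def clause (c D : Tb) : List (Bool × List (ℕ × Bool)) :=
  (List.range c.length).flatMap fun s => (List.range c.length).flatMap fun t =>
    (bif nzB D c.length s t then
      [(false, [(2 * s, true), (2 * Nat.pair (op D 2 s) (op D 1 t) + 1, true), (2 * t, true),
        (2 * op c s t, false)])] else []) ++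
    (bif s != t && zf D s && zf D t && op D 1 s == op D 1 t && op D 2 s == op D 2 t then
      [(true, [(2 * s, true), (2 * t, false)])] else [])

theorem not_clause_iff {G : Type} [Group G] (x : ℕ → G) (c D : Tb) :
    (¬ ∃ l ∈ clause c D, (evalWord x l.2 = 1 ↔ l.1 = true)) ↔ ∀ s < c.length, ∀ t < c.length,
      (nzB D c.length s t = true → x (2 * s) * x (2 * Nat.pair (op D 2 s) (op D 1 t) + 1) *
        x (2 * t) = x (2 * op c s t)) ∧
      (s ≠ t → zf D s = true → zf D t = true → op D 1 s = op D 1 t → op D 2 s = op D 2 t →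
        x (2 * s) ≠ x (2 * t)) := by
  simp only [clause, List.mem_flatMap, List.mem_range, List.mem_append, not_exists, not_and,
    forall_exists_index, and_imp]
  constructor
  · intro h s hs t ht
    constructor
    · intro h1
      have := h _ s hs t ht (Or.inl (by rw [h1]; exact List.mem_singleton_self _))
      simpa [evalWord, ← mul_assoc, mul_inv_eq_one] using this
    · intro h1 h2 h3 h4 h5
      have := h _ s hs t ht (Or.inr (by
        have : (s != t && zf D s && zf D t && op D 1 s == op D 1 t && op D 2 s == op D 2 t)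
          = true := by simp [h1, h2, h3, h4, h5]
        rw [this]; exact List.mem_singleton_self _))
      simpa [evalWord, mul_inv_eq_one] using this
  · rintro h l s hs t ht (h1 | h1)
    · cases h2 : nzB D c.length s t
      · simp [h2] at h1
      · rw [h2, cond_true, List.mem_singleton] at h1
        subst h1
        simpa [evalWord, ← mul_assoc, mul_inv_eq_one] using (h s hs t ht).1 h2
    · cases h2 : (s != t && zf D s && zf D t && op D 1 s == op D 1 t && op D 2 s == op D 2 t)
      · simp [h2] at h1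
      · rw [h2, cond_true, List.mem_singleton] at h1
        subst h1
        simp only [Bool.and_eq_true, bne_iff_ne, beq_iff_eq] at h2
        obtain ⟨⟨⟨⟨a1, a2⟩, a3⟩, a4⟩, a5⟩ := h2
        simpa [evalWord, mul_inv_eq_one] using (h s hs t ht).2 a1 a2 a3 a4 a5

theorem monoB_iff (D : Tb) (n : ℕ) :
    monoB D n = true ↔ MonoR True fun l i => spB D n l i = true := by
  have h1 : ∀ l i, spB D n l i = true → l < n ∧ i < n := fun l i h => by
    simp only [spB, Bool.and_eq_true, Nat.blt_eq] at h
    exact h.1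
  simp only [monoB, List.all_eq_true, List.mem_range, MonoR, Bool.and_eq_true, Bool.or_eq_true,
    Bool.not_eq_true', beq_iff_eq, Bool.and_eq_false_imp, forall_const]
  constructor
  · intro h
    refine ⟨fun l i j a1 a2 => ?_, fun i j l a1 a2 => ?_⟩
    · rcases (h l (h1 _ _ a1).1 i (h1 _ _ a1).2 j (h1 _ _ a2).2).1 with h2 | h2
      · simp [h2 a1] at a2
      · exact h2
    · rcases (h l (h1 _ _ a1).2 i (h1 _ _ a1).1 j (h1 _ _ a2).1).2 with h2 | h2
      · simp [h2 a1] at a2
      · exact h2
  · rintro ⟨h2, h3⟩ l - i - j -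
    constructor
    · by_cases h : i = j
      · exact Or.inr h
      · exact Or.inl fun a1 => Bool.eq_false_iff.2 fun a2 => h (h2 _ _ _ a1 a2)
    · by_cases h : i = j
      · exact Or.inr h
      · exact Or.inl fun a1 => Bool.eq_false_iff.2 fun a2 => h (h3 _ _ _ a1 a2)

theorem recNT_S {b : Prop} {V : GCls} (hd : DecidableUnivTheory V) : RecNT (opS (Phi b V)) := by
  classical
  obtain ⟨dec, hdec, hdec2⟩ := ComputablePred.computable_iff.1 hd
  have hdec' : Cp dec := hdec
  refine ⟨fun c => (tables (c.length + 3)).any fun D =>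
    chkB c D && (!decide b || monoB D c.length) && !dec (clause c D), ?_, fun c T _ hc hT => ?_⟩
  · unfold chkB monoB clause nzB spB zf
    fun_prop
  have := hc.finite
  have hcard := hc.card
  obtain ⟨ν, hν⟩ := isTableOf_iff.1 hc
  have hdec3 : ∀ l, dec l = false ↔ ¬ ClauseHolds V l := fun l => by rw [hdec2]; simp
  simp only [List.any_eq_true, Bool.and_eq_true, Bool.or_eq_true, Bool.not_eq_true',
    decide_eq_false_iff_not, hdec3, monoB_iff]
  constructor
  · rintro ⟨D, -, ⟨h1, h2⟩, h3⟩
    simp only [ClauseHolds, not_forall] at h3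
    obtain ⟨G, _, hG, x, h3⟩ := h3
    rw [not_clause_iff] at h3
    simp only [chkB, List.all_eq_true, List.mem_range, Bool.and_eq_true, Bool.or_eq_true,
      beq_iff_eq] at h1
    let P : ℕ → ℕ → Option G := fun l i =>
      if spB D c.length l i = true then some (x (2 * Nat.pair l i + 1)) else none
    let f : T → Rees P := fun t =>
      if zf D (ν t) = true then Rees.mk (op D 1 (ν t)) (x (2 * ν t)) (op D 2 (ν t)) else 0
    have hmul : ∀ s t, f (s * t) = f s * f t := by
      intro s t
      have h4 := (h1 _ (hν.lt s) _ (hν.lt t)).1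
      have h5 := (h3 _ (hν.lt s) _ (hν.lt t)).1
      rw [← hν.mul] at h4 h5
      cases h6 : nzB D c.length (ν s) (ν t)
      · rw [h6, cond_false, Bool.not_eq_true'] at h4
        simp only [nzB, Bool.and_eq_false_imp, Bool.and_eq_true, and_imp] at h6
        by_cases a1 : zf D (ν s) = true
        · by_cases a2 : zf D (ν t) = true
          · simp only [f, h4, a1, a2, if_true]
            rw [Rees.mk_mul_none (by simp [P, h6 a1 a2])]
            simp
          · simp [f, h4, a2]
        · simp [f, h4, a1]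
      · rw [h6, cond_true] at h4
        simp only [Bool.and_eq_true, beq_iff_eq] at h4
        have h7 := h5 h6
        simp only [nzB, Bool.and_eq_true] at h6
        simp only [f, h4.1.1, h6.1.1, h6.1.2, if_true]
        rw [Rees.mk_mul_some (P := P) (if_pos h6.2), h7, h4.1.2, h4.2]
    refine mem_S_of_embed (M := ⟨G, ℕ, ℕ, P⟩) hG ?_ ⟨f, hmul⟩ fun s t hst => ?_
    · intro hb
      have := (h2.resolve_left (not_not.2 hb)) trivial
      simpa [RM.supp, P] using this
    · by_contra hne
      have hne' : ν s ≠ ν t := fun h => hne (hν.inj h)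
      have h4 := (h1 _ (hν.lt s) _ (hν.lt t)).2
      have h5 := (h3 _ (hν.lt s) _ (hν.lt t)).2 hne'
      change f s = f t at hst
      by_cases a1 : zf D (ν s) = true <;> by_cases a2 : zf D (ν t) = true
      · simp only [f, a1, a2, if_true, Rees.mk_inj] at hst
        exact h5 a1 a2 hst.1 hst.2.2 hst.2.1
      · simp [f, a1, a2] at hst
      · simp [f, a1, a2] at hst
      · simp [a1, a2, hne'] at h4
  · intro hS
    obtain ⟨G, _, P, f, hG, hf, hm, hP, hlt⟩ := exists_natRep hS
    rw [hcard] at hP hlt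
    have hpos : 0 < c.length := hcard ▸ Nat.card_pos
    have hdata : ∀ t, ∃ (z i l : ℕ) (g : G), z < c.length + 3 ∧ i < c.length ∧ l < c.length ∧
        ((z = 0 ∧ f t = 0) ∨ (z ≠ 0 ∧ f t = Rees.mk i g l)) := fun t => by
      rcases Rees.zero_or (f t) with h | ⟨i, g, l, h⟩
      · exact ⟨0, 0, 0, 1, by omega, hpos, hpos, Or.inl ⟨rfl, h⟩⟩
      · exact ⟨1, i, l, g, by omega, (hlt _ _ _ _ h).1, (hlt _ _ _ _ h).2, Or.inr ⟨by omega, h⟩⟩
    choose z i l g hz hi hl hfz using hdata
    let F : ℕ → ℕ → ℕ := fun r a => match r with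
      | 0 => extend ν z (fun _ => 0) a
      | 1 => extend ν i (fun _ => 0) a
      | 2 => extend ν l (fun _ => 0) a
      | r + 3 => if P r a ≠ none then 1 else 0
    let D := mkTb (c.length + 3) c.length F
    have hD0 : ∀ t, op D 0 (ν t) = z t := fun t =>
      (op_mkTb (by omega) (hν.lt t)).trans (hν.inj.extend_apply _ _ t)
    have hD1 : ∀ t, op D 1 (ν t) = i t := fun t =>
      (op_mkTb (by omega) (hν.lt t)).trans (hν.inj.extend_apply _ _ t)
    have hD2 : ∀ t, op D 2 (ν t) = l t := fun t =>
      (op_mkTb (by omega) (hν.lt t)).trans (hν.inj.extend_apply _ _ t)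
    have hD3 : ∀ r a, spB D c.length r a = true ↔ P r a ≠ none := fun r a => by
      simp only [spB, Bool.and_eq_true, Nat.blt_eq, bne_iff_ne]
      constructor
      · rintro ⟨⟨h1, h2⟩, h3⟩
        rw [op_mkTb (by omega) h2] at h3
        simpa [F] using h3
      · intro h
        refine ⟨hP _ _ h, ?_⟩
        rw [op_mkTb (by have := (hP _ _ h).1; omega) (hP _ _ h).2]
        simpa [F] using h
    have hzf : ∀ t, zf D (ν t) = true ↔ f t ≠ 0 := fun t => by
      rcases hfz t with h | h <;> simp [zf, hD0, h.1, h.2]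
    have hmk : ∀ t, f t ≠ 0 → f t = Rees.mk (i t) (g t) (l t) := fun t h =>
      ((hfz t).resolve_left fun h' => h h'.2).2
    have hnz : ∀ s t, nzB D c.length (ν s) (ν t) = true ↔ f (s * t) ≠ 0 := fun s t => by
      simp only [nzB, Bool.and_eq_true, hzf, hD1, hD2, hD3, map_mul]
      constructor
      · rintro ⟨⟨h1, h2⟩, h3⟩
        rw [hmk s h1, hmk t h2]
        exact Rees.mk_mul_ne_zero.2 h3
      · intro h
        have h1 := left_ne_zero_of_mul h
        have h2 := right_ne_zero_of_mul h
        rw [hmk s h1, hmk t h2] at h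
        exact ⟨⟨h1, h2⟩, Rees.mk_mul_ne_zero.1 h⟩
    have hprod : ∀ s t, f (s * t) ≠ 0 → i (s * t) = i s ∧
        g (s * t) = g s * (P (l s) (i t)).getD 1 * g t ∧ l (s * t) = l t := fun s t h => by
      have h0 := hmk _ h
      rw [map_mul] at h h0
      have h1 := left_ne_zero_of_mul h
      have h2 := right_ne_zero_of_mul h
      rw [hmk s h1, hmk t h2] at h h0
      obtain ⟨p, hp⟩ := Option.ne_none_iff_exists'.1 (Rees.mk_mul_ne_zero.1 h)
      rw [Rees.mk_mul_some hp, Rees.mk_inj] at h0
      simp [hp, h0.1, h0.2.1, h0.2.2]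
    let x : ℕ → G := fun m => if m % 2 = 0 then extend ν g (fun _ => 1) (m / 2) else
      (P (m / 2).unpair.1 (m / 2).unpair.2).getD 1
    have hx1 : ∀ t, x (2 * ν t) = g t := fun t => by simp [x, hν.inj.extend_apply]
    have hx2 : ∀ r a, x (2 * Nat.pair r a + 1) = (P r a).getD 1 := fun r a => by
      have : (2 * Nat.pair r a + 1) / 2 = Nat.pair r a := by omega
      simp [x, this]
    refine ⟨D, mkTb_mem le_rfl (by omega) fun r hr a ha => ?_, ⟨?_, ?_⟩, fun h => ?_⟩
    · obtain ⟨t, rfl⟩ := hν.surj a ha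
      match r with
      | 0 => simpa [F, hν.inj.extend_apply] using hz t
      | 1 => have := hi t; simp only [F, hν.inj.extend_apply]; omega
      | 2 => have := hl t; simp only [F, hν.inj.extend_apply]; omega
      | r + 3 => simp only [F]; split_ifs <;> omega
    · simp only [chkB, List.all_eq_true, List.mem_range, Bool.and_eq_true, Bool.or_eq_true,
        beq_iff_eq]
      intro s hs t ht
      obtain ⟨s, rfl⟩ := hν.surj s hs
      obtain ⟨t, rfl⟩ := hν.surj t ht
      rw [← hν.mul]
      constructor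
      · by_cases h : f (s * t) = 0
        · have h1 : nzB D c.length (ν s) (ν t) = false :=
            Bool.eq_false_iff.2 fun h' => (hnz s t).1 h' h
          have h2 : zf D (ν (s * t)) = false := Bool.eq_false_iff.2 fun h' => (hzf _).1 h' h
          simp [h1, h2]
        · simp [(hnz s t).2 h, (hzf _).2 h, hD1, hD2, (hprod s t h).1, (hprod s t h).2.2]
      · rw [hzf, hzf]
        by_cases h1 : f s = 0
        · by_cases h2 : f t = 0
          · exact Or.inl (Or.inl (by rw [hf (h1.trans h2.symm)]))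
          · exact Or.inr h2
        · exact Or.inl (Or.inr h1)
    · by_cases hb : b
      · exact Or.inr fun _ => by simpa only [hD3] using hm hb
      · exact Or.inl hb
    · refine (not_clause_iff x c D).2 (fun s hs t ht => ?_) (h G hG x)
      obtain ⟨s, rfl⟩ := hν.surj s hs
      obtain ⟨t, rfl⟩ := hν.surj t ht
      rw [← hν.mul, hnz, hzf, hzf, hx1, hx1, hx1, hD1, hD1, hD2, hD2, hx2]
      refine ⟨fun h1 => (hprod s t h1).2.1.symm, fun h1 h2 h3 h4 h5 h6 => h1 ?_⟩
      rw [hf ((hmk s h2).trans (by rw [h4, h5, h6, ← hmk t h3]))]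

def intrB (c : Tb) : Bool :=
  (List.range c.length).any fun z =>
    ((List.range c.length).all fun a => op c z a == z && op c a z == z) &&
    (List.range c.length).all fun s => s == z || (List.range c.length).all fun t =>
      (List.range c.length).any fun u => (List.range c.length).any fun v =>
        op c (op c u s) v == t

theorem recNT_phi {b : Prop} {V : GCls} (hV : IsPseudovariety V) (hd : DecidableUnivTheory V) :
    RecNT (Phi b V) := by
  obtain ⟨p, hp, h⟩ := recNT_S (b := b) hd
  refine ⟨fun c => p c && intrB c, by unfold intrB; fun_prop, fun c T _ hc hT => ?_⟩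
  have := hc.finite
  obtain ⟨ν, hν⟩ := isTableOf_iff.1 hc
  have hI : intrB c = true ↔ Intr T := by
    simp only [intrB, List.any_eq_true, List.all_eq_true, List.mem_range, Bool.and_eq_true,
      Bool.or_eq_true, beq_iff_eq]
    constructor
    · rintro ⟨z, hz, h1, h2⟩
      obtain ⟨z, rfl⟩ := hν.surj z hz
      refine ⟨z, fun a => ?_, exists_ne z, fun s hs t => ?_⟩
      · have := h1 _ (hν.lt a)
        rw [← hν.mul, ← hν.mul] at this
        exact ⟨hν.inj this.1, hν.inj this.2⟩
      · obtain ⟨u, hu, v, hv, h3⟩ :=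
          (h2 _ (hν.lt s)).resolve_left (fun h => hs (hν.inj h)) _ (hν.lt t)
        obtain ⟨u, rfl⟩ := hν.surj u hu
        obtain ⟨v, rfl⟩ := hν.surj v hv
        rw [← hν.mul, ← hν.mul] at h3
        exact ⟨u, v, hν.inj h3⟩
    · rintro ⟨z, h1, -, h2⟩
      refine ⟨ν z, hν.lt z, fun a ha => ?_, fun s hs => ?_⟩
      · obtain ⟨a, rfl⟩ := hν.surj a ha
        rw [← hν.mul, ← hν.mul, (h1 a).1, (h1 a).2]
        exact ⟨rfl, rfl⟩
      · obtain ⟨s, rfl⟩ := hν.surj s hs
        by_cases hsz : s = z
        · exact Or.inl (by rw [hsz])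
        · refine Or.inr fun t ht => ?_
          obtain ⟨t, rfl⟩ := hν.surj t ht
          obtain ⟨u, v, h3⟩ := h2 s hsz t
          exact ⟨ν u, hν.lt u, ν v, hν.lt v, by rw [← hν.mul, ← hν.mul, h3]⟩
  rw [Bool.and_eq_true, h c T hc hT, hI]
  constructor
  · rintro ⟨⟨U, _, ⟨M, hM, -, ⟨e⟩⟩, f, hf⟩, h2⟩
    exact phi_of_intr hV hM.mem hM.mono ((e : U →ₙ* M.S).comp f) (e.injective.comp hf) h2
  · exact fun h => ⟨le_S T hT h, h.intr⟩

end Pool.Agent.P.MP_152bd8_lc
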