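import Mathlib

set_option autoImplicit false

namespace Pool.Agent.P.MP_152bd8_lc

/-- A class of semigroups. -/
def Cls : Type 1 := ∀ (S : Type) [Semigroup S], Prop

/-- A class of groups. -/
def GCls : Type 1 := ∀ (G : Type) [Group G], Prop

/-- Homomorphic images of members of `K`. -/
def opH (K : Cls) : Cls := fun S _ =>
  ∃ (U : Type) (_ : Semigroup U), K U ∧ ∃ f : MulHom U S, Function.Surjective f

/-- Isomorphic copies of subsemigroups of members of `K`. -/
def opS (K : Cls) : Cls := fun S _ =>
  ∃ (U : Type) (_ : Semigroup U), K U ∧ ∃ f : MulHom S U, Function.Injective f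

/-- Isomorphic copies of direct products of finitely many, and at least `m`, members of `K`. -/
def opP (m : ℕ) (K : Cls) : Cls := fun S _ =>
  ∃ (n : ℕ) (A : Fin n → Type) (_ : ∀ i, Semigroup (A i)),
    m ≤ n ∧ (∀ i, K (A i)) ∧ Nonempty (MulEquiv S (∀ i, A i))

/-- The basic operators. `P0` allows the empty product and `P1` does not. -/
inductive Op : Type
  | H : Op
  | S : Op
  | P0 : Op
  | P1 : Op

/-- The action of a basic operator on classes. -/
def Op.act : Op → Cls → Cls
  | Op.H => opH
  | Op.S => opS
  | Op.P0 => opP 0
  | Op.P1 => opP 1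

/-- The Birkhoff operator given by a word in the basic operators. -/
def birkhoff (w : List Op) (K : Cls) : Cls := w.foldr Op.act K

/-- `c` is the multiplication table of `S` for some numbering of the elements of `S`. -/
def IsTableOf (c : List (List ℕ)) (S : Type) [Semigroup S] : Prop :=
  ∃ e : Equiv (Fin c.length) S,
    ∀ a b : Fin c.length, (e.symm (e a * e b)).val = (c.getD a.val []).getD b.val 0

/-- The set of multiplication tables of members of `K` is decidable. -/
def Recursive (K : Cls) : Prop :=
  ComputablePred fun c : List (List ℕ) => ∃ (S : Type) (_ : Semigroup S), IsTableOf c S ∧ K S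

/-- `K` and all its images under Birkhoff operators are recursive. -/
def CompletelySolvable (K : Cls) : Prop := ∀ w : List Op, Recursive (birkhoff w K)

/-- A pseudovariety of finite groups. -/
structure IsPseudovariety (V : GCls) : Prop where
  finite : ∀ (G : Type) [Group G], V G → Finite G
  sub : ∀ (G H : Type) [Group G] [Group H] (f : MonoidHom H G), Function.Injective f → V G → V H
  quot : ∀ (G H : Type) [Group G] [Group H] (f : MonoidHom G H), Function.Surjective f → V G → V H
  prod : ∀ (G H : Type) [Group G] [Group H], V G → V H → V (G × H)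
  triv : V Unit

/-- The value of a group word (a list of variables with signs) under an assignment. -/
def evalWord {G : Type} [Group G] (x : ℕ → G) (w : List (ℕ × Bool)) : G :=
  (w.map fun p => if p.2 = true then x p.1 else (x p.1)⁻¹).prod

/-- The universal closure of the clause `c` holds in every group of `V`. A literal `(true, w)`
stands for `w = 1` and a literal `(false, w)` for its negation. -/
def ClauseHolds (V : GCls) (c : List (Bool × List (ℕ × Bool))) : Prop :=
  ∀ (G : Type) [Group G], V G → ∀ x : ℕ → G, ∃ l ∈ c, (evalWord x l.2 = 1 ↔ l.1 = true)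

/-- The universal theory of `V` (in clause form) is decidable. -/
def DecidableUnivTheory (V : GCls) : Prop := ComputablePred (ClauseHolds V)

/-- The multiplication of the Rees matrix semigroup with zero (`none` is the zero). -/
def reesMul {G I L : Type} [Group G] (P : L → I → Option G) :
    Option (I × G × L) → Option (I × G × L) → Option (I × G × L)
  | some (i, g, l), some (j, h, m) => (P l j).map fun p => (i, g * p * h, m)
  | _, _ => none

/-- `S` is isomorphic to the Rees matrix semigroup with sandwich matrix `P`. -/
def IsRees (S : Type) [Semigroup S] {G I L : Type} [Group G] (P : L → I → Option G) : Prop :=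
  ∃ e : Equiv S (Option (I × G × L)), ∀ a b : S, e (a * b) = reesMul P (e a) (e b)

/-- `S` is a 0-simple semigroup. -/
def IsZeroSimple (S : Type) [Semigroup S] : Prop :=
  ∃ z : S, (∀ a, z * a = z ∧ a * z = z) ∧ (∃ a b, a * b ≠ z) ∧
    ∀ J : Set S, J.Nonempty → (∀ a ∈ J, ∀ s, s * a ∈ J ∧ a * s ∈ J) → J = {z} ∨ J = Set.univ

/-- Finite 0-simple semigroups over groups in `V`. -/
def ZeroSimpleOver (V : GCls) : Cls := fun S _ =>
  IsZeroSimple S ∧ ∃ (G I L : Type) (_ : Group G) (P : L → I → Option G),
    V G ∧ Finite I ∧ Finite L ∧ IsRees S P

/-- Finite Brandt semigroups over groups in `V`. -/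
def BrandtOver (V : GCls) : Cls := fun S _ =>
  ∃ (G I : Type) (_ : Group G) (_ : DecidableEq I), V G ∧ Finite I ∧ Nonempty I ∧
    IsRees S (fun l i : I => if l = i then some (1 : G) else none)

end Pool.Agent.P.MP_152bd8_lc
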