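import Pool.Agent.P.MP_152bd8_lc.Grp

set_option autoImplicit false
set_option linter.dupNamespace false

namespace Pool.Agent.P.MP_152bd8_lc

open Function

/-- A directed multigraph with a set of usable edges. -/
structure Gr (W E : Type) where
  ok : E → Prop
  src : E → W
  tgt : E → W

def lab {E G : Type} [Monoid G] (q : E → G) (l : List E) : G := (l.map q).prod

@[simp] theorem lab_nil {E G : Type} [Monoid G] (q : E → G) : lab q [] = 1 := rfl
@[simp] theorem lab_cons {E G : Type} [Monoid G] (q : E → G) (e : E) (l : List E) :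
    lab q (e :: l) = q e * lab q l := by simp [lab]
@[simp] theorem lab_append {E G : Type} [Monoid G] (q : E → G) (l m : List E) :
    lab q (l ++ m) = lab q l * lab q m := by simp [lab]

theorem map_lab {E G G' F : Type} [Monoid G] [Monoid G'] [FunLike F G G'] [MonoidHomClass F G G']
    (f : F) (q : E → G) (l : List E) : f (lab q l) = lab (fun e => f (q e)) l := by
  induction l with
  | nil => simp
  | cons e l ih => simp [ih]

theorem lab_eq_one {E G : Type} [Monoid G] (q : E → G) (l : List E) (h : ∀ e ∈ l, q e = 1) :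
    lab q l = 1 := by
  induction l with
  | nil => simp
  | cons e l ih => simp [h e (by simp), ih (fun e he => h e (by simp [he]))]

namespace Gr

variable {W E : Type} (Γ : Gr W E)

def IsPath : W → List E → W → Prop
  | a, [], b => a = b
  | a, e :: l, b => Γ.ok e ∧ Γ.src e = a ∧ IsPath (Γ.tgt e) l b

@[simp] theorem isPath_nil {a b : W} : Γ.IsPath a [] b ↔ a = b := Iff.rfl
@[simp] theorem isPath_cons {a b : W} {e : E} {l : List E} :
    Γ.IsPath a (e :: l) b ↔ Γ.ok e ∧ Γ.src e = a ∧ Γ.IsPath (Γ.tgt e) l b := Iff.rfl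

variable {Γ}

theorem isPath_append {a b : W} {l m : List E} :
    Γ.IsPath a (l ++ m) b ↔ ∃ c, Γ.IsPath a l c ∧ Γ.IsPath c m b := by
  induction l generalizing a with
  | nil => simp
  | cons e l ih => simp [ih, and_assoc]

theorem IsPath.append {a b c : W} {l m : List E} (h : Γ.IsPath a l c) (h' : Γ.IsPath c m b) :
    Γ.IsPath a (l ++ m) b := isPath_append.2 ⟨c, h, h'⟩

variable (Γ)

def Reach (a b : W) : Prop := ∃ l, Γ.IsPath a l b
def Sc (a b : W) : Prop := Γ.Reach a b ∧ Γ.Reach b a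
def In (r : W) (e : E) : Prop := Γ.ok e ∧ Γ.Sc r (Γ.src e) ∧ Γ.Sc r (Γ.tgt e)
def Br (e : E) : Prop := ¬ Γ.Reach (Γ.tgt e) (Γ.src e)

variable {Γ}

theorem Reach.refl (a : W) : Γ.Reach a a := ⟨[], rfl⟩
theorem Reach.trans {a b c : W} (h : Γ.Reach a b) (h' : Γ.Reach b c) : Γ.Reach a c := by
  obtain ⟨l, hl⟩ := h
  obtain ⟨m, hm⟩ := h'
  exact ⟨l ++ m, hl.append hm⟩
theorem Sc.refl (a : W) : Γ.Sc a a := ⟨Reach.refl a, Reach.refl a⟩
theorem Sc.symm {a b : W} (h : Γ.Sc a b) : Γ.Sc b a := ⟨h.2, h.1⟩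
theorem Sc.trans {a b c : W} (h : Γ.Sc a b) (h' : Γ.Sc b c) : Γ.Sc a c :=
  ⟨h.1.trans h'.1, h'.2.trans h.2⟩
theorem In.of_sc {r r' : W} {e : E} (h : Γ.In r e) (h' : Γ.Sc r' r) : Γ.In r' e :=
  ⟨h.1, h'.trans h.2.1, h'.trans h.2.2⟩
theorem In.not_br {r : W} {e : E} (h : Γ.In r e) : ¬ Γ.Br e := fun h' =>
  h' (h.2.2.2.trans h.2.1.1)

theorem IsPath.reach_src {a b : W} {l : List E} (h : Γ.IsPath a l b) {e : E} (he : e ∈ l) :
    Γ.Reach a (Γ.src e) := by
  obtain ⟨s, t, rfl⟩ := List.append_of_mem he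
  obtain ⟨c, h1, -, h2, -⟩ := isPath_append.1 h
  exact ⟨s, h2 ▸ h1⟩

theorem IsPath.decomp {a b : W} {l : List E} (h : Γ.IsPath a l b) :
    ∃ l1 c rest, l = l1 ++ rest ∧ Γ.IsPath a l1 c ∧ Γ.IsPath c rest b ∧ Γ.Sc a c ∧
      (∀ e ∈ l1, Γ.In a e) ∧ (rest = [] ∨ ∃ e r, rest = e :: r ∧ Γ.Br e) := by
  induction l generalizing a with
  | nil => exact ⟨[], a, [], rfl, rfl, h, Sc.refl a, by simp, Or.inl rfl⟩
  | cons e l ih =>
    by_cases hb : Γ.Br e
    · exact ⟨[], a, e :: l, rfl, rfl, h, Sc.refl a, by simp, Or.inr ⟨e, l, rfl, hb⟩⟩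
    · obtain ⟨h1, rfl, h3⟩ := h
      obtain ⟨l1, c, rest, rfl, h4, h5, h6, h7, h8⟩ := ih h3
      have hs : Γ.Sc (Γ.src e) (Γ.tgt e) := ⟨⟨[e], h1, rfl, rfl⟩, not_not.1 hb⟩
      refine ⟨e :: l1, c, rest, rfl, ⟨h1, rfl, h4⟩, h5, hs.trans h6, ?_, h8⟩
      intro e' he'
      rcases List.mem_cons.1 he' with rfl | he'
      · exact ⟨h1, Sc.refl _, hs⟩
      · exact (h7 e' he').of_sc hs

theorem IsPath.src_not_sc {c b : W} {e : E} {r : List E} (h : Γ.IsPath c (e :: r) b)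
    (hb : Γ.Br e) {e' : E} (he' : e' ∈ r) : ¬ Γ.Reach (Γ.src e') c := fun h' =>
  hb ((h.2.2.reach_src he').trans (h.2.1 ▸ h'))

theorem IsPath.not_in {a c b : W} {rest : List E} (h : Γ.IsPath c rest b) (hac : Γ.Sc a c)
    (hr : rest = [] ∨ ∃ e r, rest = e :: r ∧ Γ.Br e) : ∀ e' ∈ rest, ¬ Γ.In a e' := by
  rcases hr with rfl | ⟨e, r, rfl, hb⟩
  · simp
  · intro e' he' hin
    rcases List.mem_cons.1 he' with rfl | he'
    · exact hin.not_br hb
    · exact h.src_not_sc hb he' (hin.2.1.2.trans hac.1)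

section
variable {G : Type} [Group G] (q : E → G)

theorem IsPath.pow {r : W} {l : List E} (h : Γ.IsPath r l r) (n : ℕ) :
    ∃ l', Γ.IsPath r l' r ∧ lab q l' = lab q l ^ n := by
  induction n with
  | zero => exact ⟨[], rfl, by simp⟩
  | succ n ih =>
    obtain ⟨l', h1, h2⟩ := ih
    exact ⟨l' ++ l, h1.append h, by simp [h2, pow_succ]⟩

theorem IsPath.inv [Finite G] {r : W} {l : List E} (h : Γ.IsPath r l r) :
    ∃ l', Γ.IsPath r l' r ∧ lab q l' = (lab q l)⁻¹ := by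
  obtain ⟨l', h1, h2⟩ := h.pow q (orderOf (lab q l) - 1)
  refine ⟨l', h1, h2.trans (eq_inv_of_mul_eq_one_left ?_)⟩
  rw [← pow_succ, Nat.sub_add_cancel (orderOf_pos _), pow_orderOf_eq_one]

theorem exists_tree [Finite G] (r v : W) : ∃ σ ρ : List E, Γ.Sc r v →
    Γ.IsPath r σ v ∧ Γ.IsPath v ρ r ∧ lab q ρ = (lab q σ)⁻¹ := by
  by_cases h : Γ.Sc r v
  · obtain ⟨⟨σ, hσ⟩, ⟨u, hu⟩⟩ := h
    obtain ⟨l, h1, h2⟩ := (hσ.append hu).inv q
    exact ⟨σ, u ++ l, fun _ => ⟨hσ, hu.append h1, by simp [h2]⟩⟩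
  · exact ⟨[], [], fun h' => absurd h' h⟩

end

/-- The hypotheses on an invariant `F` of paths from `a0` to `b`. -/
structure RHyp (Γ : Gr W E) {G : Type} [Group G] (q : E → G) (k : ℕ) (a0 b : W) {γ : Type}
    (F : List E → γ) (Adm Sat : List E → Prop) : Prop where
  s1 : ∀ p l m r, Sat l → Adm (p ++ l ++ r) → Adm (p ++ l ++ m ++ l ++ r)
  s2 : ∀ a c l l', Γ.IsPath a l c → Γ.IsPath a l' c → ¬ Sat l → ¬ Sat l' → lab q l = lab q l'
  lb : ∀ l l', Γ.IsPath a0 l b → Γ.IsPath a0 l' b → Adm l → Adm l' → lab q l = lab q l' →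
    F l = F l'
  fin : ∀ p, ∃ (K : Type) (_ : Finite K) (α : List E → K), Nat.card K ≤ k ∧ ∀ l l' s,
    Γ.IsPath a0 (p ++ l ++ s) b → Γ.IsPath a0 (p ++ l' ++ s) b →
    Adm (p ++ l ++ s) → Adm (p ++ l' ++ s) → α l = α l' → F (p ++ l ++ s) = F (p ++ l' ++ s)

theorem RHyp.step {G : Type} [Group G] {q : E → G} {k : ℕ} {a0 b : W} {γ : Type}
    {F : List E → γ} {Adm Sat : List E → Prop} (hyp : RHyp Γ q k a0 b F Adm Sat)
    {a c : W} {H : Subgroup G} {H' : Type} [Group H'] {π : H →* H'} (hπ : Resp π k)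
    (hH : ∀ h : H, ∃ l, Γ.IsPath a l a ∧ lab q l = h)
    {σ ρ : List E} (hσ : Γ.IsPath a σ a) (hρ : Γ.IsPath c ρ a)
    {p l1 rest : List E} {x : G} {h1 h2 : H} (hp : Γ.IsPath a0 p a) (hl1 : Γ.IsPath a l1 c)
    (hrest : Γ.IsPath c rest b) (e1 : (h1 : G) = lab q σ * lab q l1 * lab q ρ)
    (e2 : (h2 : G) = lab q σ * x * lab q ρ) (h12 : π h1 = π h2) (hs : Sat l1)
    (hadm : Adm (p ++ l1 ++ rest)) :
    ∃ m, Γ.IsPath a m c ∧ lab q m = x ∧ Adm (p ++ m ++ rest) ∧
      F (p ++ l1 ++ rest) = F (p ++ m ++ rest) := by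
  choose ℓ hℓ1 hℓ2 using hH
  have hpath : ∀ l, Γ.IsPath a l a → Γ.IsPath a0 (p ++ l1 ++ ρ ++ l ++ (σ ++ l1 ++ rest)) b :=
    fun l hl => (((hp.append hl1).append hρ).append hl).append ((hσ.append hl1).append hrest)
  have hadm' : ∀ l, Adm (p ++ l1 ++ ρ ++ l ++ (σ ++ l1 ++ rest)) := fun l => by
    have := hyp.s1 p l1 (ρ ++ l ++ σ) rest hs hadm
    simpa only [List.append_assoc] using this
  obtain ⟨K, _, α, hK, hα⟩ := hyp.fin (p ++ l1 ++ ρ)
  let β : H → γ := fun h => F (p ++ l1 ++ ρ ++ ℓ h ++ (σ ++ l1 ++ rest))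
  have hβ : ∀ h h', β (h * h') = F (p ++ l1 ++ ρ ++ ℓ h ++ (ℓ h' ++ (σ ++ l1 ++ rest))) := by
    intro h h'
    have e : p ++ l1 ++ ρ ++ ℓ h ++ (ℓ h' ++ (σ ++ l1 ++ rest)) =
        p ++ l1 ++ ρ ++ (ℓ h ++ ℓ h') ++ (σ ++ l1 ++ rest) := by simp only [List.append_assoc]
    rw [e]
    exact hyp.lb _ _ (hpath _ (hℓ1 _)) (hpath _ ((hℓ1 h).append (hℓ1 h'))) (hadm' _) (hadm' _)
      (by simp [hℓ2, mul_assoc])
  have hmain : β h1⁻¹ = β (h1⁻¹ * h2 * h1⁻¹) := by
    refine hπ K γ hK (fun h => α (ℓ h)) β (fun x y hxy h => ?_) _ _ (by simp [h12])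
    rw [hβ, hβ]
    have e : ∀ x, p ++ l1 ++ ρ ++ ℓ x ++ (ℓ h ++ (σ ++ l1 ++ rest)) =
        p ++ l1 ++ ρ ++ (ℓ x ++ ℓ h) ++ (σ ++ l1 ++ rest) := fun x => by
      simp only [List.append_assoc]
    refine hα _ _ _ ?_ ?_ ?_ ?_ hxy
    · rw [e]; exact hpath _ ((hℓ1 x).append (hℓ1 h))
    · rw [e]; exact hpath _ ((hℓ1 y).append (hℓ1 h))
    · rw [e]; exact hadm' _
    · rw [e]; exact hadm' _
  have e3 : p ++ (l1 ++ ρ ++ ℓ (h1⁻¹ * h2 * h1⁻¹) ++ σ ++ l1) ++ rest =
      p ++ l1 ++ ρ ++ ℓ (h1⁻¹ * h2 * h1⁻¹) ++ (σ ++ l1 ++ rest) := by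
    simp only [List.append_assoc]
  refine ⟨l1 ++ ρ ++ ℓ (h1⁻¹ * h2 * h1⁻¹) ++ σ ++ l1,
    (((hl1.append hρ).append (hℓ1 _)).append hσ).append hl1, ?_, ?_, ?_⟩
  · simp only [lab_append, hℓ2, Subgroup.coe_mul, Subgroup.coe_inv, e1, e2]
    group
  · rw [e3]; exact hadm' _
  · rw [e3]
    refine Eq.trans ?_ hmain
    refine hyp.lb _ _ ((hp.append hl1).append hrest) (hpath _ (hℓ1 _)) hadm (hadm' _) ?_
    simp only [lab_append, hℓ2, Subgroup.coe_inv, e1]
    group

theorem exists_reduce {V : GCls} (hV : IsPseudovariety V) {Z : Type} [Group Z] {z : Z} (hZ : V Z)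
    (hz : ∀ (G : Type) [Group G], V G → Nontrivial G → z ≠ 1) [Finite W] [Finite E]
    (Γ : Gr W E) {G : Type} [Group G] (hG : V G) (q : E → G) (k m : ℕ) (hW : Nat.card W ≤ m)
    (hE : Nat.card E ≤ m) :
    ∃ (G' : Type) (_ : Group G') (q' : E → G'), V G' ∧
      Nat.card G' ≤ gb k m ^ m * Nat.card Z ^ m ∧
      ∀ (a0 b : W) (γ : Type) (F : List E → γ) (Adm Sat : List E → Prop),
        RHyp Γ q k a0 b F Adm Sat → ∀ l l', Γ.IsPath a0 l b → Γ.IsPath a0 l' b → Adm l → Adm l' →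
        lab q' l = lab q' l' → F l = F l' := by
  classical
  have hfG := hV.finite G hG
  have hfZ := hV.finite Z hZ
  have hZpos : 1 ≤ Nat.card Z := Nat.card_pos
  rcases subsingleton_or_nontrivial G with hsub | hnt
  · refine ⟨G, inferInstance, q, hG, ?_, fun a0 b γ F Adm Sat hyp => hyp.lb⟩
    rw [Nat.card_eq_one_iff_unique.2 ⟨hsub, inferInstance⟩]
    exact Nat.mul_pos (Nat.pow_pos (one_le_gb k m)) (Nat.pow_pos hZpos)
  have hz1 : z ≠ 1 := hz G hG hnt
  choose σ ρ htree using exists_tree (Γ := Γ) q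
  let gen : W → E → G := fun r e =>
    if Γ.In r e then lab q (σ r (Γ.src e)) * q e * lab q (ρ r (Γ.tgt e)) else 1
  let H : W → Subgroup G := fun r => Subgroup.closure (Set.range (gen r))
  let gen' : ∀ r, E → H r := fun r e => ⟨gen r e, Subgroup.subset_closure ⟨e, rfl⟩⟩
  have hgen : ∀ r, Subgroup.closure (Set.range (gen' r)) = ⊤ := fun r => by
    rw [← Subgroup.closure_closure_coe_preimage (k := Set.range (gen r))]
    congr 1
    ext x
    simp only [Set.mem_range, Set.mem_preimage, gen', Subtype.ext_iff]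
  have hloop : ∀ r (h : H r), ∃ l, Γ.IsPath r l r ∧ lab q l = h := by
    rintro r ⟨h, hh⟩
    induction hh using Subgroup.closure_induction with
    | mem x hx =>
      obtain ⟨e, rfl⟩ := hx
      by_cases hin : Γ.In r e
      · refine ⟨σ r (Γ.src e) ++ e :: ρ r (Γ.tgt e),
          (htree _ _ hin.2.1).1.append ⟨hin.1, rfl, (htree _ _ hin.2.2).2.1⟩, ?_⟩
        simp [gen, hin, mul_assoc]
      · exact ⟨[], rfl, by simp [gen, hin]⟩
    | one => exact ⟨[], rfl, rfl⟩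
    | mul x y _ _ hx hy =>
      obtain ⟨l, h1, h2⟩ := hx
      obtain ⟨l', h3, h4⟩ := hy
      exact ⟨l ++ l', h1.append h3, by simp [h2, h4]⟩
    | inv x _ hx =>
      obtain ⟨l, h1, h2⟩ := hx
      obtain ⟨l', h3, h4⟩ := h1.inv q
      exact ⟨l', h3, by rw [h4, h2]⟩
  have htel : ∀ r l a c, Γ.IsPath a l c → Γ.Sc r a → (∀ e ∈ l, Γ.In r e) →
      ((lab (gen' r) l : H r) : G) = lab q (σ r a) * lab q l * lab q (ρ r c) := by
    intro r l
    induction l with
    | nil =>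
      rintro a c rfl h _
      simp [(htree _ _ h).2.2]
    | cons e l ih =>
      rintro a c ⟨h1, rfl, h3⟩ h hin
      have he := hin e (by simp)
      rw [lab_cons, Subgroup.coe_mul, ih _ _ h3 he.2.2 (fun e he => hin e (by simp [he]))]
      simp only [gen', gen, he, if_true, lab_cons, (htree _ _ he.2.2).2.2]
      group
  choose H' iH π hπ1 hπ2 hπ3 hπ4 using fun r => exists_reduction (gen' r) (hgen r) k m hE
  let mk : E → E → Z := fun e => if Γ.Br e then Pi.mulSingle e z else 1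
  let q' : E → (∀ r, H' r) × (E → Z) := fun e => (fun r => π r (gen' r e), mk e)
  have hq1 : ∀ l r, (lab q' l).1 r = π r (lab (gen' r) l) := by
    intro l r
    induction l with
    | nil => simp
    | cons e l ih => simp [ih, q']
  have hq2 : ∀ l, (lab q' l).2 = lab mk l := fun l => map_lab (MonoidHom.snd _ _) q' l
  have hmk : ∀ l a c e0, Γ.IsPath a l c → Γ.Br e0 → lab mk l e0 = if e0 ∈ l then z else 1 := by
    intro l
    induction l with
    | nil => simp
    | cons e l ih =>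
      intro a c e0 h hb
      rw [lab_cons, Pi.mul_apply, ih _ _ e0 h.2.2 hb]
      by_cases he : e0 = e
      · subst he
        have : e0 ∉ l := fun hm => h.src_not_sc hb hm (h.2.1 ▸ Reach.refl _)
        simp [this, mk, hb]
      · have : mk e e0 = 1 := by
          by_cases hb' : Γ.Br e
          · simp [mk, hb', Pi.mulSingle_eq_of_ne he]
          · simp [mk, hb']
        simp [this, he]
  have hone : ∀ r l, (∀ e ∈ l, ¬ Γ.In r e) → lab (gen' r) l = 1 := fun r l h =>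
    lab_eq_one _ _ fun e he => Subtype.ext (by simp [gen', gen, h e he])
  refine ⟨(∀ r, H' r) × (E → Z), inferInstance, q', hV.prod _ _
    (hV.pi _ fun r => hV.quot _ _ (π r) (hπ1 r) (hV.subgroup _ hG)) (hV.pi _ fun _ => hZ), ?_, ?_⟩
  · have := Fintype.ofFinite W
    rw [Nat.card_prod, Nat.card_fun, Nat.card_pi]
    refine Nat.mul_le_mul ?_ (Nat.pow_le_pow_right hZpos hE)
    refine (Finset.prod_le_pow_card _ _ _ fun r _ => hπ3 r).trans ?_
    exact Nat.pow_le_pow_right (one_le_gb k m) (by simpa using hW)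
  intro a0 b γ F Adm Sat hyp
  suffices hmain : ∀ (n : ℕ) (l l' p p' : List E) (a : W), l.length < n → Γ.IsPath a0 p a →
      Γ.IsPath a0 p' a → lab q p = lab q p' → Γ.IsPath a l b → Γ.IsPath a l' b →
      lab q' l = lab q' l' → Adm (p ++ l) → Adm (p' ++ l') → F (p ++ l) = F (p' ++ l') by
    intro l l' h1 h2 h3 h4 h5
    exact hmain _ l l' [] [] a0 (Nat.lt_succ_self _) rfl rfl rfl h1 h2 h5 h3 h4
  intro n
  induction n with
  | zero => intro l _ _ _ _ h; omega
  | succ n ih =>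
    intro l l' p p' a hn hp hp' hpp hl hl' hq hadm hadm'
    have hbr : ∀ e, Γ.Br e → (e ∈ l ↔ e ∈ l') := fun e he => by
      have h1 := congrFun ((hq2 l).symm.trans ((congrArg Prod.snd hq).trans (hq2 l'))) e
      rw [hmk l _ _ e hl he, hmk l' _ _ e hl' he] at h1
      by_cases h2 : e ∈ l <;> by_cases h3 : e ∈ l' <;> simp_all [hz1.symm]
    obtain ⟨l1, c, rest, rfl, h1, h2, h3, h4, h5⟩ := hl.decomp
    obtain ⟨l1', c', rest', rfl, h1', h2', h3', h4', h5'⟩ := hl'.decomp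
    have hni := fun {r : W} => h2.not_in (a := r)
    have hni' := fun {r : W} => h2'.not_in (a := r)
    have hcase : (rest = [] ∧ rest' = []) ∨ ∃ e r r', rest = e :: r ∧ rest' = e :: r' := by
      rcases h5 with rfl | ⟨e, r, rfl, hb⟩ <;> rcases h5' with rfl | ⟨e', r', rfl, hb'⟩
      · exact Or.inl ⟨rfl, rfl⟩
      · exact absurd hb' (h4 e' (by simpa using (hbr e' hb').2 (by simp))).not_br
      · exact absurd hb (h4' e (by simpa using (hbr e hb).1 (by simp))).not_br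
      · right
        have : e' ∈ l1 ++ e :: r := (hbr e' hb').2 (by simp)
        rcases List.mem_append.1 this with h | h
        · exact absurd hb' (h4 e' h).not_br
        · rcases List.mem_cons.1 h with rfl | h
          · exact ⟨_, _, _, rfl, rfl⟩
          · exact absurd (h2'.2.1 ▸ h3'.2.trans h3.1) (h2.src_not_sc hb h)
    have hcc : c' = c := by
      rcases hcase with ⟨rfl, rfl⟩ | ⟨e, r, r', rfl, rfl⟩
      · exact h2'.trans h2.symm
      · exact h2'.2.1.symm.trans h2.2.1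
    subst hcc
    have hcomp : π a (lab (gen' a) l1) = π a (lab (gen' a) l1') := by
      have := congrFun (congrArg Prod.fst hq) a
      simpa [hq1, hone a rest (hni h3 h5), hone a rest' (hni' h3 h5')] using this
    have hrest : lab q' rest = lab q' rest' := by
      refine Prod.ext (funext fun r => ?_) ?_
      · by_cases hr : Γ.Sc r a
        · rw [hq1, hq1, hone r rest (hni (hr.trans h3) h5), hone r rest' (hni' (hr.trans h3) h5')]
        · have := congrFun (congrArg Prod.fst hq) r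
          have e1 := hone r l1 fun e he hin => hr (hin.2.1.trans (h4 e he).2.1.symm)
          have e2 := hone r l1' fun e he hin => hr (hin.2.1.trans (h4' e he).2.1.symm)
          simpa [hq1, e1, e2] using this
      · have := congrArg Prod.snd hq
        have e1 : lab mk l1 = 1 := lab_eq_one _ _ fun e he => by simp [mk, (h4 e he).not_br]
        have e2 : lab mk l1' = 1 := lab_eq_one _ _ fun e he => by simp [mk, (h4' e he).not_br]
        simpa [hq2, e1, e2] using this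
    have hmm : ∃ m m', Γ.IsPath a m c' ∧ Γ.IsPath a m' c' ∧ lab q m = lab q m' ∧
        Adm (p ++ m ++ rest) ∧ Adm (p' ++ m' ++ rest') ∧
        F (p ++ l1 ++ rest) = F (p ++ m ++ rest) ∧
        F (p' ++ l1' ++ rest') = F (p' ++ m' ++ rest') := by
      rw [← List.append_assoc] at hadm hadm'
      have t1 := htel a l1 a c' h1 (Sc.refl a) h4
      have t2 := htel a l1' a c' h1' (Sc.refl a) h4'
      have hσ := (htree a a (Sc.refl a)).1
      have hρ := (htree a c' h3).2.1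
      by_cases hs : Sat l1
      · obtain ⟨m, m1, m2, m3, m4⟩ :=
          hyp.step (hπ4 a) (hloop a) hσ hρ hp h1 h2 t1 t2 hcomp hs hadm
        exact ⟨m, l1', m1, h1', m2, m3, hadm', m4, rfl⟩
      · by_cases hs' : Sat l1'
        · obtain ⟨m, m1, m2, m3, m4⟩ :=
            hyp.step (hπ4 a) (hloop a) hσ hρ hp' h1' h2' t2 t1 hcomp.symm hs' hadm'
          exact ⟨l1, m, h1, m1, m2.symm, hadm, m3, rfl, m4⟩
        · exact ⟨l1, l1', h1, h1', hyp.s2 _ _ _ _ h1 h1' hs hs', hadm, hadm', rfl, rfl⟩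
    obtain ⟨m, m', m1, m2, m3, m4, m5, m6, m7⟩ := hmm
    rw [← List.append_assoc, ← List.append_assoc, m6, m7]
    rcases hcase with ⟨rfl, rfl⟩ | ⟨e, r, r', rfl, rfl⟩
    · exact hyp.lb _ _ ((hp.append m1).append h2) ((hp'.append m2).append h2') m4 m5
        (by simp [hpp, m3])
    · have e1 : ∀ (p m r : List E), p ++ m ++ e :: r = (p ++ m ++ [e]) ++ r := by simp
      rw [e1] at m4 m5
      rw [e1, e1 p']
      have he : Γ.IsPath c' [e] (Γ.tgt e) := ⟨h2.1, h2.2.1, rfl⟩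
      refine ih r r' _ _ (Γ.tgt e) (by simp at hn; omega) ((hp.append m1).append he)
        ((hp'.append m2).append he) (by simp [hpp, m3]) h2.2.2 h2'.2.2 ?_ m4 m5
      simpa using hrest

end Gr

end Pool.Agent.P.MP_152bd8_lc
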