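import Pool.Agent.P.MP_152bd8_lc.Defs

set_option autoImplicit false
set_option linter.dupNamespace false

namespace Pool.Agent.P.MP_152bd8_lc

open Function

namespace IsPseudovariety

variable {V : GCls} (hV : IsPseudovariety V)
include hV

theorem of_equiv {G H : Type} [Group G] [Group H] (e : G ≃* H) (h : V G) : V H :=
  hV.quot G H e.toMonoidHom e.surjective h

theorem of_subsingleton (G : Type) [Group G] [Subsingleton G] : V G :=
  hV.sub Unit G 1 (fun _ _ _ => Subsingleton.elim _ _) hV.triv

theorem subgroup {G : Type} [Group G] (H : Subgroup G) (h : V G) : V H :=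
  hV.sub G H H.subtype H.subtype_injective h

theorem pi_fin (n : ℕ) : ∀ (G : Fin n → Type) [∀ i, Group (G i)], (∀ i, V (G i)) → V (∀ i, G i) := by
  induction n with
  | zero => intro G _ _; exact hV.of_subsingleton _
  | succ n ih =>
    intro G _ h
    have h1 := hV.prod _ _ (h 0) (ih (fun i => G i.succ) (fun i => h _))
    refine hV.sub _ _ (MonoidHom.prod (Pi.evalMonoidHom G 0)
      (MonoidHom.pi fun i : Fin n => Pi.evalMonoidHom G i.succ)) (fun a b hab => ?_) h1
    funext i
    refine Fin.cases ?_ (fun j => ?_) i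
    · exact congrArg Prod.fst hab
    · exact congrFun (congrArg Prod.snd hab) j

theorem pi {ι : Type} [Finite ι] (G : ι → Type) [∀ i, Group (G i)] (h : ∀ i, V (G i)) :
    V (∀ i, G i) := by
  let σ := Finite.equivFin ι
  have h1 := hV.pi_fin _ (fun j => G (σ.symm j)) (fun j => h _)
  exact hV.of_equiv (MulEquiv.symm { Equiv.piCongrLeft' G σ with map_mul' := fun _ _ => rfl }) h1

/-- A fixed group with a marked element that is nontrivial if possible. -/
theorem exists_mark : ∃ (Z : Type) (_ : Group Z) (z : Z), V Z ∧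
    ∀ (G : Type) [Group G], V G → Nontrivial G → z ≠ 1 := by
  by_cases h : ∃ (G : Type) (_ : Group G), V G ∧ Nontrivial G
  · obtain ⟨G, _, hG, hn⟩ := h
    obtain ⟨z, hz⟩ := exists_ne (1 : G)
    exact ⟨G, inferInstance, z, hG, fun _ _ _ _ => hz⟩
  · exact ⟨Unit, inferInstance, 1, hV.triv, fun G _ hG hn => absurd ⟨G, inferInstance, hG, hn⟩ h⟩

end IsPseudovariety

def gb (k m : ℕ) : ℕ := (k ^ k) ^ ((k ^ k) ^ m)

theorem one_le_pow_self (k : ℕ) : 1 ≤ k ^ k := by
  cases k with
  | zero => simp
  | succ k => exact Nat.one_le_pow _ _ (by omega)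

theorem one_le_gb (k m : ℕ) : 1 ≤ gb k m := Nat.one_le_pow _ _ (one_le_pow_self k)

/-- `π` does not identify elements separated by a right-invariant relation of index at most `k`. -/
def Resp {H H' : Type} [Group H] [Group H'] (π : H →* H') (k : ℕ) : Prop :=
  ∀ (K γ : Type) [Finite K], Nat.card K ≤ k → ∀ (α : H → K) (β : H → γ),
    (∀ a a', α a = α a' → ∀ h, β (a * h) = β (a' * h)) → ∀ a a', π a = π a' → β a = β a'

theorem exists_reduction {H E : Type} [Group H] [Finite E] (g : E → H)
    (hg : Subgroup.closure (Set.range g) = ⊤) (k m : ℕ) (hm : Nat.card E ≤ m) :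
    ∃ (H' : Type) (_ : Group H') (π : H →* H'), Surjective π ∧ Finite H' ∧
      Nat.card H' ≤ gb k m ∧ Resp π k := by
  classical
  let Ω := Equiv.Perm (Fin k)
  have hΩ : Nat.card Ω ≤ k ^ k := by
    simp only [Ω, Nat.card_eq_fintype_card, Fintype.card_perm, Fintype.card_fin]
    exact Nat.factorial_le_pow k
  have hinj : Injective (fun (φ : H →* Ω) (e : E) => φ (g e)) := fun φ ψ h =>
    MonoidHom.eq_of_eqOn_dense hg (by rintro _ ⟨e, rfl⟩; exact congrFun h e)
  have hfin : Finite (H →* Ω) := Finite.of_injective _ hinj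
  have hc : Nat.card (H →* Ω) ≤ (k ^ k) ^ m := by
    refine (Nat.card_le_card_of_injective _ hinj).trans ?_
    rw [Nat.card_fun]
    exact (Nat.pow_le_pow_left hΩ _).trans (Nat.pow_le_pow_right (one_le_pow_self k) hm)
  let π0 : H →* ((H →* Ω) → Ω) := MonoidHom.pi fun φ => φ
  refine ⟨π0.range, inferInstance, π0.rangeRestrict, π0.rangeRestrict_surjective, inferInstance,
    ?_, ?_⟩
  · refine (Nat.card_le_card_of_injective _ Subtype.val_injective).trans ?_
    rw [Nat.card_fun]
    exact (Nat.pow_le_pow_left hΩ _).trans (Nat.pow_le_pow_right (one_le_pow_self k) hc)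
  · intro K γ _ hK α β hαβ a a' haa
    let M : Subgroup H :=
      { carrier := {a | ∀ h, β (a * h) = β h}
        one_mem' := fun h => by rw [one_mul]
        mul_mem' := fun {a b} ha hb h => by rw [mul_assoc, ha, hb]
        inv_mem' := fun {a} ha h => by rw [← ha, mul_inv_cancel_left] }
    have hj : Injective (fun q : H ⧸ M => α q.out⁻¹) := fun x y hxy => by
      rw [← x.out_eq', ← y.out_eq']
      refine QuotientGroup.eq.2 fun h => ?_
      have := hαβ _ _ hxy (y.out * h)
      rw [mul_assoc, this, inv_mul_cancel_left]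
    have hfq : Finite (H ⧸ M) := Finite.of_injective _ hj
    have hcq : Nat.card (H ⧸ M) ≤ k := (Nat.card_le_card_of_injective _ hj).trans hK
    let ι : (H ⧸ M) ↪ Fin k := (Finite.equivFin _).toEmbedding.trans (Fin.castLEEmb hcq)
    let φ : H →* Ω := (Equiv.Perm.viaEmbeddingHom ι).comp (MulAction.toPermHom H (H ⧸ M))
    have h1 : φ a = φ a' := congrFun (congrArg Subtype.val haa) φ
    have h2 : MulAction.toPermHom H (H ⧸ M) a = MulAction.toPermHom H (H ⧸ M) a' :=
      Equiv.Perm.viaEmbeddingHom_injective ι h1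
    have h3 : MulAction.toPermHom H (H ⧸ M) (a' * a⁻¹) = 1 := by
      rw [map_mul, map_inv, h2, mul_inv_cancel]
    have h4 : (a' * a⁻¹) • ((1 : H) : H ⧸ M) = ((1 : H) : H ⧸ M) := by
      have := congrArg (fun σ : Equiv.Perm (H ⧸ M) => σ ((1 : H) : H ⧸ M)) h3
      simpa using this
    have h5 : a' * a⁻¹ ∈ M := by
      have h6 : ((1 : H) : H ⧸ M) = ((a' * a⁻¹ : H) : H ⧸ M) := by
        rw [← h4, MulAction.Quotient.smul_mk, smul_eq_mul, mul_one]
      simpa using QuotientGroup.eq.1 h6
    have := h5 a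
    rw [inv_mul_cancel_right] at this
    exact this.symm

end Pool.Agent.P.MP_152bd8_lc
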