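import Pool.Agent.P.MP_152bd8_lc.Smash

set_option autoImplicit false
set_option linter.dupNamespace false

namespace Pool.Agent.P.MP_152bd8_lc

open Function

theorem exists_of_P_phi {b : Prop} {V : GCls} {U : Type} [Semigroup U] (h : opP 0 (Phi b V) U) :
    ∃ (n : ℕ) (M : Fin n → RM), (∀ i, (M i).Good b V) ∧ (∀ i, (M i).Reg) ∧
      Nonempty (U ≃* ∀ i, (M i).S) := by
  obtain ⟨n, A, _, -, hA, ⟨e⟩⟩ := h
  choose M h1 h2 h3 using hA
  exact ⟨n, M, h1, h2, ⟨e.trans (MulEquiv.piCongrRight fun i => (h3 i).some)⟩⟩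

section
variable {ι : Type} [DecidableEq ι] {A : ι → Type} [∀ i, MulZeroClass (A i)]

def restr (W : Finset ι) (x : ∀ i, A i) : ∀ i, A i := fun i => if i ∈ W then x i else 0

theorem restr_mul_left (W : Finset ι) (x y : ∀ i, A i) : restr W (x * y) = restr W x * y := by
  funext i; by_cases h : i ∈ W <;> simp [restr, h]

theorem restr_mul_right (W : Finset ι) (x y : ∀ i, A i) : restr W (x * y) = x * restr W y := by
  funext i; by_cases h : i ∈ W <;> simp [restr, h]

theorem restr_mul (W : Finset ι) (x y : ∀ i, A i) : restr W (x * y) = restr W x * restr W y := by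
  funext i; by_cases h : i ∈ W <;> simp [restr, h]

end

theorem phi_HP_le_SP {b : Prop} {V : GCls} (hV : IsPseudovariety V) :
    Le (opH (opP 0 (Phi b V))) (opS (opP 0 (Phi b V))) := by
  classical
  refine Le.trans ?_ (phi_H hV).P.S
  rintro T _ - ⟨U, _, hU, f, hf⟩
  obtain ⟨n, M, hM, hr, ⟨e⟩⟩ := exists_of_P_phi hU
  let φ : (∀ i, (M i).S) →ₙ* T := f.comp (e.symm : (∀ i, (M i).S) →ₙ* U)
  have hφ : Surjective φ := hf.comp e.symm.surjective
  clear_value φ
  have hreg : ∀ x : ∀ i, (M i).S, ∃ y, x * y * x = x := fun x => by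
    choose y hy using fun i => (hr i).regular (x i)
    exact ⟨y, funext hy⟩
  have key : ∀ W x x', φ x = φ x' → φ (restr W x) = φ (restr W x') := by
    intro W x x' h
    obtain ⟨y, hy⟩ := hreg x
    obtain ⟨y', hy'⟩ := hreg x'
    calc φ (restr W x) = φ (restr W (x * (y * x))) := by rw [← mul_assoc, hy]
      _ = φ (restr W (x' * (y * x))) := by rw [restr_mul_right, restr_mul_right W x', map_mul,
            map_mul φ x', h]
      _ = φ (restr W (x' * y' * x' * (y * x))) := by rw [hy']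
      _ = φ (restr W (x' * y')) * (φ x' * φ (y * x)) := by
            rw [mul_assoc (x' * y'), restr_mul_left, map_mul, map_mul φ x']
      _ = φ (restr W (x' * y')) * φ x' := by rw [← h, ← map_mul φ x, ← mul_assoc, hy]
      _ = φ (restr W x') := by rw [← map_mul, ← restr_mul_left, hy']
  let J : Finset (Fin n) → T → Prop := fun W t => ∃ y, (∃ i ∈ W, y i = 0) ∧ φ (restr W y) = t
  have hJl : ∀ W x z, J W (φ (restr W x)) → J W (φ (restr W (x * z))) := by
    rintro W x z ⟨y, ⟨i, hi, hy⟩, h⟩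
    exact ⟨y * z, ⟨i, hi, by simp [hy]⟩, by rw [restr_mul_left, restr_mul_left, map_mul, map_mul, h]⟩
  have hJr : ∀ W x z, J W (φ (restr W x)) → J W (φ (restr W (z * x))) := by
    rintro W x z ⟨y, ⟨i, hi, hy⟩, h⟩
    exact ⟨z * y, ⟨i, hi, by simp [hy]⟩,
      by rw [restr_mul_right, restr_mul_right, map_mul, map_mul, h]⟩
  let c : Finset (Fin n) → Con (∀ i, (M i).S) := fun W =>
    { r := fun x y => (J W (φ (restr W x)) ∧ J W (φ (restr W y))) ∨ φ (restr W x) = φ (restr W y)
      iseqv := ⟨fun _ => Or.inr rfl, fun h => h.elim (fun h => Or.inl h.symm)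
        (fun h => Or.inr h.symm), fun {x y z} h1 h2 => by
          rcases h1 with h1 | h1 <;> rcases h2 with h2 | h2
          · exact Or.inl ⟨h1.1, h2.2⟩
          · exact Or.inl ⟨h1.1, h2 ▸ h1.2⟩
          · exact Or.inl ⟨h1 ▸ h2.1, h2.2⟩
          · exact Or.inr (h1.trans h2)⟩
      mul' := fun {w x y z} h1 h2 => by
        rcases h1 with h1 | h1
        · exact Or.inl ⟨hJl _ _ _ h1.1, hJl _ _ _ h1.2⟩
        rcases h2 with h2 | h2
        · exact Or.inl ⟨hJr _ _ _ h2.1, hJr _ _ _ h2.2⟩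
        · exact Or.inr (by rw [restr_mul, restr_mul, map_mul, map_mul, h1, h2]) }
  have hψ : ∀ W, ∃ ψ : T →ₙ* (c W).Quotient, ∀ x, ψ (φ x) = (c W).mkMulHom x := fun W =>
    exists_lift_surj φ hφ _ fun x y h => (Con.eq _).2 (Or.inr (key W x y h))
  choose ψ hψ using hψ
  have hQ : ∀ W : Finset (Fin n), W.Nonempty → opH (Phi b V) (c W).Quotient := by
    rintro W ⟨i0, hi0⟩
    have : Nonempty W := ⟨⟨i0, hi0⟩⟩
    let pr : (∀ i, (M i).S) →ₙ* (∀ i : W, (M i.1).S) := ⟨fun x i => x i.1, fun _ _ => rfl⟩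
    have hpr : Surjective pr := fun y =>
      ⟨fun i => if h : i ∈ W then y ⟨i, h⟩ else 0, funext fun i => by simp [pr, i.2]⟩
    obtain ⟨χ, hχ⟩ := exists_lift_surj ((RM.smashHom fun i : W => M i.1).comp pr)
      (RM.smashHom_surjective.comp hpr) (c W).mkMulHom (fun x y h => (Con.eq _).2 (by
        by_cases h0 : RM.smashHom (fun i : W => M i.1) (pr x) = 0
        · have h1 : RM.smashHom (fun i : W => M i.1) (pr y) = 0 := h.symm.trans h0
          have h2 : ∀ x, RM.smashHom (fun i : W => M i.1) (pr x) = 0 → J W (φ (restr W x)) := by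
            intro x hx
            have := mt RM.smashHom_ne_zero.2 (not_not.2 hx)
            push Not at this
            obtain ⟨k, hk⟩ := this
            exact ⟨x, ⟨k.1, k.2, hk⟩, rfl⟩
          exact Or.inl ⟨h2 x h0, h2 y h1⟩
        · have h1 := RM.smashHom_inj h h0
          refine Or.inr (congrArg φ (funext fun i => ?_))
          by_cases hi : i ∈ W
          · simpa [restr, hi, pr] using congrFun h1 ⟨i, hi⟩
          · simp [restr, hi]))
    refine ⟨_, inferInstance, (RM.smash_good hV fun i : W => hM i.1).phi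
      (RM.smash_reg fun i => hr i.1), χ, fun q => ?_⟩
    obtain ⟨x, rfl⟩ := Quotient.exists_rep q
    exact ⟨_, hχ x⟩
  let sp : (∀ i, (M i).S) → Finset (Fin n) := fun x => Finset.univ.filter fun i => x i ≠ 0
  have hsp : ∀ x, restr (sp x) x = x := fun x => funext fun i => by
    by_cases h : x i = 0 <;> simp [restr, sp, h]
  have hsp2 : ∀ W x, sp (restr W x) = W ∩ sp x := fun W x => by
    ext i; by_cases h : i ∈ W <;> simp [restr, sp, h]
  have hmin : ∀ t, ∃ x, φ x = t ∧ ∀ y, φ y = t → (sp x).card ≤ (sp y).card := fun t => by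
    obtain ⟨x0, h0⟩ := hφ t
    obtain ⟨⟨x, hx⟩, h⟩ := exists_minimalFor_of_wellFoundedLT (fun _ : {x // φ x = t} => True)
      (fun x => (sp x.1).card) ⟨⟨x0, h0⟩, trivial⟩
    exact ⟨x, hx, fun y hy => le_of_not_gt fun hlt => (h.2 (j := ⟨y, hy⟩) trivial hlt.le).not_gt hlt⟩
  have hsep : ∀ x x', (∀ y, φ y = φ x → (sp x).card ≤ (sp y).card) →
      (sp x').card ≤ (sp x).card → φ x ≠ φ x' →
      (sp x).Nonempty ∧ ψ (sp x) (φ x) ≠ ψ (sp x) (φ x') := by
    intro x x' hx hc hne
    have h1 : ∀ y, φ (restr (sp x) y) = φ x → sp x ⊆ sp y := fun y hy => by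
      have h2 := hx _ hy
      rw [hsp2] at h2
      exact Finset.inter_eq_left.1 (Finset.eq_of_subset_of_card_le Finset.inter_subset_left h2)
    constructor
    · rw [Finset.nonempty_iff_ne_empty]
      intro h0
      have h2 : sp x' = ∅ := Finset.card_eq_zero.1 (by rw [h0] at hc; simpa using hc)
      apply hne
      rw [← hsp x, ← hsp x', h0, h2]
      rfl
    · rw [hψ, hψ]
      intro h2
      rcases (Con.eq _).1 h2 with ⟨⟨y, ⟨i, hi, hy⟩, h3⟩, -⟩ | h3
      · rw [hsp] at h3
        simpa [sp, hy] using h1 y h3 hi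
      · rw [hsp] at h3
        have h4 := Finset.eq_of_subset_of_card_le (h1 x' h3.symm) hc
        rw [h4, hsp] at h3
        exact hne h3
  refine ⟨∀ W : {W : Finset (Fin n) // W.Nonempty}, (c W.1).Quotient, inferInstance,
    opP_of_finite _ (fun W => hQ W.1 W.2) (MulEquiv.refl _) (by omega),
    MulHom.pi fun W => ψ W.1, fun t t' htt => ?_⟩
  by_contra hne
  obtain ⟨x, rfl, hx⟩ := hmin t
  obtain ⟨x', rfl, hx'⟩ := hmin t'
  rcases le_total (sp x').card (sp x).card with h | h
  · obtain ⟨h1, h2⟩ := hsep x x' hx h hne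
    exact h2 (congrFun htt ⟨_, h1⟩)
  · obtain ⟨h1, h2⟩ := hsep x' x hx' h (Ne.symm hne)
    exact h2 (congrFun htt ⟨_, h1⟩).symm

end Pool.Agent.P.MP_152bd8_lc
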