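import Pool.Agent.P.MP_152bd8_lc.Words
import Pool.Agent.P.MP_152bd8_lc.LemF

set_option autoImplicit false
set_option linter.dupNamespace false

namespace Pool.Agent.P.MP_152bd8_lc

open Function

theorem card_pi_le {ι : Type} [Finite ι] {A : ι → Type} {B m : ℕ} (h : ∀ i, Nat.card (A i) ≤ B)
    (hB : 1 ≤ B) (hm : Nat.card ι ≤ m) : Nat.card (∀ i, A i) ≤ B ^ m := by
  have := Fintype.ofFinite ι
  rw [Nat.card_pi]
  refine (Finset.prod_le_pow_card _ _ _ fun r _ => h r).trans ?_
  exact Nat.pow_le_pow_right hB (by simpa using hm)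

theorem card_set' (J : Type) [Finite J] : Nat.card (Set J) = 2 ^ Nat.card J := by
  change Nat.card (J → Prop) = _
  simp [Nat.card_fun]

theorem one_le_rb (c n k : ℕ) : 1 ≤ rb c n k := Nat.le_add_left _ _

theorem exists_of_S_phi {b : Prop} {V : GCls} {U : Type} [Semigroup U] (h : opS (Phi b V) U) :
    ∃ (M : RM) (j : U →ₙ* M.S), M.Good b V ∧ Injective j := by
  obtain ⟨W, _, ⟨M, hM, -, ⟨e⟩⟩, f, hf⟩ := h
  exact ⟨M, (e : W →ₙ* M.S).comp f, hM, e.injective.comp hf⟩

theorem gen_mem_S {b : Prop} {V : GCls} {M : RM} (hM : M.Good b V) {X : Type} [Inhabited X]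
    (a : X → M.S) : opS (Phi b V) (Gen a) :=
  hM.mem_S (MulMemClass.subtype (Gen a)) Subtype.val_injective

theorem card_gen_le {S X : Type} [Semigroup S] [Finite S] [Inhabited X] (a : X → S) :
    Nat.card (Gen a) ≤ Nat.card S := Nat.card_le_card_of_injective _ Subtype.val_injective

theorem fin_val {X T : Type} [Inhabited X] [Semigroup T] [Finite T] (f : X → T) (u : List X) :
    ∃ (K : Type) (_ : Finite K) (α : List X → K), Nat.card K ≤ Nat.card T + 1 ∧
    ∀ l l' s, u ++ l ++ s ≠ [] → u ++ l' ++ s ≠ [] → α l = α l' →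
      val f (u ++ l ++ s) = val f (u ++ l' ++ s) :=
  ⟨WithOne T, (inferInstance : Finite (Option T)), ev f, (Finite.card_option (α := T)).le,
    fun l l' s h1 h2 h => val_eq_of_ev h1 h2 (by simp [h])⟩

theorem bound_HS {b : Prop} {V : GCls} (hV : IsPseudovariety V) : ∃ c : ℕ,
    ∀ (T : Type) [Semigroup T] [Finite T], Nontrivial T → opH (opS (Phi b V)) T →
      ∃ (U : Type) (_ : Semigroup U), Finite U ∧ Nat.card U ≤ rb c (Nat.card T) (Nat.card T + 1) ∧
        opS (Phi b V) U ∧ ∃ f : U →ₙ* T, Surjective f := by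
  obtain ⟨c, hc⟩ := exists_red (b := b) hV
  refine ⟨c, ?_⟩
  rintro T _ _ hT ⟨U, _, hU, f, hf⟩
  have : Inhabited T := ⟨Classical.arbitrary T⟩
  obtain ⟨M, j, hM, hj⟩ := exists_of_S_phi hU
  let a : T → M.S := fun x => j (surjInv hf x)
  have hinv : ∀ w w', val a w = val a w' → val id w = val id w' := by
    intro w w' h
    rw [← map_val, ← map_val] at h
    have := congrArg f (hj h)
    simpa only [map_val, surjInv_eq, Function.id_def] using this
  obtain ⟨M', a', hM', hcard, hred⟩ := hc hM a (Nat.card T + 1)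
  have := hM'.finite hV
  obtain ⟨ψ, hψ⟩ := exists_hom_gen a' id fun w w' hw hw' h => by
    by_cases h0 : val a' w = 0
    · exact hinv _ _ (((hred.zero w hw).1 h0).trans ((hred.zero w' hw').1 (h ▸ h0)).symm)
    · exact hred.main T (val id) (fun _ => True) ⟨fun _ _ _ _ _ _ => trivial,
        fun w w' _ _ _ _ h _ => hinv w w' h, fin_val id⟩ w w' hw hw' trivial trivial h h0
  exact ⟨Gen a', inferInstance, inferInstance, (card_gen_le a').trans hcard, gen_mem_S hM' a', ψ,
    fun t => ⟨_, hψ t⟩⟩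

theorem val_smash {X ι : Type} [Inhabited X] {M : ι → RM} (a : ∀ i, X → (M i).S) (w : List X) :
    val (fun x => RM.smashHom M fun i => a i x) w = RM.smashHom M fun i => val (a i) w := by
  rw [← map_val]
  congr 1
  funext i
  exact val_apply _ _ _

theorem bound_HSP {b : Prop} {V : GCls} (hV : IsPseudovariety V) : ∃ c : ℕ,
    ∀ (T : Type) [Semigroup T] [Finite T], Nontrivial T → opH (opS (opP 0 (Phi b V))) T →
      ∃ (U : Type) (_ : Semigroup U), Finite U ∧ Nat.card U ≤ rb c (Nat.card T) (Nat.card T + 1) ^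
        (2 ^ ((2 ^ Nat.card T) ^ Nat.card T * 2 ^ Nat.card T)) ∧
        opS (opP 0 (Phi b V)) U ∧ ∃ f : U →ₙ* T, Surjective f := by
  obtain ⟨c, hc⟩ := exists_red (b := b) hV
  refine ⟨c, ?_⟩
  rintro T _ _ hT ⟨U, _, ⟨W, _, hW, g, hg⟩, f, hf⟩
  have : Inhabited T := ⟨Classical.arbitrary T⟩
  obtain ⟨n, M, hM, -, ⟨e⟩⟩ := exists_of_P_phi hW
  let j : U →ₙ* ∀ i, (M i).S := (e : W →ₙ* ∀ i, (M i).S).comp g
  have hj : Injective j := e.injective.comp hg
  let a : ∀ i, T → (M i).S := fun i x => j (surjInv hf x) i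
  have hinv : ∀ w w', (∀ i, val (a i) w = val (a i) w') → val id w = val id w' := by
    intro w w' h
    have h1 : j (val (surjInv hf) w) = j (val (surjInv hf) w') := by
      rw [map_val, map_val]
      funext i
      rw [val_apply, val_apply]
      exact h i
    have := congrArg f (hj h1)
    simpa only [map_val, surjInv_eq, Function.id_def] using this
  let D : Set (ZT T) → RM := fun s => RM.smash fun i : {i // zt (a i) ∈ s} => M i.1
  let d : ∀ s, T → (D s).S := fun s x =>
    RM.smashHom (fun i : {i // zt (a i) ∈ s} => M i.1) fun i => a i.1 x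
  have hd : ∀ s w, val (d s) w =
      RM.smashHom (fun i : {i // zt (a i) ∈ s} => M i.1) fun i => val (a i.1) w :=
    fun s w => val_smash _ w
  choose D' d' hD' hcard hred using fun s =>
    hc (RM.smash_good hV fun i : {i // zt (a i) ∈ s} => hM i.1) (d s) (Nat.card T + 1)
  have := fun s => (hD' s).finite hV
  have hne : ∀ w, w ≠ [] → val (d' {j | NZ j w}) w ≠ 0 := fun w hw => by
    rw [Ne, (hred _).zero w hw, hd]
    exact RM.smashHom_ne_zero.2 fun i => (val_ne_zero_iff _ hw).2 i.2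
  have hsub : ∀ w w', w ≠ [] → w' ≠ [] → (∀ s, val (d' s) w = val (d' s) w') →
      ∀ i, val (a i) w' = 0 → val (a i) w = 0 := by
    intro w w' hw hw' h i hi
    by_contra h0
    have h1 := hne w hw
    rw [h, Ne, (hred _).zero w' hw', hd] at h1
    exact RM.smashHom_ne_zero.1 h1 ⟨i, (val_ne_zero_iff _ hw).1 h0⟩ hi
  let a' : T → ∀ s, (D' s).S := fun x s => d' s x
  obtain ⟨ψ, hψ⟩ := exists_hom_gen a' id fun w w' hw hw' h => by
    have h1 : ∀ s, val (d' s) w = val (d' s) w' := fun s => by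
      simpa only [val_apply] using congrFun h s
    refine (hred {j | NZ j w}).main T (val id) (fun v => ∀ i, val (a i) w = 0 → val (a i) v = 0)
      ⟨fun u v m s hv h i hi => val_sat _ u v m s hv (h i hi), fun v v' _ _ a1 a2 h2 h3 => ?_,
        fin_val id⟩ w w' hw hw' (fun _ h => h) (hsub w' w hw' hw fun s => (h1 s).symm) (h1 _)
        (hne w hw)
    rw [hd, hd] at h2
    rw [hd] at h3
    refine hinv _ _ fun i => ?_
    by_cases h0 : val (a i) w = 0
    · rw [a1 i h0, a2 i h0]
    · exact congrFun (RM.smashHom_inj h2 h3) ⟨i, (val_ne_zero_iff _ hw).1 h0⟩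
  have hψs : Surjective ψ := fun t => ⟨_, hψ t⟩
  refine ⟨Gen a', inferInstance, inferInstance, (card_gen_le a').trans
    (card_pi_le hcard (one_le_rb _ _ _) (by rw [← card_ZT]; exact (card_set' _).le)),
    eSPS.1 _ hψs.nontrivial ⟨∀ s, (D' s).S, inferInstance,
      opP_of_finite _ (fun s => (hD' s).mem_S (MulHom.id _) injective_id) (MulEquiv.refl _)
        (by omega), MulMemClass.subtype _, Subtype.val_injective⟩, ψ, hψs⟩

theorem bound_SP {K : Cls} (hK : Le (opS K) K) (T : Type) [Semigroup T] [Finite T]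
    (hT : Nontrivial T) (h : opS (opP 0 K) T) :
    ∃ (U : Type) (_ : Semigroup U), Finite U ∧ Nat.card U ≤ Nat.card T ^ (Nat.card T * Nat.card T) ∧
      opP 0 K U ∧ ∃ f : T →ₙ* U, Injective f := by
  obtain ⟨W, _, ⟨n, A, _, -, hA, ⟨e⟩⟩, f, hf⟩ := h
  have h1 : ∀ p : {p : T × T // p.1 ≠ p.2}, ∃ i, e (f p.1.1) i ≠ e (f p.1.2) i := fun p => by
    by_contra hne
    push Not at hne
    exact p.2 (hf (e.injective (funext hne)))
  choose i hi using h1
  let φ : ∀ p, T →ₙ* A (i p) := fun p =>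
    ((Pi.evalMulHom A (i p)).comp (e : W →ₙ* ∀ i, A i)).comp f
  have hfin : ∀ p, Finite (φ p).srange := fun p =>
    Finite.of_surjective _ (φ p).srangeRestrict_surjective
  have hne : ∀ p, (φ p).srangeRestrict p.1.1 ≠ (φ p).srangeRestrict p.1.2 := fun p h =>
    hi p (congrArg Subtype.val h)
  refine ⟨∀ p, (φ p).srange, inferInstance, inferInstance, card_pi_le
    (fun p => Nat.card_le_card_of_surjective _ (φ p).srangeRestrict_surjective) Nat.card_pos
    ((Nat.card_le_card_of_injective _ Subtype.val_injective).trans (Nat.card_prod _ _).le),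
    opP_of_finite _ (fun p => hK _ ⟨_, _, hne p⟩ ⟨_, inferInstance, hA (i p),
      MulMemClass.subtype _, Subtype.val_injective⟩) (MulEquiv.refl _) (by omega),
    MulHom.pi fun p => (φ p).srangeRestrict, fun s t hst => ?_⟩
  by_contra h
  exact hne ⟨(s, t), h⟩ (congrFun hst _)

end Pool.Agent.P.MP_152bd8_lc
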