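import Pool.Agent.P.MP_152bd8_lc.LemC

set_option autoImplicit false
set_option linter.dupNamespace false

namespace Pool.Agent.P.MP_152bd8_lc

open Function

abbrev WX (X : Type) := Option (X ⊕ X)

/-- Shapes of Rees matrix semigroups with marked letters. -/
abbrev TY (X : Type) :=
  (WX X → WX X → Prop) × (WX X → WX X → Prop) × (WX X → WX X → Prop) × (X → Prop)

section
variable {X : Type}

def TY.rel (τ : TY X) (l : Quot τ.2.1) (i : Quot τ.1) : Prop := τ.2.2.1 l.out i.out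

def TY.Valid (b : Prop) (τ : TY X) : Prop := RegR τ.rel ∧ MonoR b τ.rel

open Classical in
noncomputable def SR (τ : TY X) (G : Type) [Group G] (p : WX X → WX X → G) : RM :=
  ⟨G, Quot τ.1, Quot τ.2.1, fun l i => if τ.rel l i then some (p l.out i.out) else none⟩

open Classical in
noncomputable def sa (τ : TY X) {G : Type} [Group G] (p : WX X → WX X → G) (g : X → G) (x : X) :
    (SR τ G p).S :=
  if τ.2.2.2 x then 0 else Rees.mk (P := (SR τ G p).P) (Quot.mk _ (some (Sum.inl x))) (g x)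
    (Quot.mk _ (some (Sum.inl x)))

theorem SR_supp (τ : TY X) (G : Type) [Group G] (p : WX X → WX X → G) (l : Quot τ.2.1)
    (i : Quot τ.1) : (SR τ G p).supp l i ↔ τ.rel l i := by
  simp [RM.supp, SR]

theorem SR_supp' (τ : TY X) (G : Type) [Group G] (p : WX X → WX X → G) :
    (SR τ G p).supp = τ.rel := funext fun l => funext fun i => propext (SR_supp τ G p l i)

theorem SR_phi {b : Prop} {V : GCls} [Finite X] {τ : TY X} (h : τ.Valid b) {G : Type} [Group G]
    (hG : V G) (p : WX X → WX X → G) : (SR τ G p).Good b V ∧ (SR τ G p).Reg :=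
  ⟨⟨hG, (inferInstance : Finite (Quot τ.1)), (inferInstance : Finite (Quot τ.2.1)),
    by rw [SR_supp']; exact h.2⟩, by rw [RM.Reg, SR_supp']; exact h.1⟩

noncomputable def SRmap (τ : TY X) {G G' : Type} [Group G] [Group G'] (π : G →* G')
    {p : WX X → WX X → G} {p' : WX X → WX X → G'} (h : ∀ v w, π (p v w) = p' v w) :
    (SR τ G p).S →ₙ* (SR τ G' p').S :=
  Rees.map0 (P := (SR τ G p).P) (P' := (SR τ G' p').P) id id π fun l i => by
    by_cases h1 : τ.rel l i
    · simp only [SR, h1, id, if_true, Option.map_some]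
      exact congrArg some (h _ _).symm
    · simp [SR, h1]

theorem SRmap_mk (τ : TY X) {G G' : Type} [Group G] [Group G'] (π : G →* G')
    {p : WX X → WX X → G} {p' : WX X → WX X → G'} (h : ∀ v w, π (p v w) = p' v w)
    (i : Quot τ.1) (g : G) (l : Quot τ.2.1) :
    SRmap τ π h (Rees.mk (P := (SR τ G p).P) i g l) = Rees.mk (P := (SR τ G' p').P) i (π g) l :=
  Rees.map0_mk _ _ _ _ _ _ _

theorem SRmap_sa (τ : TY X) {G G' : Type} [Group G] [Group G'] (π : G →* G')
    {p : WX X → WX X → G} {p' : WX X → WX X → G'} (h : ∀ v w, π (p v w) = p' v w) (g : X → G)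
    (x : X) : SRmap τ π h (sa τ p g x) = sa τ p' (fun x => π (g x)) x := by
  by_cases h1 : τ.2.2.2 x
  · simp only [sa, h1, if_true]; rfl
  · simp only [sa, h1, if_false]; exact SRmap_mk _ _ _ _ _ _

theorem quot_lift_inj {W I : Type} (f : W → I) :
    Injective (Quot.lift (r := fun v w => f v = f w) f fun _ _ h => h) := by
  rintro ⟨v⟩ ⟨w⟩ h
  exact Quot.sound h

theorem quot_lift_out {W I : Type} (f : W → I) (q : Quot fun v w => f v = f w) :
    Quot.lift (r := fun v w => f v = f w) f (fun _ _ h => h) q = f q.out := by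
  conv_lhs => rw [← q.out_eq]

theorem exists_std {b : Prop} {V : GCls} {M : RM} (hM : M.Good b V) (hr : M.Reg) (a : X → M.S) :
    ∃ (τ : TY X) (p : WX X → WX X → M.G) (g : X → M.G) (χ : (SR τ M.G p).S →ₙ* M.S),
      τ.Valid b ∧ ∀ x, χ (sa τ p g x) = a x := by
  obtain ⟨l0, i0, p0, hp0⟩ := hr.base
  have h1 : ∀ x, ∃ i g l, a x = 0 ∨ a x = Rees.mk i g l := fun x => by
    rcases Rees.zero_or (a x) with h | ⟨i, g, l, h⟩
    · exact ⟨i0, 1, l0, Or.inl h⟩
    · exact ⟨i, g, l, Or.inr h⟩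
  choose ix g lx hx using h1
  choose cp hcp using hr.2.1
  choose rp hrp using hr.2.2
  let fI : WX X → M.I := fun w => w.elim i0 (Sum.elim ix fun x => rp (lx x))
  let fL : WX X → M.L := fun w => w.elim l0 (Sum.elim lx fun x => cp (ix x))
  let τ : TY X := (fun v w => fI v = fI w, fun v w => fL v = fL w,
    fun v w => M.supp (fL v) (fI w), fun x => a x = 0)
  have hI : ∀ w, fI (Quot.mk τ.1 w).out = fI w := fun w => (quot_lift_out fI _).symm
  have hL : ∀ w, fL (Quot.mk τ.2.1 w).out = fL w := fun w => (quot_lift_out fL _).symm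
  have hs0 : M.supp l0 i0 := by simp [RM.supp, hp0]
  refine ⟨τ, fun v w => (M.P (fL v) (fI w)).getD 1, g,
    Rees.map0 (P := (SR τ M.G fun v w => (M.P (fL v) (fI w)).getD 1).P)
      (Quot.lift fI fun _ _ h => h) (Quot.lift fL fun _ _ h => h) (MonoidHom.id M.G)
      fun l i => ?_, ⟨⟨⟨Quot.mk _ none⟩, ?_, ?_⟩, ?_⟩, fun x => ?_⟩
  · refine Eq.trans ?_ (map_id_hom _)
    rw [quot_lift_out, quot_lift_out]
    by_cases h : τ.rel l i
    · obtain ⟨q, hq⟩ := Option.ne_none_iff_exists'.1 h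
      simp only [SR, h, if_true]
      exact hq.trans (congrArg some (by rw [hq]; rfl))
    · simp only [SR, h, if_false]
      exact not_not.1 h
  · rintro ⟨w⟩
    have : ∃ v, M.supp (fL v) (fI w) := by
      rcases w with _ | x | x
      · exact ⟨none, hs0⟩
      · exact ⟨some (Sum.inr x), hcp _⟩
      · exact ⟨some (Sum.inl x), hrp _⟩
    obtain ⟨v, hv⟩ := this
    exact ⟨Quot.mk _ v, by rw [← hI, ← hL] at hv; exact hv⟩
  · rintro ⟨v⟩
    have : ∃ w, M.supp (fL v) (fI w) := by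
      rcases v with _ | x | x
      · exact ⟨none, hs0⟩
      · exact ⟨some (Sum.inr x), hrp _⟩
      · exact ⟨some (Sum.inl x), hcp _⟩
    obtain ⟨w, hw⟩ := this
    exact ⟨Quot.mk _ w, by rw [← hI, ← hL] at hw; exact hw⟩
  · refine hM.mono.comap (quot_lift_inj fI) (quot_lift_inj fL) fun l i h => ?_
    rw [quot_lift_out, quot_lift_out]
    exact h
  · by_cases h : a x = 0
    · have h' : τ.2.2.2 x := h
      simp only [sa, h', if_true]
      exact h.symm
    · have h' : ¬ τ.2.2.2 x := h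
      simp only [sa, h', if_false]
      exact (Rees.map0_mk _ _ _ _ _ _ _).trans ((hx x).resolve_left h).symm

theorem card_WX [Finite X] : Nat.card (WX X) = 2 * Nat.card X + 1 := by
  rw [Finite.card_option, Nat.card_sum]; omega

theorem card_TY [Finite X] : Nat.card (TY X) =
    (2 ^ (2 * Nat.card X + 1)) ^ (2 * Nat.card X + 1) *
    ((2 ^ (2 * Nat.card X + 1)) ^ (2 * Nat.card X + 1) *
    ((2 ^ (2 * Nat.card X + 1)) ^ (2 * Nat.card X + 1) * 2 ^ Nat.card X)) := by
  simp only [Nat.card_prod, Nat.card_fun, card_WX]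
  simp

end

theorem resp_step {J : Type} [DecidableEq J] {A : J → RM} (hA : ∀ k, (A k).Reg) {T : Type}
    [Semigroup T] [Finite T] (φ : (∀ k, (A k).S) →ₙ* T) (σ : J) {H' : Type} [Group H']
    (π : (A σ).G →* H') (hπ : Resp π (Nat.card T)) (y : ∀ k, (A k).S) (i : (A σ).I) (l : (A σ).L)
    {x x' : (A σ).G} (hs : π x = π x') :
    φ (update y σ (Rees.mk i x l)) = φ (update y σ (Rees.mk i x' l)) := by
  choose y' hy' using fun k => (hA k).regular (y k)
  have hy : y = y * y' * y := (funext hy').symm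
  obtain ⟨l0, i0, p0, hp0⟩ := (hA σ).base
  refine hπ T T le_rfl (fun x => φ (update (y * y') σ (Rees.mk i (x * p0⁻¹) l0)))
    (fun x => φ (update y σ (Rees.mk i x l))) (fun x1 x2 h k => ?_) x x' hs
  have key : ∀ x, φ (update y σ (Rees.mk i (x * k) l)) =
      φ (update (y * y') σ (Rees.mk i (x * p0⁻¹) l0)) * φ (update y σ (Rees.mk i0 k l)) := by
    intro x
    rw [← map_mul, ← update_mul, ← hy, Rees.mk_mul_some hp0]
    simp
  exact (key x1).trans (by rw [h]; exact (key x2).symm)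

def bB (n : ℕ) : ℕ :=
  ((2 * n + 1) * (gb n ((2 * n + 1) * (2 * n + 1) + n) * (2 * n + 1)) + 1) ^
    ((2 ^ (2 * n + 1)) ^ (2 * n + 1) * ((2 ^ (2 * n + 1)) ^ (2 * n + 1) *
      ((2 ^ (2 * n + 1)) ^ (2 * n + 1) * 2 ^ n)))

theorem bound_HP {b : Prop} {V : GCls} (hV : IsPseudovariety V)
    (T : Type) [Semigroup T] [Finite T] (h : opH (opP 0 (Phi b V)) T) :
    ∃ (U : Type) (_ : Semigroup U), Finite U ∧ Nat.card U ≤ bB (Nat.card T) ∧
      opP 0 (Phi b V) U ∧ ∃ f : U →ₙ* T, Surjective f := by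
  classical
  obtain ⟨U, _, hU, f, hf⟩ := h
  obtain ⟨n, M, hM, hr, ⟨e⟩⟩ := exists_of_P_phi hU
  let φ0 : (∀ i, (M i).S) →ₙ* T := f.comp (e.symm : (∀ i, (M i).S) →ₙ* U)
  have hφ0 : Surjective φ0 := hf.comp e.symm.surjective
  clear_value φ0
  choose τ p g χ hτ hχ using fun i => exists_std (hM i) (hr i) fun x => surjInv hφ0 x i
  let G : TY T → Type := fun σ => ∀ i : {i // τ i = σ}, (M i.1).G
  let pG : ∀ σ, WX T → WX T → G σ := fun σ v w i => p i.1 v w
  let gG : ∀ σ, T → G σ := fun σ x i => g i.1 x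
  let ge : ∀ σ, WX T × WX T ⊕ T → G σ := fun σ => Sum.elim (fun v => pG σ v.1 v.2) (gG σ)
  let H : ∀ σ, Subgroup (G σ) := fun σ => Subgroup.closure (Set.range (ge σ))
  let ge' : ∀ σ, WX T × WX T ⊕ T → H σ := fun σ x => ⟨ge σ x, Subgroup.subset_closure ⟨x, rfl⟩⟩
  have hge : ∀ σ, Subgroup.closure (Set.range (ge' σ)) = ⊤ := fun σ => by
    rw [← Subgroup.closure_closure_coe_preimage (k := Set.range (ge σ))]
    congr 1
    ext x
    simp only [Set.mem_range, Set.mem_preimage, ge', Subtype.ext_iff]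
  have hH : ∀ σ, V (H σ) := fun σ => hV.subgroup _ (hV.pi _ fun i => (hM i.1).mem)
  let pH : ∀ σ, WX T → WX T → H σ := fun σ v w => ge' σ (Sum.inl (v, w))
  let gH : ∀ σ, T → H σ := fun σ x => ge' σ (Sum.inr x)
  let J := {σ : TY T // σ.Valid b}
  let A : J → RM := fun σ => SR σ.1 (H σ.1) (pH σ.1)
  let μ : ∀ i, (A ⟨τ i, hτ i⟩).S →ₙ* (M i).S := fun i => (χ i).comp (SRmap (τ i)
    ((Pi.evalMonoidHom (fun k : {k // τ k = τ i} => (M k.1).G) ⟨i, rfl⟩).comp (H (τ i)).subtype)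
    (p := pH (τ i)) (p' := p i) fun _ _ => rfl)
  let φ : (∀ σ, (A σ).S) →ₙ* T := φ0.comp
    (MulHom.pi fun i => (μ i).comp (Pi.evalMulHom (fun σ => (A σ).S) ⟨τ i, hτ i⟩))
  have hφ : ∀ x, φ (fun σ => sa σ.1 (pH σ.1) (gH σ.1) x) = x := fun x => by
    refine Eq.trans (congrArg φ0 ?_) (surjInv_eq hφ0 x)
    funext i
    exact (congrArg (χ i) (SRmap_sa _ _ _ _ _)).trans (hχ i x)
  clear_value φ
  choose H' iH π hπ1 hπ2 hπ3 hπ4 using fun σ => exists_reduction (ge' σ) (hge σ) (Nat.card T)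
    ((2 * Nat.card T + 1) * (2 * Nat.card T + 1) + Nat.card T)
    (by rw [Nat.card_sum, Nat.card_prod, card_WX])
  let A' : J → RM := fun σ => SR σ.1 (H' σ.1) fun v w => π σ.1 (pH σ.1 v w)
  let ψ : ∀ σ, (A σ).S →ₙ* (A' σ).S := fun σ => SRmap σ.1 (π σ.1) fun _ _ => rfl
  have hψmk : ∀ σ i x l, ψ σ (Rees.mk (P := (A σ).P) i x l) =
      Rees.mk (P := (A' σ).P) i (π σ.1 x) l := fun σ i x l => SRmap_mk _ _ _ _ _ _
  have hA : ∀ σ : J, (A σ).Good b V ∧ (A σ).Reg := fun σ => SR_phi σ.2 (hH σ.1) _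
  have hA' : ∀ σ : J, (A' σ).Good b V ∧ (A' σ).Reg := fun σ =>
    SR_phi σ.2 (hV.quot _ _ (π σ.1) (hπ1 _) (hH σ.1)) _
  let Ψ : (∀ σ, (A σ).S) →ₙ* (∀ σ, (A' σ).S) :=
    ⟨fun x σ => ψ σ (x σ), fun x y => funext fun σ => map_mul _ _ _⟩
  have hΨ : Surjective Ψ := Surjective.piMap (f := fun σ => ψ σ) fun σ =>
    Rees.map0_surjective surjective_id surjective_id (hπ1 σ.1)
  obtain ⟨φ', hφ'⟩ := exists_lift_surj Ψ hΨ φ fun x y hxy => by
    refine pi_induct φ (fun _ _ => True) (fun σ s t => ψ σ s = ψ σ t) ?_ x y (fun _ => trivial)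
      (fun _ => trivial) (congrFun hxy)
    intro y σ s _ _ hs
    conv_lhs => rw [← update_eq_self σ y]
    generalize y σ = t at hs
    rcases Rees.zero_or t with rfl | ⟨i, x, l, rfl⟩ <;>
      rcases Rees.zero_or s with rfl | ⟨i', x', l', rfl⟩
    · rfl
    · rw [hψmk] at hs; exact absurd hs (Rees.zero_ne_mk _ _ _)
    · rw [hψmk] at hs; exact absurd hs (Rees.mk_ne_zero _ _ _)
    rw [hψmk, hψmk, Rees.mk_inj] at hs
    obtain ⟨rfl, hs, rfl⟩ := hs
    exact resp_step (fun k => (hA k).2) φ σ (π σ.1) (hπ4 σ.1) y i l hs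
  have hfin := fun σ => (hA' σ).1.finite hV
  refine ⟨∀ σ, (A' σ).S, inferInstance, inferInstance, card_pi_le (fun σ => ?_)
    (Nat.le_add_left _ _)
    ((Nat.card_le_card_of_injective _ Subtype.val_injective).trans card_TY.le),
    opP_of_finite _ (fun σ => (hA' σ).1.phi (hA' σ).2) (MulEquiv.refl _) (by omega), φ',
    fun t => ⟨_, (hφ' _).trans (hφ t)⟩⟩
  have := hπ2 σ.1
  have h1 : ∀ r : WX T → WX T → Prop, Nat.card (Quot r) ≤ 2 * Nat.card T + 1 := fun r =>
    (Nat.card_le_card_of_surjective _ Quot.mk_surjective).trans card_WX.le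
  have := (hA' σ).1.finI
  have := (hA' σ).1.finL
  have : Finite (A' σ).G := hπ2 σ.1
  rw [Rees.card]
  exact Nat.succ_le_succ (Nat.mul_le_mul (h1 _) (Nat.mul_le_mul (hπ3 _) (h1 _)))

end Pool.Agent.P.MP_152bd8_lc
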