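import Pool.Agent.P.MP_152bd8_lc.LemAE

set_option autoImplicit false
set_option linter.dupNamespace false

namespace Pool.Agent.P.MP_152bd8_lc

open Function

theorem pi_induct {J : Type} [Finite J] [DecidableEq J] {A : J → Type} {T : Type}
    (f : (∀ j, A j) → T) (good : ∀ j, A j → Prop) (r : ∀ j, A j → A j → Prop)
    (h : ∀ y j a, (∀ i, good i (y i)) → good j a → r j (y j) a → f y = f (update y j a))
    (x y : ∀ j, A j) (hx : ∀ i, good i (x i)) (hy : ∀ i, good i (y i))
    (hr : ∀ i, r i (x i) (y i)) : f x = f y := by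
  have := Fintype.ofFinite J
  have key : ∀ s : Finset J, f x = f (s.piecewise y x) := by
    intro s
    induction s using Finset.induction_on with
    | empty => simp
    | insert j s hj ih =>
      rw [Finset.piecewise_insert, ih]
      refine h _ j _ (fun i => ?_) (hy j) ?_
      · by_cases hi : i ∈ s <;> simp [hi, hx, hy]
      · simpa [hj] using hr j
  simpa using key Finset.univ

def optFam (A : Type) {J : Type} (B : J → Type) : Option J → Type
  | none => A
  | some j => B j

theorem opP_prod {K : Cls} {A J : Type} [Finite J] {B : J → Type} [iA : Semigroup A]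
    [iB : ∀ j, Semigroup (B j)] (hA : K A) (hB : ∀ j, K (B j)) : opP 0 K (A × ∀ j, B j) := by
  let inst : ∀ o, Semigroup (optFam A B o) := fun o => match o with
    | none => iA
    | some j => iB j
  refine opP_of_finite (optFam A B) (fun o => ?_)
    { (Equiv.piOptionEquivProd (β := optFam A B)).symm with map_mul' := fun x y => ?_ } (by omega)
  · cases o with
    | none => exact hA
    | some j => exact hB j
  · funext o
    cases o <;> rfl

/-- The null semigroup on `X`. -/
def nullRM (X : Type) : RM := ⟨Unit, X, X, fun _ _ => none⟩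

def nu {X : Type} (x : X) : (nullRM X).S := Rees.mk (P := (nullRM X).P) x () x

theorem nu_ne_zero {X : Type} (x : X) : nu x ≠ 0 := Rees.mk_ne_zero _ _ _

theorem nu_injective {X : Type} : Injective (nu : X → _) := fun _ _ h => (Rees.mk_inj.1 h).1

theorem null_mul {X : Type} (x y : (nullRM X).S) : x * y = 0 := by
  rcases Rees.zero_or x with rfl | ⟨i, g, l, rfl⟩
  · simp
  rcases Rees.zero_or y with rfl | ⟨i', g', l', rfl⟩
  · simp
  exact Rees.mk_mul_none rfl

theorem null_good {b : Prop} {V : GCls} (hV : IsPseudovariety V) (X : Type) [Finite X] :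
    (nullRM X).Good b V :=
  ⟨hV.triv, ‹_›, ‹_›, fun _ => ⟨fun _ _ _ h => absurd rfl h, fun _ _ _ h => absurd rfl h⟩⟩

theorem card_null (X : Type) [Finite X] :
    Nat.card (nullRM X).S = Nat.card X * Nat.card X + 1 := by
  change Nat.card (Rees (fun _ _ => none : X → X → Option Unit)) = _
  simp [Rees.card]

theorem exists_merge {b : Prop} {V : GCls} (hV : IsPseudovariety V) {X ι : Type} [Inhabited X]
    [Finite ι] {B : ι → Type} [∀ i, Semigroup (B i)] (hB : ∀ i, opS (Phi b V) (B i))
    (lift : X → ∀ i, B i) : ∃ (D : ZT X → RM) (d : ∀ j, X → (D j).S)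
      (μ : (∀ j, Gen (d j)) →ₙ* ∀ i, B i), (∀ j, (D j).Good b V) ∧
        ∀ x, μ (fun j => gen (d j) x) = lift x := by
  choose M j hM hj using fun i => exists_of_S_phi (hB i)
  let a : ∀ i, X → (M i).S := fun i x => j i (lift x i)
  let D : ZT X → RM := fun s => RM.smash fun i : {i // zt (a i) = s} => M i.1
  let d : ∀ s, X → (D s).S := fun s x =>
    RM.smashHom (fun i : {i // zt (a i) = s} => M i.1) fun i => a i.1 x
  have hd : ∀ s w, val (d s) w =
      RM.smashHom (fun i : {i // zt (a i) = s} => M i.1) fun i => val (a i.1) w :=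
    fun s w => val_smash _ w
  have h0 : ∀ i w, w ≠ [] → val (d (zt (a i))) w = 0 → val (a i) w = 0 := by
    intro i w hw h
    by_contra h1
    rw [hd] at h
    refine RM.smashHom_ne_zero.2 (fun k => (val_ne_zero_iff _ hw).2 ?_) h
    rw [k.2]
    exact (val_ne_zero_iff _ hw).1 h1
  choose μ hμ using fun i => exists_hom_gen (d (zt (a i))) (fun x => lift x i)
    fun w w' hw hw' h => hj i (by
      rw [map_val, map_val]
      by_cases h1 : val (d (zt (a i))) w = 0
      · exact (h0 i w hw h1).trans (h0 i w' hw' (h ▸ h1)).symm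
      · rw [hd, hd] at h
        rw [hd] at h1
        exact congrFun (RM.smashHom_inj h h1) ⟨i, rfl⟩)
  exact ⟨D, d, MulHom.pi fun i => (μ i).comp (Pi.evalMulHom (fun j => Gen (d j)) (zt (a i))),
    fun s => RM.smash_good hV fun i => hM i.1, fun x => funext fun i => hμ i x⟩

theorem exists_merge' {b : Prop} {V : GCls} (hV : IsPseudovariety V) {X Q : Type} [Inhabited X]
    [Semigroup Q] (h : opH (opP 0 (opS (Phi b V))) Q) (ι : X → Q) :
    ∃ (D : ZT X → RM) (d : ∀ j, X → (D j).S) (φ : (∀ j, Gen (d j)) →ₙ* Q),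
      (∀ j, (D j).Good b V) ∧ ∀ x, φ (fun j => gen (d j) x) = ι x := by
  obtain ⟨U, _, ⟨n, B, _, -, hB, ⟨e⟩⟩, f, hf⟩ := h
  obtain ⟨D, d, μ, hD, hμ⟩ := exists_merge hV hB fun x => e (surjInv hf (ι x))
  refine ⟨D, d, (f.comp (e.symm : (∀ i, B i) →ₙ* U)).comp μ, hD, fun x => ?_⟩
  simp [hμ, surjInv_eq]

theorem bound_HPS {b : Prop} {V : GCls} (hV : IsPseudovariety V) : ∃ c : ℕ,
    ∀ (T : Type) [Semigroup T] [Finite T], Nontrivial T → opH (opP 0 (opS (Phi b V))) T →
      ∃ (U : Type) (_ : Semigroup U), Finite U ∧ Nat.card U ≤ (Nat.card T * Nat.card T + 1) *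
        rb c (Nat.card T) ((Nat.card T + 1) * Nat.card T) ^
          ((2 ^ Nat.card T) ^ Nat.card T * 2 ^ Nat.card T) ∧
        opP 0 (opS (Phi b V)) U ∧ ∃ f : U →ₙ* T, Surjective f := by
  classical
  obtain ⟨c, hc⟩ := exists_red (b := b) hV
  refine ⟨c, ?_⟩
  intro T _ _ hT h
  have : Inhabited T := ⟨Classical.arbitrary T⟩
  obtain ⟨D, d, φ, hD, hφ⟩ := exists_merge' hV h id
  choose D' d' hD' hcard hred using fun j => hc (hD j) (d j) ((Nat.card T + 1) * Nat.card T)
  have := fun s => (hD' s).finite hV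
  have hnull := (null_good (b := b) hV T).finite hV
  have hinv : ∀ u v : ZT T → List T, (∀ j, 2 ≤ (u j).length) → (∀ j, 2 ≤ (v j).length) →
      (∀ j, val (d' j) (u j) = val (d' j) (v j)) →
      φ (fun j => val (gen (d j)) (u j)) = φ (fun j => val (gen (d j)) (v j)) := by
    refine pi_induct (A := fun _ => List T) (fun u => φ fun j => val (gen (d j)) (u j))
      (fun _ w => 2 ≤ w.length) (fun j w w' => val (d' j) w = val (d' j) w') ?_
    intro y j w' hy hw' hr
    have hne : ∀ w : List T, 2 ≤ w.length → w ≠ [] := fun w h h0 => by simp [h0] at h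
    have hdec : ∀ i, ∃ p q, val (gen (d i)) (y i) = p * q := fun i => by
      have := hy i
      rcases h : y i with _ | ⟨x, _ | ⟨x', l⟩⟩
      · simp [h] at this
      · simp [h] at this
      · exact ⟨_, _, rfl⟩
    choose Y1 Y2 hY using hdec
    let F : List T → T := fun w => φ (update (Y1 * Y2) j (val (gen (d j)) w))
    have e1 : φ (fun i => val (gen (d i)) (y i)) = F (y j) := by
      simp only [F]
      congr 1
      funext i
      by_cases hi : i = j
      · subst hi; simp
      · simp [hi, hY]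
    have e2 : φ (fun i => val (gen (d i)) (update y j w' i)) = F w' := by
      simp only [F]
      congr 1
      funext i
      by_cases hi : i = j
      · subst hi; simp
      · simp [hi, hY]
    change φ (fun i => val (gen (d i)) (y i)) = φ (fun i => val (gen (d i)) (update y j w' i))
    rw [e1, e2]
    have hlb : ∀ w w', val (d j) w = val (d j) w' → F w = F w' := fun w w' h => by
      simp only [F, val_gen_eq_iff.2 h]
    by_cases h0 : val (d' j) (y j) = 0
    · exact hlb _ _ ((((hred j).zero _ (hne _ (hy j))).1 h0).trans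
        (((hred j).zero _ (hne _ hw')).1 (hr ▸ h0)).symm)
    refine (hred j).main T F (fun _ => True) ⟨fun _ _ _ _ _ _ => trivial,
      fun w w' _ _ _ _ h _ => hlb w w' h, fun u => ⟨Option T × T, inferInstance,
        fun l => (if u ++ l = [] then none else some (φ (update Y1 j (val (gen (d j)) (u ++ l)))),
          F (u ++ l)), by rw [Nat.card_prod, Finite.card_option], fun l l' s _ _ h => ?_⟩⟩
      _ _ (hne _ (hy j)) (hne _ hw') trivial trivial hr h0
    obtain ⟨h1, h2⟩ := Prod.ext_iff.1 h
    by_cases hs : s = []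
    · simpa [hs] using h2
    by_cases hl : u ++ l = [] <;> by_cases hl' : u ++ l' = []
    · rw [hl, hl']
    · simp [hl, hl'] at h1
    · simp [hl, hl'] at h1
    · simp only [hl, hl', if_false, Option.some.injEq] at h1
      simp only [F, val_append _ hl hs, val_append _ hl' hs, update_mul, map_mul, h1]
  let lt : T → (nullRM T).S × ∀ j, Gen (d' j) := fun t => (nu t, fun j => gen (d' j) t)
  have hw : ∀ (x : (nullRM T).S × ∀ j, Gen (d' j)) j, ∃ w, w ≠ [] ∧ val (gen (d' j)) w = x.2 j ∧
      (∀ t, x = lt t → w = [t]) ∧ (x.1 = 0 → (∃ w2 : List T, 2 ≤ w2.length ∧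
        val (gen (d' j)) w2 = x.2 j) → 2 ≤ w.length) := by
    intro x j
    by_cases h1 : ∃ t, x = lt t
    · obtain ⟨t, rfl⟩ := h1
      exact ⟨[t], by simp, rfl, fun s hs => by rw [nu_injective (congrArg Prod.fst hs)],
        fun h0 => absurd h0 (nu_ne_zero t)⟩
    · by_cases h2 : ∃ w2 : List T, 2 ≤ w2.length ∧ val (gen (d' j)) w2 = x.2 j
      · obtain ⟨w, h3, h4⟩ := h2
        exact ⟨w, fun h0 => by simp [h0] at h3, h4, fun t ht => absurd ⟨t, ht⟩ h1, fun _ _ => h3⟩
      · obtain ⟨w, h3, h4⟩ := exists_word (x.2 j)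
        exact ⟨w, h3, h4, fun t ht => absurd ⟨t, ht⟩ h1, fun _ h => absurd h h2⟩
  choose wd w1 w2 w3 w4 using hw
  have hlen : ∀ x y j, 2 ≤ (wd x j ++ wd y j).length := fun x y j => by
    have := List.length_pos_iff.2 (w1 x j)
    have := List.length_pos_iff.2 (w1 y j)
    rw [List.length_append]; omega
  have happ : ∀ x y j, val (gen (d' j)) (wd x j ++ wd y j) = (x * y).2 j := fun x y j => by
    rw [val_append _ (w1 x j) (w1 y j), w2, w2]; rfl
  let φ' : ((nullRM T).S × ∀ j, Gen (d' j)) →ₙ* T :=
    { toFun := fun x => φ fun j => val (gen (d j)) (wd x j)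
      map_mul' := fun x y => by
        rw [hinv (wd (x * y)) (fun j => wd x j ++ wd y j)
          (fun j => w4 _ j (null_mul _ _) ⟨_, hlen x y j, happ x y j⟩) (hlen x y)
          (fun j => val_gen_eq_iff.1 ((w2 _ j).trans (happ x y j).symm)), ← map_mul]
        congr 1
        funext j
        exact val_append _ (w1 x j) (w1 y j) }
  refine ⟨(nullRM T).S × ∀ j, Gen (d' j), inferInstance, inferInstance, ?_,
    opP_prod ((null_good hV T).mem_S (MulHom.id _) injective_id) fun j => gen_mem_S (hD' j) _,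
    φ', fun t => ⟨lt t, ?_⟩⟩
  · rw [Nat.card_prod, card_null]
    exact Nat.mul_le_mul_left _ (card_pi_le (fun j => (card_gen_le _).trans (hcard j))
      (one_le_rb _ _ _) card_ZT.le)
  · change φ (fun j => val (gen (d j)) (wd (lt t) j)) = t
    simp only [w3 _ _ t rfl]
    exact hφ t

end Pool.Agent.P.MP_152bd8_lc
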