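import Pool.Agent.P.MP_152bd8_lc.LemC

set_option autoImplicit false
set_option linter.dupNamespace false

namespace Pool.Agent.P.MP_152bd8_lc

open Function

theorem exists_con_embed {S T : Type} [Semigroup S] [Semigroup T] (f : T → S) (ρ : Con S)
    (ha : ∀ s t b, ρ (f s * f t * b) (f (s * t) * b) ∧ ρ (b * (f s * f t)) (b * f (s * t)))
    (hb : ∀ s t s' t', ρ (f s * f t) (f s' * f t') → s * t = s' * t')
    (hc : ∀ t x, ρ (f t) x → x = f t) (hd : Injective f) (he : ∀ t s s', f t ≠ f s * f s') :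
    ∃ (θ : Con S) (g : T →ₙ* θ.Quotient), Injective g := by
  let Rep : S → T → Prop := fun x z => x = f z ∨ ∃ s t, s * t = z ∧ ρ x (f s * f t)
  have huniq : ∀ x z z', Rep x z → Rep x z' → z = z' := by
    rintro x z z' (rfl | ⟨s, t, rfl, h1⟩) (h2 | ⟨s', t', rfl, h2⟩)
    · exact hd h2
    · exact absurd (hc _ _ h2).symm (he _ _ _)
    · exact absurd (hc _ _ (h2 ▸ h1)).symm (he _ _ _)
    · exact hb _ _ _ _ (ρ.trans (ρ.symm h1) h2)
  have hinv : ∀ x y z, ρ x y → Rep x z → Rep y z := by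
    rintro x y z h (rfl | ⟨s, t, rfl, h1⟩)
    · exact Or.inl (hc _ _ h)
    · exact Or.inr ⟨s, t, rfl, ρ.trans (ρ.symm h) h1⟩
  have hmul : ∀ x z b, Rep x z → ρ (x * b) (f z * b) ∧ ρ (b * x) (b * f z) := by
    rintro x z b (rfl | ⟨s, t, rfl, h1⟩)
    · exact ⟨ρ.refl _, ρ.refl _⟩
    · exact ⟨ρ.trans (ρ.mul h1 (ρ.refl b)) (ha s t b).1, ρ.trans (ρ.mul (ρ.refl b) h1) (ha s t b).2⟩
  have hmul2 : ∀ x y b, (ρ x y ∨ ∃ z, Rep x z ∧ Rep y z) → ρ (x * b) (y * b) ∧ ρ (b * x) (b * y) := by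
    rintro x y b (h | ⟨z, h1, h2⟩)
    · exact ⟨ρ.mul h (ρ.refl b), ρ.mul (ρ.refl b) h⟩
    · exact ⟨ρ.trans (hmul x z b h1).1 (ρ.symm (hmul y z b h2).1),
        ρ.trans (hmul x z b h1).2 (ρ.symm (hmul y z b h2).2)⟩
  let θ : Con S :=
    { r := fun x y => ρ x y ∨ ∃ z, Rep x z ∧ Rep y z
      iseqv := ⟨fun x => Or.inl (ρ.refl x), fun h => h.elim (fun h => Or.inl (ρ.symm h))
        (fun ⟨z, h1, h2⟩ => Or.inr ⟨z, h2, h1⟩), by
          rintro x y w (h1 | ⟨z, h1, h2⟩) (h3 | ⟨z', h3, h4⟩)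
          · exact Or.inl (ρ.trans h1 h3)
          · exact Or.inr ⟨z', hinv _ _ _ (ρ.symm h1) h3, h4⟩
          · exact Or.inr ⟨z, h1, hinv _ _ _ h3 h2⟩
          · exact Or.inr ⟨z, h1, huniq _ _ _ h3 h2 ▸ h4⟩⟩
      mul' := fun h1 h2 => Or.inl (ρ.trans (hmul2 _ _ _ h1).1 (hmul2 _ _ _ h2).2) }
  refine ⟨θ, ⟨fun t => (f t : θ.Quotient), fun s t => ?_⟩, fun s t h => ?_⟩
  · rw [← Con.coe_mul]
    exact (Con.eq _).2 (Or.inr ⟨s * t, Or.inl rfl, Or.inr ⟨s, t, rfl, ρ.refl _⟩⟩)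
  · rcases (Con.eq θ).1 h with h | ⟨z, h1, h2⟩
    · exact (hd (hc _ _ h)).symm
    · exact (huniq _ _ _ (Or.inl rfl) h1).trans (huniq _ _ _ h2 (Or.inl rfl))

theorem exists_synCon {X S : Type} [Inhabited X] [Semigroup S] (a : X → S) (F : List X → Prop)
    (hF : ∀ w w', w ≠ [] → w' ≠ [] → val a w = val a w' → F w → F w') :
    ∃ R : Con (Gen a), ∀ w w', w ≠ [] → w' ≠ [] →
      (R (val (gen a) w) (val (gen a) w') ↔ ∀ u v, F (u ++ w ++ v) ↔ F (u ++ w' ++ v)) := by
  have h0 : ∀ w w', w ≠ [] → w' ≠ [] → val (gen a) w = val (gen a) w' →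
      ∀ u v, F (u ++ w ++ v) ↔ F (u ++ w' ++ v) := by
    intro w w' hw hw' h u v
    have h1 : ev a w = ev a w' := by rw [← coe_val a hw, ← coe_val a hw', val_gen_eq_iff.1 h]
    have h2 : val a (u ++ w ++ v) = val a (u ++ w' ++ v) :=
      val_eq_of_ev (by simp [hw]) (by simp [hw']) (by simp [h1])
    exact ⟨hF _ _ (by simp [hw]) (by simp [hw']) h2, hF _ _ (by simp [hw']) (by simp [hw]) h2.symm⟩
  choose wd h1 h2 using fun s : Gen a => exists_word s
  have h3 : ∀ p q u v, F (u ++ wd (p * q) ++ v) ↔ F (u ++ (wd p ++ wd q) ++ v) := fun p q =>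
    h0 _ _ (h1 _) (by simp [h1]) (by rw [val_append _ (h1 p) (h1 q), h2, h2, h2])
  refine ⟨{ r := fun p q => ∀ u v, F (u ++ wd p ++ v) ↔ F (u ++ wd q ++ v)
            iseqv := ⟨fun _ _ _ => Iff.rfl, fun h u v => (h u v).symm,
              fun h h' u v => (h u v).trans (h' u v)⟩
            mul' := fun {p q p' q'} h h' u v => ?_ }, fun w w' hw hw' => ?_⟩
  · rw [h3, h3]
    have e1 := h u (wd p' ++ v)
    have e2 := h' (u ++ wd q) v
    simp only [List.append_assoc] at e1 e2 ⊢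
    exact e1.trans e2
  · change (∀ u v, F (u ++ wd _ ++ v) ↔ F (u ++ wd _ ++ v)) ↔ _
    simp only [h0 _ _ (h1 _) hw (h2 _), h0 _ _ (h1 _) hw' (h2 _)]

section rs
variable {J : Type} {D : J → RM} {B : ∀ j, Subsemigroup (D j).S}

open Classical in
/-- Replace the coordinates outside `W` by zero when possible. -/
noncomputable def rs (W : Set J) (x : ∀ j, B j) : ∀ j, B j := fun j =>
  if h : j ∉ W ∧ (0 : (D j).S) ∈ B j then ⟨0, h.2⟩ else x j

theorem rs_of_mem {W : Set J} {j : J} (h : j ∈ W) (x : ∀ j, B j) : rs W x j = x j :=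
  dif_neg fun h' => h'.1 h

theorem rs_of_not {W : Set J} {j : J} (h : (0 : (D j).S) ∉ B j) (x : ∀ j, B j) : rs W x j = x j :=
  dif_neg fun h' => h h'.2

theorem rs_zero {W : Set J} {j : J} (h : j ∉ W) (h' : (0 : (D j).S) ∈ B j) (x : ∀ j, B j) :
    (rs W x j : (D j).S) = 0 := by
  rw [rs, dif_pos ⟨h, h'⟩]

theorem rs_mul_left (W : Set J) (x y : ∀ j, B j) : rs W (x * y) = rs W x * y := by
  funext j
  apply Subtype.ext
  by_cases h : j ∈ W
  · simp [rs_of_mem h]
  by_cases h' : (0 : (D j).S) ∈ B j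
  · simp [rs_zero h h']
  · simp [rs_of_not h']

theorem rs_mul_right (W : Set J) (x y : ∀ j, B j) : rs W (x * y) = x * rs W y := by
  funext j
  apply Subtype.ext
  by_cases h : j ∈ W
  · simp [rs_of_mem h]
  by_cases h' : (0 : (D j).S) ∈ B j
  · simp [rs_zero h h']
  · simp [rs_of_not h']

theorem rs_rs (W W' : Set J) (x : ∀ j, B j) : rs W (rs W' x) = rs (W ∩ W') x := by
  funext j
  apply Subtype.ext
  by_cases h' : (0 : (D j).S) ∈ B j
  · by_cases h : j ∈ W
    · by_cases h2 : j ∈ W'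
      · rw [rs_of_mem h, rs_of_mem h2, rs_of_mem (show j ∈ W ∩ W' from ⟨h, h2⟩)]
      · rw [rs_of_mem h, rs_zero h2 h', rs_zero (fun h => h2 h.2) h']
    · rw [rs_zero h h', rs_zero (fun h2 => h h2.1) h']
  · simp [rs_of_not h']

theorem rs_univ (x : ∀ j, B j) : rs Set.univ x = x := funext fun j => rs_of_mem (Set.mem_univ j) x

theorem rs_eq_self {W : Set J} {x : ∀ j, B j} (h : ∀ j, (x j : (D j).S) ≠ 0 → j ∈ W) :
    rs W x = x := by
  funext j
  by_cases h1 : j ∈ W
  · exact rs_of_mem h1 x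
  · have h2 : (x j : (D j).S) = 0 := not_not.1 (mt (h j) h1)
    exact Subtype.ext ((rs_zero h1 (h2 ▸ (x j).2) x).trans h2.symm)

theorem rs_ne_zero {W : Set J} {x : ∀ j, B j} {j : J} (h : (rs W x j : (D j).S) ≠ 0) :
    (x j : (D j).S) ≠ 0 ∧ (j ∈ W ∨ (0 : (D j).S) ∉ B j) := by
  by_cases h1 : j ∈ W
  · exact ⟨rs_of_mem h1 x ▸ h, Or.inl h1⟩
  by_cases h2 : (0 : (D j).S) ∈ B j
  · exact absurd (rs_zero h1 h2 x) h
  · exact ⟨rs_of_not h2 x ▸ h, Or.inr h2⟩

end rs

theorem bound_SHPS {b : Prop} {V : GCls} (hV : IsPseudovariety V) : ∃ c : ℕ,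
    ∀ (T : Type) [Semigroup T] [Finite T], Nontrivial T → opS (opH (opP 0 (opS (Phi b V)))) T →
      ∃ (U : Type) (_ : Semigroup U), Finite U ∧ Nat.card U ≤ (Nat.card T * Nat.card T + 1) *
        rb c (Nat.card T) ((Nat.card T + 1) * 2) ^ (Nat.card T * Nat.card T) ∧
        opH (opP 0 (opS (Phi b V))) U ∧ ∃ f : T →ₙ* U, Injective f := by
  classical
  obtain ⟨c, hc⟩ := exists_red (b := b) hV
  refine ⟨c, ?_⟩
  rintro T _ _ hT ⟨Q, _, hQ, ι, hι⟩
  have : Inhabited T := ⟨Classical.arbitrary T⟩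
  obtain ⟨D, d, φ, hD, hφ⟩ := exists_merge' hV hQ ι
  let g : T → ∀ j, Gen (d j) := fun x j => gen (d j) x
  have hφg : ∀ w, φ (val g w) = ι (val id w) := fun w => by
    rw [map_val, map_val]; simp only [g, hφ, id]
  have hg : ∀ w j, (val g w j : (D j).S) = val (d j) w := fun w j => by
    rw [val_apply, coe_val_gen]
  let E : (∀ j, Gen (d j)) → (∀ j, Gen (d j)) → Prop := fun x y => ∀ W, φ (rs W x) = φ (rs W y)
  have hE : ∀ W x y, E x y → E (rs W x) (rs W y) := fun W x y h W' => by rw [rs_rs, rs_rs, h]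
  have hctx : ∀ u v m m', u ++ v ≠ [] → ev id m = ev id m' →
      E (val g (u ++ m ++ v)) (val g (u ++ m' ++ v)) := by
    intro u v m m' huv hm W
    have hnil : ∀ m m' : List T, ev id m = ev id m' → m = [] → m' = [] := by
      rintro m m' h rfl
      by_contra h0
      rw [← coe_val id h0] at h
      simp at h
    by_cases hv : v = []
    · subst hv
      have hu : u ≠ [] := by simpa using huv
      by_cases h0 : m = []
      · rw [h0, hnil _ _ hm h0]
      have h1 : m' ≠ [] := fun h => h0 (hnil _ _ hm.symm h)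
      simp only [List.append_nil, val_append g hu h0, val_append g hu h1, rs_mul_left, map_mul,
        hφg, val_eq_of_ev h0 h1 hm]
    · have hm' : ev id (u ++ m) = ev id (u ++ m') := by simp [hm]
      by_cases h0 : u ++ m = []
      · rw [h0, hnil _ _ hm' h0]
      have h1 : u ++ m' ≠ [] := fun h => h0 (hnil _ _ hm'.symm h)
      simp only [val_append g h0 hv, val_append g h1 hv, rs_mul_right, map_mul,
        hφg, val_eq_of_ev h0 h1 hm']
  let Y : T × T → Set (ZT T) := fun κ =>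
    {j | ∀ x, E x (val g [κ.1, κ.2]) → (x j : (D j).S) ≠ 0}
  have hY0 : ∀ κ j, j ∉ Y κ → (0 : (D j).S) ∈ Gen (d j) := fun κ j hj => by
    by_contra h
    exact hj fun x _ h0 => h (h0 ▸ (x j).2)
  have hYmin : ∀ κ, E (rs (Y κ) (val g [κ.1, κ.2])) (val g [κ.1, κ.2]) := fun κ => by
    obtain ⟨x0, h0, hmin⟩ := exists_minimalFor_of_wellFoundedLT
      (fun x => E x (val g [κ.1, κ.2])) (fun x => {j | (x j : (D j).S) ≠ 0})
      ⟨_, fun _ => rfl⟩
    have h1 : rs (Y κ) x0 = x0 := rs_eq_self fun j hj x hx => by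
      have h2 : E (rs {j | (x j : (D j).S) ≠ 0} x0) (val g [κ.1, κ.2]) := fun W => by
        rw [hE _ _ _ h0, ← hE _ _ _ hx, rs_eq_self (x := x) (W := {j | (x j : (D j).S) ≠ 0}) fun _ h => h, hx]
      rcases (rs_ne_zero (hmin h2 (fun j hj => (rs_ne_zero hj).1) hj)).2 with h3 | h3
      · exact h3
      · exact fun h4 => h3 (h4 ▸ (x j).2)
    intro W
    rw [← hE _ _ _ h0, h1, h0]
  let Dk : T × T → RM := fun κ => RM.smash fun j : Y κ => D j.1
  let e : ∀ κ, T → (Dk κ).S := fun κ x => RM.smashHom (fun j : Y κ => D j.1) fun j => d j.1 x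
  have he : ∀ κ w, val (e κ) w = RM.smashHom (fun j : Y κ => D j.1) fun j => val (d j.1) w :=
    fun κ w => val_smash _ w
  choose D' e' hD' hcard hred using fun κ =>
    hc (RM.smash_good hV fun j : Y κ => hD j.1) (e κ) ((Nat.card T + 1) * 2)
  have := fun s => (hD' s).finite hV
  have hnull := (null_good (b := b) hV T).finite hV
  let F : T × T → List T → Prop := fun κ w => E (rs (Y κ) (val g w)) (val g [κ.1, κ.2])
  have hFE : ∀ κ w w', E (val g w) (val g w') → (F κ w ↔ F κ w') := fun κ w w' h =>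
    forall_congr' fun W => by rw [hE _ _ _ h]
  have hF : ∀ κ w w', w ≠ [] → w' ≠ [] → val (e' κ) w = val (e' κ) w' → F κ w → F κ w' := by
    intro κ w w' hw hw' h h1
    have h2 : val (e' κ) w ≠ 0 := by
      rw [Ne, (hred κ).zero w hw, he]
      refine RM.smashHom_ne_zero.2 fun j => ?_
      rw [← hg]
      exact (rs_ne_zero (j.2 _ h1)).1
    refine (hred κ).main Prop (F κ) (fun _ => True) ⟨fun _ _ _ _ _ _ => trivial,
      fun v v' _ _ _ _ h3 h4 => ?_, fun u => ⟨WithOne T × Prop,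
        (inferInstance : Finite (Option T × Prop)), fun l => (ev id l, F κ (u ++ l)), ?_,
        fun l l' s _ _ h3 => ?_⟩⟩ w w' hw hw' trivial trivial h h2 ▸ h1
    · rw [he, he] at h3
      rw [he] at h4
      have h5 : rs (Y κ) (val g v) = rs (Y κ) (val g v') := by
        funext j
        apply Subtype.ext
        by_cases hj : j ∈ Y κ
        · rw [rs_of_mem hj, rs_of_mem hj, hg, hg]
          exact congrFun (RM.smashHom_inj h3 h4) ⟨j, hj⟩
        · rw [rs_zero hj (hY0 κ j hj), rs_zero hj (hY0 κ j hj)]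
      simp only [F, h5]
    · change Nat.card (Option T × Prop) ≤ _
      simp [Nat.card_prod, Finite.card_option]
    · obtain ⟨h4, h5⟩ := Prod.ext_iff.1 h3
      by_cases hs : s = []
      · simpa [hs] using h5
      · exact propext (hFE _ _ _ (hctx u s l l' (by simp [hs]) h4))
  choose R hR using fun κ => exists_synCon (e' κ) (F κ) (hF κ)
  have hR' : ∀ (x y : (nullRM T).S × ∀ κ, Gen (e' κ)),
      (x = y ∨ (x.1 = 0 ∧ y.1 = 0 ∧ ∀ κ, R κ (x.2 κ) (y.2 κ))) → ∀ κ, R κ (x.2 κ) (y.2 κ) := by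
    rintro x y (rfl | h) κ
    · exact (R κ).refl _
    · exact h.2.2 κ
  let ρ : Con ((nullRM T).S × ∀ κ, Gen (e' κ)) :=
    { r := fun x y => x = y ∨ (x.1 = 0 ∧ y.1 = 0 ∧ ∀ κ, R κ (x.2 κ) (y.2 κ))
      iseqv := ⟨fun _ => Or.inl rfl, fun h => h.elim (fun h => Or.inl h.symm)
        (fun h => Or.inr ⟨h.2.1, h.1, fun κ => (R κ).symm (h.2.2 κ)⟩), by
          rintro x y z (rfl | h1) (rfl | h2)
          · exact Or.inl rfl
          · exact Or.inr h2
          · exact Or.inr h1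
          · exact Or.inr ⟨h1.1, h2.2.1, fun κ => (R κ).trans (h1.2.2 κ) (h2.2.2 κ)⟩⟩
      mul' := fun h1 h2 => Or.inr ⟨null_mul _ _, null_mul _ _,
        fun κ => (R κ).mul (hR' _ _ h1 κ) (hR' _ _ h2 κ)⟩ }
  let lt : T → (nullRM T).S × ∀ κ, Gen (e' κ) := fun t => (nu t, fun κ => gen (e' κ) t)
  have hkey : ∀ κ κ' : T × T, F κ [κ'.1, κ'.2] → Y κ ⊆ Y κ' := by
    intro κ κ' h j hj
    by_contra hj'
    have h1 : E (rs (Y κ) (rs (Y κ') (val g [κ'.1, κ'.2]))) (val g [κ.1, κ.2]) := fun W => by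
      rw [hE _ _ _ (hYmin κ'), h]
    refine hj _ h1 ?_
    rw [rs_of_mem hj, rs_zero hj' (hY0 _ _ hj')]
  obtain ⟨θ, χ, hχ⟩ := exists_con_embed lt ρ (fun s t x => by
      refine ⟨Or.inr ⟨null_mul _ _, null_mul _ _, fun κ => ?_⟩,
        Or.inr ⟨null_mul _ _, null_mul _ _, fun κ => ?_⟩⟩
      · obtain ⟨w, hw, h⟩ := exists_word (x.2 κ)
        have := (hR κ ([s, t] ++ w) ([s * t] ++ w) (by simp) (by simp)).2 fun u v => by
          have := hFE κ _ _ (hctx u (w ++ v) [s, t] [s * t] (by simp [hw]) (by simp))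
          simpa only [List.append_assoc] using this
        rw [val_append _ (by simp) hw, val_append _ (by simp) hw, h] at this
        exact this
      · obtain ⟨w, hw, h⟩ := exists_word (x.2 κ)
        have := (hR κ (w ++ [s, t]) (w ++ [s * t]) (by simp) (by simp)).2 fun u v => by
          have := hFE κ _ _ (hctx (u ++ w) v [s, t] [s * t] (by simp [hw]) (by simp))
          simpa only [List.append_assoc] using this
        rw [val_append _ hw (by simp), val_append _ hw (by simp), h] at this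
        exact this)
    (fun s t s' t' h => by
      have h1 : ∀ κ, F κ [s, t] ↔ F κ [s', t'] := fun κ => by
        simpa using (hR κ [s, t] [s', t'] (by simp) (by simp)).1 (hR' _ _ h κ) [] []
      have h2 := (h1 (s, t)).1 (hYmin (s, t))
      have h3 := (h1 (s', t')).2 (hYmin (s', t'))
      have h4 : Y (s, t) = Y (s', t') :=
        Set.Subset.antisymm (hkey (s, t) (s', t') h2) (hkey (s', t') (s, t) h3)
      have h5 := (h2 Set.univ).symm.trans (h4 ▸ hYmin (s', t') Set.univ)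
      rw [rs_univ, rs_univ, hφg, hφg] at h5
      exact hι h5)
    (fun t x h => by
      rcases h with h | h
      · exact h.symm
      · exact absurd h.1 (nu_ne_zero t))
    (fun s t h => nu_injective (congrArg Prod.fst h))
    (fun t s s' h => nu_ne_zero t ((congrArg Prod.fst h).trans (null_mul _ _)))
  have hsurj : Surjective θ.mkMulHom := fun q => Quotient.exists_rep q
  refine ⟨θ.Quotient, inferInstance, Finite.of_surjective _ hsurj,
    (Nat.card_le_card_of_surjective _ hsurj).trans ?_, ⟨_, inferInstance,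
    opP_prod ((null_good hV T).mem_S (MulHom.id _) injective_id) fun κ => gen_mem_S (hD' κ) _,
    θ.mkMulHom, hsurj⟩, χ, hχ⟩
  rw [Nat.card_prod, card_null]
  exact Nat.mul_le_mul_left _ (card_pi_le (fun j => (card_gen_le _).trans (hcard j))
    (one_le_rb _ _ _) (Nat.card_prod _ _).le)

end Pool.Agent.P.MP_152bd8_lc
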