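import Pool.Agent.P.MP_152bd8_lc.LemB
import Pool.Agent.P.MP_152bd8_lc.LemD
import Pool.Agent.P.MP_152bd8_lc.Clause

set_option autoImplicit false
set_option linter.dupNamespace false

namespace Pool.Agent.P.MP_152bd8_lc

@[fun_prop] theorem Cp.gb {f g : ℕ → ℕ} (hf : Cp f) (hg : Cp g) :
    Cp (fun a => gb (f a) (g a)) := by
  unfold MP_152bd8_lc.gb; fun_prop

@[fun_prop] theorem Cp.rb (c : ℕ) {f g : ℕ → ℕ} (hf : Cp f) (hg : Cp g) :
    Cp (fun a => rb c (f a) (g a)) := by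
  unfold MP_152bd8_lc.rb; fun_prop

theorem phi_solvable {b : Prop} {V : GCls} (hV : IsPseudovariety V)
    (hd : DecidableUnivTheory V) : CompletelySolvable (Phi b V) := by
  intro w
  have r0 : RecNT (Phi b V) := recNT_phi hV hd
  have r2 : RecNT (opS (Phi b V)) := recNT_S hd
  have r3 := r0.P
  have r5 := r2.P
  obtain ⟨c4, h4⟩ := bound_HS (b := b) hV
  have r4 := r2.H (fun n => rb c4 n (n + 1)) (by fun_prop) h4
  have r8 := r4.P
  have r6 : RecNT (opS (opP 0 (Phi b V))) :=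
    (r5.S (fun n => n ^ (n * n)) (by fun_prop) fun T _ _ => bound_SP SS T).of_eqv ⟨eSPS.2, eSPS.1⟩
  have r7 := r3.H bB (by unfold bB; fun_prop) fun T _ _ _ => bound_HP hV T
  obtain ⟨c9, h9⟩ := bound_HPS (b := b) hV
  have r9 := r5.H (fun n => (n * n + 1) * rb c9 n ((n + 1) * n) ^ ((2 ^ n) ^ n * 2 ^ n))
    (by fun_prop) h9
  have r10 := r8.S (fun n => n ^ (n * n)) (by fun_prop) fun T _ _ => bound_SP eSHS.1 T
  obtain ⟨c11, h11⟩ := bound_SHPS (b := b) hV
  have r11 := r9.S (fun n => (n * n + 1) * rb c11 n ((n + 1) * 2) ^ (n * n)) (by fun_prop) h11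
  obtain ⟨c12, h12⟩ := bound_HSP (b := b) hV
  have r12 := r6.H (fun n => rb c12 n (n + 1) ^ (2 ^ ((2 ^ n) ^ n * 2 ^ n))) (by fun_prop) h12
  refine RecNT.recursive ?_ (isoClosed_birkhoff phi_isoClosed w)
  rcases listed_birkhoff (phi_H hV) (phi_HP_le_SP hV) w with
    h | h | h | h | h | h | h | h | h | h | h | h
  · exact r0.of_eqv h
  · exact r2.of_eqv h
  · exact r3.of_eqv h
  · exact r4.of_eqv h
  · exact r5.of_eqv h
  · exact r6.of_eqv h
  · exact r7.of_eqv h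
  · exact r8.of_eqv h
  · exact r9.of_eqv h
  · exact r10.of_eqv h
  · exact r11.of_eqv h
  · exact r12.of_eqv h

end Pool.Agent.P.MP_152bd8_lc
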