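import Pool.Agent.P.MP_152bd8_lc.Defs

set_option autoImplicit false
set_option linter.dupNamespace false

namespace Pool.Agent.P.MP_152bd8_lc

open Function

/-- Inclusion of classes on semigroups with at least two elements. -/
def Le (K L : Cls) : Prop := ∀ (S : Type) [Semigroup S], Nontrivial S → K S → L S

/-- Equality of classes on semigroups with at least two elements. -/
def Eqv (K L : Cls) : Prop := Le K L ∧ Le L K

theorem Le.rfl {K : Cls} : Le K K := fun _ _ _ h => h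
theorem Le.trans {K L M : Cls} (h : Le K L) (h' : Le L M) : Le K M :=
  fun S _ hS hK => h' S hS (h S hS hK)
theorem Eqv.rfl {K : Cls} : Eqv K K := ⟨Le.rfl, Le.rfl⟩
theorem Eqv.trans {K L M : Cls} (h : Eqv K L) (h' : Eqv L M) : Eqv K M :=
  ⟨h.1.trans h'.1, h'.2.trans h.2⟩

theorem opP_of_finite {K : Cls} {S : Type} [Semigroup S] {ι : Type} [Finite ι] (A : ι → Type)
    [∀ i, Semigroup (A i)] (hA : ∀ i, K (A i)) (e : S ≃* ∀ i, A i) {m : ℕ} (hm : m ≤ Nat.card ι) :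
    opP m K S := by
  let σ := Finite.equivFin ι
  refine ⟨Nat.card ι, fun j => A (σ.symm j), inferInstance, hm, fun j => hA _, ⟨e.trans ?_⟩⟩
  exact { Equiv.piCongrLeft' A σ with map_mul' := fun _ _ => rfl }

/-- Members with at least two elements. -/
def NT (K : Cls) : Cls := fun S _ => K S ∧ Nontrivial S

theorem opP_NT {K : Cls} {m : ℕ} {S : Type} [Semigroup S] (hS : Nontrivial S) (h : opP m K S) :
    opP 1 (NT K) S := by
  classical
  obtain ⟨n, A, _, -, hA, ⟨e⟩⟩ := h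
  obtain ⟨x, y, hxy⟩ := hS
  have hsub : ∀ i, ¬ Nontrivial (A i) → ∀ a b : A i, a = b := fun i hi a b => by
    by_contra hab
    exact hi ⟨a, b, hab⟩
  let e' : (∀ i, A i) ≃* (∀ i : {i // Nontrivial (A i)}, A i.1) :=
    { toFun := fun s i => s i.1
      invFun := fun s i => if h : Nontrivial (A i) then s ⟨i, h⟩ else e x i
      left_inv := fun s => by
        funext i
        by_cases h : Nontrivial (A i)
        · simp [h]
        · exact hsub i h _ _
      right_inv := fun s => by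
        funext i
        simp [i.2]
      map_mul' := fun _ _ => rfl }
  refine opP_of_finite (fun i : {i // Nontrivial (A i)} => A i.1) (fun i => ⟨hA _, i.2⟩)
    (e.trans e') ?_
  have : Nonempty {i // Nontrivial (A i)} := by
    by_contra hne
    apply hxy
    apply e.injective
    funext i
    exact hsub i (fun h => hne ⟨⟨i, h⟩⟩) _ _
  exact Nat.card_pos

theorem opP_mono_m {K : Cls} {m m' : ℕ} (hm : m' ≤ m) {S : Type} [Semigroup S] (h : opP m K S) :
    opP m' K S := by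
  obtain ⟨n, A, _, hn, hA, e⟩ := h
  exact ⟨n, A, inferInstance, hm.trans hn, hA, e⟩

theorem Le.H {K L : Cls} (h : Le K L) : Le (opH K) (opH L) := by
  rintro S _ hS ⟨U, _, hU, f, hf⟩
  exact ⟨U, inferInstance, h U hf.nontrivial hU, f, hf⟩

theorem Le.S {K L : Cls} (h : Le K L) : Le (opS K) (opS L) := by
  rintro S _ hS ⟨U, _, hU, f, hf⟩
  exact ⟨U, inferInstance, h U hf.nontrivial hU, f, hf⟩

theorem Le.P' {K L : Cls} (h : Le K L) (m m' : ℕ) (hm : m' ≤ 1) : Le (opP m K) (opP m' L) := by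
  intro S _ hS hK
  obtain ⟨n, A, _, hn, hA, e⟩ := opP_NT hS hK
  exact ⟨n, A, inferInstance, hm.trans hn, fun i => h _ (hA i).2 (hA i).1, e⟩

theorem Le.P {K L : Cls} (h : Le K L) : Le (opP 0 K) (opP 0 L) := h.P' 0 0 (by omega)

theorem le_H {K : Cls} : Le K (opH K) := fun S _ _ h =>
  ⟨S, inferInstance, h, MulHom.id S, surjective_id⟩

theorem le_S {K : Cls} : Le K (opS K) := fun S _ _ h =>
  ⟨S, inferInstance, h, MulHom.id S, injective_id⟩

theorem le_P {K : Cls} : Le K (opP 0 K) := fun S _ _ h =>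
  opP_of_finite (ι := Unit) (fun _ => S) (fun _ => h) (MulEquiv.funUnique Unit S).symm (by omega)

theorem HH {K : Cls} : Le (opH (opH K)) (opH K) := by
  rintro S _ - ⟨U, _, ⟨W, _, hW, g, hg⟩, f, hf⟩
  exact ⟨W, inferInstance, hW, f.comp g, hf.comp hg⟩

theorem SS {K : Cls} : Le (opS (opS K)) (opS K) := by
  rintro S _ - ⟨U, _, ⟨W, _, hW, g, hg⟩, f, hf⟩
  exact ⟨W, inferInstance, hW, g.comp f, hg.comp hf⟩

theorem PP {K : Cls} : Le (opP 0 (opP 0 K)) (opP 0 K) := by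
  rintro S _ - ⟨n, A, _, -, hA, ⟨e⟩⟩
  choose k B iB _ hB f using hA
  let e1 : (∀ i, A i) ≃* (∀ i, ∀ j, B i j) := MulEquiv.piCongrRight fun i => (f i).some
  let e2 : (∀ i, ∀ j, B i j) ≃* (∀ x : Σ i, Fin (k i), B x.1 x.2) :=
    { (Equiv.piCurry B).symm with map_mul' := fun _ _ => rfl }
  exact opP_of_finite (fun x : Σ i, Fin (k i) => B x.1 x.2) (fun x => hB _ _)
    ((e.trans e1).trans e2) (by omega)

theorem SH {K : Cls} : Le (opS (opH K)) (opH (opS K)) := by
  rintro S _ - ⟨U, _, ⟨W, _, hW, g, hg⟩, f, hf⟩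
  let B : Subsemigroup W := f.srange.comap g
  have hB : ∀ b : B, ∃ s, f s = g b.1 := fun b => b.2
  choose φ hφ using hB
  refine ⟨B, inferInstance, ⟨W, inferInstance, hW, MulMemClass.subtype B, Subtype.val_injective⟩,
    ⟨φ, fun a b => hf ?_⟩, fun s => ?_⟩
  · rw [map_mul, hφ, hφ, hφ, ← map_mul]; rfl
  · obtain ⟨w, hw⟩ := hg (f s)
    exact ⟨⟨w, s, hw.symm⟩, hf (by simpa using (hφ _).trans hw)⟩

theorem PH {K : Cls} : Le (opP 0 (opH K)) (opH (opP 0 K)) := by
  rintro S _ - ⟨n, A, _, -, hA, ⟨e⟩⟩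
  choose U iU hU f hf using hA
  refine ⟨∀ i, U i, inferInstance, ⟨n, U, iU, by omega, hU, ⟨MulEquiv.refl _⟩⟩,
    (e.symm : (∀ i, A i) →ₙ* S).comp ⟨fun u i => f i (u i), fun a b => by funext i; simp⟩, ?_⟩
  exact e.symm.surjective.comp (Surjective.piMap hf)

theorem PS {K : Cls} : Le (opP 0 (opS K)) (opS (opP 0 K)) := by
  rintro S _ - ⟨n, A, _, -, hA, ⟨e⟩⟩
  choose U iU hU f hf using hA
  refine ⟨∀ i, U i, inferInstance, ⟨n, U, iU, by omega, hU, ⟨MulEquiv.refl _⟩⟩,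
    MulHom.comp ⟨fun u i => f i (u i), fun a b => by funext i; simp⟩ (e : S →ₙ* ∀ i, A i), ?_⟩
  exact (Injective.piMap hf).comp e.injective

local instance : Trans Le Le Le := ⟨Le.trans⟩

/-- The twelve classes obtained from `Φ`. -/
def Listed (Φ K : Cls) : Prop :=
  Eqv K Φ ∨ Eqv K (opS Φ) ∨ Eqv K (opP 0 Φ) ∨ Eqv K (opH (opS Φ)) ∨ Eqv K (opP 0 (opS Φ)) ∨
  Eqv K (opS (opP 0 Φ)) ∨ Eqv K (opH (opP 0 Φ)) ∨ Eqv K (opP 0 (opH (opS Φ))) ∨
  Eqv K (opH (opP 0 (opS Φ))) ∨ Eqv K (opS (opP 0 (opH (opS Φ)))) ∨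
  Eqv K (opS (opH (opP 0 (opS Φ)))) ∨ Eqv K (opH (opS (opP 0 Φ)))

theorem Eqv.H {K L : Cls} (h : Eqv K L) : Eqv (opH K) (opH L) := ⟨h.1.H, h.2.H⟩
theorem Eqv.S {K L : Cls} (h : Eqv K L) : Eqv (opS K) (opS L) := ⟨h.1.S, h.2.S⟩
theorem Eqv.P {K L : Cls} (h : Eqv K L) : Eqv (opP 0 K) (opP 0 L) := ⟨h.1.P, h.2.P⟩

theorem eHH {K : Cls} : Eqv (opH (opH K)) (opH K) := ⟨HH, le_H⟩
theorem eSS {K : Cls} : Eqv (opS (opS K)) (opS K) := ⟨SS, le_S⟩
theorem ePP {K : Cls} : Eqv (opP 0 (opP 0 K)) (opP 0 K) := ⟨PP, le_P⟩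
theorem eSHS {K : Cls} : Eqv (opS (opH (opS K))) (opH (opS K)) := ⟨SH.trans SS.H, le_S⟩
theorem ePHP {K : Cls} : Eqv (opP 0 (opH (opP 0 K))) (opH (opP 0 K)) := ⟨PH.trans PP.H, le_P⟩
theorem ePSP {K : Cls} : Eqv (opP 0 (opS (opP 0 K))) (opS (opP 0 K)) := ⟨PS.trans PP.S, le_P⟩
theorem eSPS {K : Cls} : Eqv (opS (opP 0 (opS K))) (opS (opP 0 K)) :=
  ⟨PS.S.trans SS, le_S.P.S⟩
theorem eHPH {K : Cls} : Eqv (opH (opP 0 (opH K))) (opH (opP 0 K)) :=
  ⟨PH.H.trans HH, le_H.P.H⟩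
theorem eHSH {K : Cls} : Eqv (opH (opS (opH K))) (opH (opS K)) :=
  ⟨SH.H.trans HH, le_H.S.H⟩

theorem Listed.H {Φ K : Cls} (hG : Le (opH Φ) Φ) (h : Listed Φ K) : Listed Φ (opH K) := by
  unfold Listed at *
  rcases h with h | h | h | h | h | h | h | h | h | h | h | h
  · exact Or.inl (h.H.trans ⟨hG, le_H⟩)
  · have := h.H; tauto
  · have := h.H; tauto
  · have := h.H.trans eHH; tauto
  · have := h.H; tauto
  · have := h.H; tauto
  · have := h.H.trans eHH; tauto
  · have := h.H.trans eHPH; tauto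
  · have := h.H.trans eHH; tauto
  · have : Eqv (opH K) (opH (opS (opP 0 Φ))) :=
      h.H.trans ⟨PH.S.H.trans (eHSH.1.trans eSPS.1.H), (le_S.trans le_H).P.S.H⟩
    tauto
  · have := h.H.trans (eHSH.trans eSPS.H); tauto
  · have := h.H.trans eHH; tauto

theorem Listed.S {Φ K : Cls} (hF : Le (opH (opP 0 Φ)) (opS (opP 0 Φ))) (h : Listed Φ K) :
    Listed Φ (opS K) := by
  unfold Listed at *
  rcases h with h | h | h | h | h | h | h | h | h | h | h | h
  · have := h.S; tauto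
  · have := h.S.trans eSS; tauto
  · have := h.S; tauto
  · have := h.S.trans eSHS; tauto
  · have := h.S.trans eSPS; tauto
  · have := h.S.trans eSS; tauto
  · have : Eqv (opS K) (opS (opP 0 Φ)) := h.S.trans ⟨hF.S.trans SS, le_H.S⟩
    tauto
  · have := h.S; tauto
  · have := h.S; tauto
  · have := h.S.trans eSS; tauto
  · have := h.S.trans eSS; tauto
  · have := h.S.trans eSHS; tauto

theorem Listed.P {Φ K : Cls} (h : Listed Φ K) : Listed Φ (opP 0 K) := by
  unfold Listed at *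
  rcases h with h | h | h | h | h | h | h | h | h | h | h | h
  · have := h.P; tauto
  · have := h.P; tauto
  · have := h.P.trans ePP; tauto
  · have := h.P; tauto
  · have := h.P.trans ePP; tauto
  · have := h.P.trans ePSP; tauto
  · have := h.P.trans ePHP; tauto
  · have := h.P.trans ePP; tauto
  · have := h.P.trans ePHP; tauto
  · have := h.P.trans ePSP; tauto
  · have : Eqv (opP 0 K) (opS (opH (opP 0 (opS Φ)))) :=
      h.P.trans ⟨PS.trans ePHP.1.S, le_P⟩
    tauto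
  · have : Eqv (opP 0 K) (opH (opS (opP 0 Φ))) :=
      h.P.trans ⟨PH.trans ePSP.1.H, le_P⟩
    tauto

theorem listed_birkhoff {Φ : Cls} (hG : Le (opH Φ) Φ)
    (hF : Le (opH (opP 0 Φ)) (opS (opP 0 Φ))) (w : List Op) : Listed Φ (birkhoff w Φ) := by
  induction w with
  | nil => exact Or.inl Eqv.rfl
  | cons o w ih =>
    cases o with
    | H => exact ih.H hG
    | S => exact ih.S hF
    | P0 => exact ih.P
    | P1 =>
      have e : Eqv (opP 1 (birkhoff w Φ)) (opP 0 (birkhoff w Φ)) :=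
        ⟨Le.rfl.P' 1 0 (by omega), Le.rfl.P' 0 1 (by omega)⟩
      have := ih.P
      change Listed Φ (opP 1 (birkhoff w Φ))
      unfold Listed at *
      rcases this with h | h | h | h | h | h | h | h | h | h | h | h <;>
        (have := e.trans h; tauto)

/-- Closure under isomorphism. -/
def IsoClosed (K : Cls) : Prop :=
  ∀ (S T : Type) [Semigroup S] [Semigroup T], (S ≃* T) → K S → K T

theorem isoClosed_birkhoff {Φ : Cls} (h : IsoClosed Φ) (w : List Op) :
    IsoClosed (birkhoff w Φ) := by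
  have hP : ∀ m K, IsoClosed (opP m K) := by
    rintro m K S T _ _ e ⟨n, A, _, hn, hA, ⟨f⟩⟩
    exact ⟨n, A, inferInstance, hn, hA, ⟨e.symm.trans f⟩⟩
  cases w with
  | nil => exact h
  | cons o w =>
    cases o with
    | H =>
      rintro S T _ _ e ⟨U, _, hU, f, hf⟩
      exact ⟨U, inferInstance, hU, (e : S →ₙ* T).comp f, e.surjective.comp hf⟩
    | S =>
      rintro S T _ _ e ⟨U, _, hU, f, hf⟩
      exact ⟨U, inferInstance, hU, f.comp (e.symm : T →ₙ* S), hf.comp e.symm.injective⟩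
    | P0 => exact hP _ _
    | P1 => exact hP _ _

end Pool.Agent.P.MP_152bd8_lc
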