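import Pool.Agent.P.MP_152bd8_lc.Grp
import Pool.Agent.P.MP_152bd8_lc.Ops

set_option autoImplicit false
set_option linter.dupNamespace false

namespace Pool.Agent.P.MP_152bd8_lc

open Function

/-- The Rees matrix semigroup with zero. -/
def Rees {G I L : Type} (_P : L → I → Option G) : Type := Option (I × G × L)

namespace Rees

variable {G I L : Type} {P : L → I → Option G}

def mk (i : I) (g : G) (l : L) : Rees P := some (i, g, l)

instance : Zero (Rees P) := ⟨none⟩

@[elab_as_elim, cases_eliminator]
theorem cases {motive : Rees P → Prop} (x : Rees P) (zero : motive 0)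
    (mk : ∀ i g l, motive (mk i g l)) : motive x := by
  rcases x with _ | ⟨i, g, l⟩
  · exact zero
  · exact mk i g l

@[simp] theorem mk_ne_zero (i : I) (g : G) (l : L) : (mk i g l : Rees P) ≠ 0 :=
  Option.some_ne_none _

@[simp] theorem zero_ne_mk (i : I) (g : G) (l : L) : (0 : Rees P) ≠ mk i g l :=
  (mk_ne_zero i g l).symm

@[simp] theorem mk_inj {i j : I} {g h : G} {l m : L} :
    (mk i g l : Rees P) = mk j h m ↔ i = j ∧ g = h ∧ l = m := by
  unfold mk Rees; simp

theorem exists_of_ne {x : Rees P} (h : x ≠ 0) : ∃ i g l, x = mk i g l := by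
  cases x with
  | zero => exact absurd rfl h
  | mk i g l => exact ⟨i, g, l, rfl⟩

theorem zero_or (x : Rees P) : x = 0 ∨ ∃ i g l, x = mk i g l := by
  by_cases h : x = 0
  · exact Or.inl h
  · exact Or.inr (exists_of_ne h)

instance [Finite I] [Finite G] [Finite L] : Finite (Rees P) :=
  (inferInstance : Finite (Option (I × G × L)))

theorem card [Finite I] [Finite G] [Finite L] :
    Nat.card (Rees P) = Nat.card I * (Nat.card G * Nat.card L) + 1 := by
  change Nat.card (Option (I × G × L)) = _
  rw [Finite.card_option, Nat.card_prod, Nat.card_prod]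

variable [Group G]

instance : Mul (Rees P) := ⟨reesMul P⟩

theorem mk_mul_some {i j : I} {g h p : G} {l m : L} (hp : P l j = some p) :
    (mk i g l : Rees P) * mk j h m = mk i (g * p * h) m := by
  change Option.map _ (P l j) = _
  rw [hp]; rfl

theorem mk_mul_none {i j : I} {g h : G} {l m : L} (hp : P l j = none) :
    (mk i g l : Rees P) * mk j h m = 0 := by
  change Option.map _ (P l j) = _
  rw [hp]; rfl

instance : MulZeroClass (Rees P) where
  zero_mul x := by cases x <;> rfl
  mul_zero x := by cases x <;> rfl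

instance : SemigroupWithZero (Rees P) where
  mul_assoc x y w := by
    cases x with
    | zero => simp
    | mk i g l =>
      cases y with
      | zero => simp
      | mk j h m =>
        cases w with
        | zero => simp
        | mk k a n =>
          rcases h1 : P l j with _ | p <;> rcases h2 : P m k with _ | p'
          · simp [mk_mul_none h1, mk_mul_none h2]
          · simp [mk_mul_none h1, mk_mul_some h2]
          · simp [mk_mul_some h1, mk_mul_none h2]
          · simp [mk_mul_some h1, mk_mul_some h2, mul_assoc]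

theorem mk_mul_ne_zero {i j : I} {g h : G} {l m : L} :
    (mk i g l : Rees P) * mk j h m ≠ 0 ↔ P l j ≠ none := by
  rcases h1 : P l j with _ | p
  · simp [mk_mul_none h1]
  · simp [mk_mul_some h1]

theorem mul_mul_ne_zero {x y w : Rees P} (h1 : x * y ≠ 0) (h2 : y * w ≠ 0) : x * y * w ≠ 0 := by
  obtain ⟨i, g, l, rfl⟩ := exists_of_ne (left_ne_zero_of_mul h1)
  obtain ⟨j, h, m, rfl⟩ := exists_of_ne (left_ne_zero_of_mul h2)
  obtain ⟨k, a, n, rfl⟩ := exists_of_ne (right_ne_zero_of_mul h2)
  obtain ⟨p, hp⟩ := Option.ne_none_iff_exists'.1 (mk_mul_ne_zero.1 h1)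
  rw [mk_mul_some hp]
  exact mk_mul_ne_zero.2 (mk_mul_ne_zero.1 h2)

section map
variable {G' I' L' : Type} [Group G'] {P' : L' → I' → Option G'}

def mapFun (P' : L' → I' → Option G') (f : I → I') (g : L → L') (π : G → G') (a : I → G')
    (c : L → G') : Rees P → Rees P'
  | none => 0
  | some (i, x, l) => mk (f i) (a i * π x * c l) (g l)

/-- Homomorphisms between Rees matrix semigroups. -/
def map (f : I → I') (g : L → L') (π : G →* G') (a : I → G') (c : L → G')
    (h : ∀ l i, P' (g l) (f i) = (P l i).map fun p => (c l)⁻¹ * π p * (a i)⁻¹) :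
    Rees P →ₙ* Rees P' where
  toFun := mapFun P' f g π a c
  map_mul' x y := by
    cases x with
    | zero => rw [zero_mul]; exact (zero_mul _).symm
    | mk i x l =>
      cases y with
      | zero => rw [mul_zero]; exact (mul_zero _).symm
      | mk j y m =>
        have h1 := h l j
        rcases h2 : P l j with _ | p
        · rw [h2] at h1
          rw [mk_mul_none h2]
          exact (mk_mul_none h1).symm
        · rw [h2] at h1
          rw [mk_mul_some h2]
          refine Eq.trans ?_ (mk_mul_some h1).symm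
          change mk _ _ _ = _
          congr 1
          simp [mul_assoc]

@[simp] theorem map_mk (f : I → I') (g : L → L') (π : G →* G') (a : I → G') (c : L → G')
    (h : ∀ l i, P' (g l) (f i) = (P l i).map fun p => (c l)⁻¹ * π p * (a i)⁻¹) (i : I) (x : G)
    (l : L) : map f g π a c h (mk i x l) = mk (f i) (a i * π x * c l) (g l) := rfl

@[simp] theorem map_zero' (f : I → I') (g : L → L') (π : G →* G') (a : I → G') (c : L → G')
    (h : ∀ l i, P' (g l) (f i) = (P l i).map fun p => (c l)⁻¹ * π p * (a i)⁻¹) :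
    map f g π a c h 0 = 0 := rfl

theorem map_injective {f : I → I'} {g : L → L'} {π : G →* G'} {a : I → G'} {c : L → G'}
    {h : ∀ l i, P' (g l) (f i) = (P l i).map fun p => (c l)⁻¹ * π p * (a i)⁻¹}
    (hf : Injective f) (hg : Injective g) (hπ : Injective π) : Injective (map f g π a c h) := by
  intro x y hxy
  cases x with
  | zero =>
    cases y with
    | zero => rfl
    | mk j y m => simp at hxy
  | mk i x l =>
    cases y with
    | zero => simp at hxy
    | mk j y m =>
      simp only [map_mk, mk_inj] at hxy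
      obtain ⟨h1, h2, h3⟩ := hxy
      obtain rfl := hf h1
      obtain rfl := hg h3
      obtain rfl := hπ (mul_left_cancel (mul_right_cancel h2))
      rfl

/-- Homomorphisms without normalisation. -/
def map0 (f : I → I') (g : L → L') (π : G →* G') (h : ∀ l i, P' (g l) (f i) = (P l i).map π) :
    Rees P →ₙ* Rees P' :=
  map f g π (fun _ => 1) (fun _ => 1) (fun l i => by simpa using h l i)

@[simp] theorem map0_mk (f : I → I') (g : L → L') (π : G →* G')
    (h : ∀ l i, P' (g l) (f i) = (P l i).map π) (i : I) (x : G) (l : L) :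
    map0 f g π h (mk i x l) = mk (f i) (π x) (g l) := by simp [map0]

@[simp] theorem map0_zero (f : I → I') (g : L → L') (π : G →* G')
    (h : ∀ l i, P' (g l) (f i) = (P l i).map π) : map0 f g π h 0 = 0 := rfl

theorem map0_injective {f : I → I'} {g : L → L'} {π : G →* G'}
    {h : ∀ l i, P' (g l) (f i) = (P l i).map π}
    (hf : Injective f) (hg : Injective g) (hπ : Injective π) : Injective (map0 f g π h) :=
  map_injective hf hg hπ

theorem map0_surjective {f : I → I'} {g : L → L'} {π : G →* G'}
    {h : ∀ l i, P' (g l) (f i) = (P l i).map π}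
    (hf : Surjective f) (hg : Surjective g) (hπ : Surjective π) : Surjective (map0 f g π h) := by
  intro y
  cases y with
  | zero => exact ⟨0, rfl⟩
  | mk i x l =>
    obtain ⟨i, rfl⟩ := hf i
    obtain ⟨x, rfl⟩ := hπ x
    obtain ⟨l, rfl⟩ := hg l
    exact ⟨mk i x l, by simp⟩

end map

end Rees

theorem map_id_hom {G : Type} [Group G] (o : Option G) : o = o.map (MonoidHom.id G) := by
  cases o <;> rfl

/-- Regular relations with a nonempty index set. -/
def RegR {I L : Type} (R : L → I → Prop) : Prop :=
  Nonempty I ∧ (∀ i, ∃ l, R l i) ∧ (∀ l, ∃ i, R l i)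

/-- If `b` holds then the relation is a matching. -/
def MonoR (b : Prop) {I L : Type} (R : L → I → Prop) : Prop :=
  b → (∀ l i i', R l i → R l i' → i = i') ∧ (∀ l l' i, R l i → R l' i → l = l')

theorem MonoR.comap {b : Prop} {I L I' L' : Type} {R : L → I → Prop} {R' : L' → I' → Prop}
    (h : MonoR b R) {f : I' → I} {g : L' → L} (hf : Injective f) (hg : Injective g)
    (hR : ∀ l i, R' l i → R (g l) (f i)) : MonoR b R' := fun hb =>
  ⟨fun _ _ _ h1 h2 => hf ((h hb).1 _ _ _ (hR _ _ h1) (hR _ _ h2)),
    fun _ _ _ h1 h2 => hg ((h hb).2 _ _ _ (hR _ _ h1) (hR _ _ h2))⟩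

/-- Bundled data of a Rees matrix semigroup. -/
structure RM : Type 1 where
  G : Type
  I : Type
  L : Type
  [grp : Group G]
  P : L → I → Option G

attribute [instance] RM.grp

namespace RM

abbrev S (M : RM) : Type := Rees M.P

def supp (M : RM) (l : M.L) (i : M.I) : Prop := M.P l i ≠ none

structure Good (b : Prop) (V : GCls) (M : RM) : Prop where
  mem : V M.G
  finI : Finite M.I
  finL : Finite M.L
  mono : MonoR b M.supp

def Reg (M : RM) : Prop := RegR M.supp

theorem Good.finite {b : Prop} {V : GCls} (hV : IsPseudovariety V) {M : RM} (h : M.Good b V) :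
    Finite M.S := by
  have := h.finI
  have := h.finL
  have := hV.finite _ h.mem
  infer_instance

theorem Reg.base {M : RM} (h : M.Reg) : ∃ l i p, M.P l i = some p := by
  obtain ⟨⟨i⟩, h1, -⟩ := h
  obtain ⟨l, hl⟩ := h1 i
  obtain ⟨p, hp⟩ := Option.ne_none_iff_exists'.1 hl
  exact ⟨l, i, p, hp⟩

theorem Reg.col {M : RM} (h : M.Reg) (i : M.I) : ∃ l p, M.P l i = some p := by
  obtain ⟨l, hl⟩ := h.2.1 i
  exact ⟨l, Option.ne_none_iff_exists'.1 hl⟩

theorem Reg.row {M : RM} (h : M.Reg) (l : M.L) : ∃ i p, M.P l i = some p := by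
  obtain ⟨i, hi⟩ := h.2.2 l
  exact ⟨i, Option.ne_none_iff_exists'.1 hi⟩

theorem Reg.regular {M : RM} (h : M.Reg) (x : M.S) : ∃ y, x * y * x = x := by
  rcases Rees.zero_or x with rfl | ⟨i, g, l, rfl⟩
  · exact ⟨0, by simp⟩
  · obtain ⟨j, p, hp⟩ := h.row l
    obtain ⟨m, p', hp'⟩ := h.col i
    refine ⟨Rees.mk j (p⁻¹ * g⁻¹ * p'⁻¹) m, ?_⟩
    rw [Rees.mk_mul_some hp, Rees.mk_mul_some hp']
    congr 1; group

theorem Reg.simple {M : RM} (h : M.Reg) {x : M.S} (hx : x ≠ 0) (t : M.S) :
    ∃ u v, u * x * v = t := by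
  obtain ⟨i, g, l, rfl⟩ := Rees.exists_of_ne hx
  rcases Rees.zero_or t with rfl | ⟨i', g', l', rfl⟩
  · exact ⟨0, 0, by simp⟩
  · obtain ⟨j, p, hp⟩ := h.row l
    obtain ⟨m, p', hp'⟩ := h.col i
    refine ⟨Rees.mk i' (g' * p⁻¹ * g⁻¹ * p'⁻¹) m, Rees.mk j 1 l', ?_⟩
    rw [Rees.mk_mul_some hp', Rees.mk_mul_some hp]
    congr 1; group

end RM

/-- The class of Rees matrix semigroups over `V` with regular (and, if `b`, monomial) matrix. -/
def Phi (b : Prop) (V : GCls) : Cls := fun S _ =>
  ∃ M : RM, M.Good b V ∧ M.Reg ∧ Nonempty (S ≃* M.S)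

theorem RM.Good.phi {b : Prop} {V : GCls} {M : RM} (h : M.Good b V) (hr : M.Reg) :
    Phi b V M.S := ⟨M, h, hr, ⟨MulEquiv.refl _⟩⟩

namespace RM

open Classical in
/-- A regular matrix containing the given one. -/
noncomputable def double (M : RM) : RM where
  G := M.G
  I := Option (M.I ⊕ M.L)
  L := Option (M.L ⊕ M.I)
  P := fun l i => match l, i with
    | none, none => some 1
    | some (Sum.inl l), some (Sum.inl i) => M.P l i
    | some (Sum.inl l), some (Sum.inr l0) => if l = l0 ∧ ∀ i, M.P l i = none then some 1 else none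
    | some (Sum.inr i0), some (Sum.inl i) => if i0 = i ∧ ∀ l, M.P l i = none then some 1 else none
    | some (Sum.inr i0), some (Sum.inr l0) => M.P l0 i0
    | _, _ => none

theorem double_reg (M : RM) : M.double.Reg := by
  refine ⟨⟨none⟩, ?_, ?_⟩
  · rintro (_ | i | l)
    · exact ⟨none, by simp [supp, double]⟩
    · by_cases h : ∀ l, M.P l i = none
      · exact ⟨some (Sum.inr i), by simp [supp, double, h]⟩
      · push Not at h
        obtain ⟨l, hl⟩ := h
        exact ⟨some (Sum.inl l), hl⟩
    · by_cases h : ∀ i, M.P l i = none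
      · exact ⟨some (Sum.inl l), by simp [supp, double, h]⟩
      · push Not at h
        obtain ⟨i, hi⟩ := h
        exact ⟨some (Sum.inr i), hi⟩
  · rintro (_ | l | i)
    · exact ⟨none, by simp [supp, double]⟩
    · by_cases h : ∀ i, M.P l i = none
      · exact ⟨some (Sum.inr l), by simp [supp, double, h]⟩
      · push Not at h
        obtain ⟨i, hi⟩ := h
        exact ⟨some (Sum.inl i), hi⟩
    · by_cases h : ∀ l, M.P l i = none
      · exact ⟨some (Sum.inl i), by simp [supp, double, h]⟩
      · push Not at h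
        obtain ⟨l, hl⟩ := h
        exact ⟨some (Sum.inr l), hl⟩

theorem Good.double {b : Prop} {V : GCls} {M : RM} (h : M.Good b V) : M.double.Good b V := by
  have := h.finI
  have := h.finL
  refine ⟨h.mem, (inferInstance : Finite (Option (M.I ⊕ M.L))),
    (inferInstance : Finite (Option (M.L ⊕ M.I))), fun hb => ?_⟩
  obtain ⟨h1, h2⟩ := h.mono hb
  simp only [supp] at h1 h2
  constructor
  · rintro (_ | l | i) (_ | i1 | l1) (_ | i2 | l2) <;> simp only [supp, RM.double] <;> grind
  · rintro (_ | l1 | i1) (_ | l2 | i2) (_ | i | l) <;> simp only [supp, RM.double] <;> grind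

theorem Good.mem_S {b : Prop} {V : GCls} {M : RM} (h : M.Good b V) {T : Type} [Semigroup T]
    (f : T →ₙ* M.S) (hf : Injective f) : opS (Phi b V) T := by
  let j : M.S →ₙ* M.double.S :=
    Rees.map0 (P' := M.double.P) (fun i => some (Sum.inl i)) (fun l => some (Sum.inl l))
      (MonoidHom.id M.G) (fun l i => map_id_hom (M.P l i))
  have hj : Injective j := Rees.map0_injective ((Option.some_injective _).comp Sum.inl_injective)
    ((Option.some_injective _).comp Sum.inl_injective) injective_id
  exact ⟨M.double.S, inferInstance, h.double.phi M.double_reg, j.comp f, hj.comp hf⟩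

/-- Restriction to subsets of the index sets. -/
def restrict (M : RM) (A : Set M.I) (B : Set M.L) : RM where
  G := M.G
  I := A
  L := B
  P := fun l i => M.P l i

def restrictHom (M : RM) (A : Set M.I) (B : Set M.L) : (M.restrict A B).S →ₙ* M.S :=
  Rees.map0 (P := (M.restrict A B).P) (P' := M.P) Subtype.val Subtype.val (MonoidHom.id _)
    (fun l i => map_id_hom (M.P l.1 i.1))

theorem restrictHom_injective (M : RM) (A : Set M.I) (B : Set M.L) :
    Injective (M.restrictHom A B) :=
  Rees.map0_injective Subtype.val_injective Subtype.val_injective injective_id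

@[simp] theorem restrictHom_zero (M : RM) (A : Set M.I) (B : Set M.L) :
    M.restrictHom A B 0 = 0 := rfl

theorem restrictHom_mk (M : RM) (A : Set M.I) (B : Set M.L) (i : A) (g : M.G) (l : B) :
    M.restrictHom A B (Rees.mk (P := (M.restrict A B).P) i g l) = Rees.mk i.1 g l.1 :=
  Rees.map0_mk _ _ _ _ _ _ _

theorem restrict_mono {b : Prop} {M : RM} (h : MonoR b M.supp) (A : Set M.I) (B : Set M.L) :
    MonoR b (M.restrict A B).supp :=
  h.comap Subtype.val_injective Subtype.val_injective fun _ _ h => h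

def usedI {M : RM} {X : Type} (a : X → M.S) : Set M.I := {i | ∃ x g l, a x = Rees.mk i g l}
def usedL {M : RM} {X : Type} (a : X → M.S) : Set M.L := {l | ∃ x i g, a x = Rees.mk i g l}

theorem usedI_card {M : RM} {X : Type} [Finite X] (a : X → M.S) :
    Finite (usedI a) ∧ Nat.card (usedI a) ≤ Nat.card X := by
  have h : ∀ i : usedI a, ∃ x g l, a x = Rees.mk i.1 g l := fun i => i.2
  choose f g l hf using h
  have hi : Injective f := fun i j hij => by
    have := (hf i).symm.trans (hij ▸ hf j)
    exact Subtype.ext (Rees.mk_inj.1 this).1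
  exact ⟨Finite.of_injective f hi, Nat.card_le_card_of_injective f hi⟩

theorem usedL_card {M : RM} {X : Type} [Finite X] (a : X → M.S) :
    Finite (usedL a) ∧ Nat.card (usedL a) ≤ Nat.card X := by
  have h : ∀ l : usedL a, ∃ x i g, a x = Rees.mk i g l.1 := fun i => i.2
  choose f g l hf using h
  have hi : Injective f := fun i j hij => by
    have := (hf i).symm.trans (hij ▸ hf j)
    exact Subtype.ext (Rees.mk_inj.1 this).2.2
  exact ⟨Finite.of_injective f hi, Nat.card_le_card_of_injective f hi⟩

theorem exists_lift {M : RM} {X : Type} (a : X → M.S) {A : Set M.I} {B : Set M.L}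
    (hA : usedI a ⊆ A) (hB : usedL a ⊆ B) :
    ∃ a0 : X → (M.restrict A B).S, ∀ x, M.restrictHom A B (a0 x) = a x := by
  have : ∀ x, ∃ y, M.restrictHom A B y = a x := fun x => by
    rcases Rees.zero_or (a x) with h | ⟨i, g, l, h⟩
    · exact ⟨0, h.symm⟩
    · exact ⟨_, (M.restrictHom_mk A B ⟨i, hA ⟨x, g, l, h⟩⟩ g ⟨l, hB ⟨x, i, g, h⟩⟩).trans h.symm⟩
  exact ⟨fun x => (this x).choose, fun x => (this x).choose_spec⟩

/-- Compression of the index sets. -/
theorem exists_compress {b : Prop} {V : GCls} {M : RM} (hG : V M.G) (hm : MonoR b M.supp)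
    {X : Type} [Finite X] (a : X → M.S) :
    ∃ (M0 : RM) (j : M0.S →ₙ* M.S) (a0 : X → M0.S), M0.Good b V ∧ Nat.card M0.I ≤ Nat.card X ∧
      Nat.card M0.L ≤ Nat.card X ∧ Injective j ∧ j 0 = 0 ∧ ∀ x, j (a0 x) = a x := by
  obtain ⟨a0, h0⟩ := exists_lift a subset_rfl subset_rfl
  exact ⟨M.restrict (usedI a) (usedL a), M.restrictHom _ _, a0,
    ⟨hG, (usedI_card a).1, (usedL_card a).1, restrict_mono hm _ _⟩, (usedI_card a).2,
    (usedL_card a).2, M.restrictHom_injective _ _, rfl, h0⟩

end RM

end Pool.Agent.P.MP_152bd8_lc
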