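import Pool.Agent.P.MP_152bd8_lc.Struct

set_option autoImplicit false
set_option linter.dupNamespace false

namespace Pool.Agent.P.MP_152bd8_lc

open Function

namespace RM

variable {ι : Type} (M : ι → RM)

open Classical in
/-- The quotient of a product by the ideal of tuples with a zero coordinate. -/
noncomputable def smash : RM where
  G := ∀ k, (M k).G
  I := ∀ k, (M k).I
  L := ∀ k, (M k).L
  P := fun l i => if ∀ k, (M k).P (l k) (i k) ≠ none then
    some (fun k => ((M k).P (l k) (i k)).getD 1) else none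

theorem smash_supp (l : (smash M).L) (i : (smash M).I) :
    (smash M).supp l i ↔ ∀ k, (M k).supp (l k) (i k) := by
  simp [supp, smash]

open Classical in
noncomputable def smashFun (s : ∀ k, (M k).S) : (smash M).S :=
  if h : ∀ k, s k ≠ 0 then
    Rees.mk (P := (smash M).P) (fun k => (Rees.exists_of_ne (h k)).choose)
      (fun k => (Rees.exists_of_ne (h k)).choose_spec.choose)
      (fun k => (Rees.exists_of_ne (h k)).choose_spec.choose_spec.choose)
  else 0

variable {M}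

theorem smashFun_zero {s : ∀ k, (M k).S} {k : ι} (h : s k = 0) : smashFun M s = 0 :=
  dif_neg fun h' => h' k h

theorem smashFun_mk (i : ∀ k, (M k).I) (g : ∀ k, (M k).G) (l : ∀ k, (M k).L) :
    smashFun M (fun k => Rees.mk (i k) (g k) (l k)) = Rees.mk (P := (smash M).P) i g l := by
  have h : ∀ k, (Rees.mk (i k) (g k) (l k) : (M k).S) ≠ 0 := fun k => Rees.mk_ne_zero _ _ _
  rw [smashFun, dif_pos h]
  have h2 := fun k => Rees.mk_inj.1 (Rees.exists_of_ne (h k)).choose_spec.choose_spec.choose_spec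
  exact Rees.mk_inj.2 ⟨funext fun k => (h2 k).1.symm, funext fun k => (h2 k).2.1.symm,
    funext fun k => (h2 k).2.2.symm⟩

theorem pi_cases (s : ∀ k, (M k).S) : (∃ k, s k = 0) ∨
    ∃ (i : ∀ k, (M k).I) (g : ∀ k, (M k).G) (l : ∀ k, (M k).L),
      s = fun k => Rees.mk (i k) (g k) (l k) := by
  by_cases h : ∃ k, s k = 0
  · exact Or.inl h
  · push Not at h
    choose i g l hs using fun k => Rees.exists_of_ne (h k)
    exact Or.inr ⟨i, g, l, funext hs⟩

variable (M)

noncomputable def smashHom : (∀ k, (M k).S) →ₙ* (smash M).S where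
  toFun := smashFun M
  map_mul' s t := by
    rcases pi_cases s with ⟨k, hk⟩ | ⟨i, g, l, rfl⟩
    · rw [smashFun_zero hk, smashFun_zero (k := k) (by simp [hk]), zero_mul]
    rcases pi_cases t with ⟨k, hk⟩ | ⟨j, h, m, rfl⟩
    · rw [smashFun_zero hk, smashFun_zero (k := k) (by simp [hk]), mul_zero]
    rw [smashFun_mk, smashFun_mk]
    by_cases hP : ∀ k, (M k).P (l k) (j k) ≠ none
    · choose p hp using fun k => Option.ne_none_iff_exists'.1 (hP k)
      have h1 : (smash M).P l j = some p := by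
        simp only [smash, if_pos hP, hp, Option.getD_some]
      refine Eq.trans ?_ (Rees.mk_mul_some h1).symm
      refine Eq.trans (congrArg _ ?_) (smashFun_mk i (g * p * h) m)
      funext k
      exact Rees.mk_mul_some (hp k)
    · have h1 : (smash M).P l j = none := by simp only [smash, if_neg hP]
      refine Eq.trans ?_ (Rees.mk_mul_none h1).symm
      push Not at hP
      obtain ⟨k, hk⟩ := hP
      exact smashFun_zero (k := k) (Rees.mk_mul_none hk)

variable {M}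

theorem smashHom_ne_zero {s : ∀ k, (M k).S} : smashHom M s ≠ 0 ↔ ∀ k, s k ≠ 0 := by
  refine ⟨fun h k hk => h (smashFun_zero hk), fun h => ?_⟩
  rcases pi_cases s with ⟨k, hk⟩ | ⟨i, g, l, rfl⟩
  · exact absurd hk (h k)
  · exact fun h' => Rees.mk_ne_zero _ _ _ ((smashFun_mk i g l).symm.trans h')

theorem smashHom_inj {s t : ∀ k, (M k).S} (h : smashHom M s = smashHom M t)
    (h0 : smashHom M s ≠ 0) : s = t := by
  rcases pi_cases s with ⟨k, hk⟩ | ⟨i, g, l, rfl⟩
  · exact absurd (smashFun_zero hk) h0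
  rcases pi_cases t with ⟨k, hk⟩ | ⟨j, h', m, rfl⟩
  · exact absurd (h.trans (smashFun_zero hk)) h0
  obtain ⟨rfl, rfl, rfl⟩ :=
    Rees.mk_inj.1 ((smashFun_mk i g l).symm.trans (h.trans (smashFun_mk j h' m)))
  rfl

theorem smashHom_surjective [Nonempty ι] : Surjective (smashHom M) := by
  intro y
  rcases Rees.zero_or y with rfl | ⟨i, g, l, rfl⟩
  · exact ⟨0, smashFun_zero (k := Classical.arbitrary ι) rfl⟩
  · exact ⟨_, smashFun_mk i g l⟩

theorem smash_good {b : Prop} {V : GCls} (hV : IsPseudovariety V) [Finite ι]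
    (h : ∀ k, (M k).Good b V) : (smash M).Good b V := by
  have := fun k => (h k).finI
  have := fun k => (h k).finL
  refine ⟨hV.pi _ fun k => (h k).mem, (inferInstance : Finite (∀ k, (M k).I)),
    (inferInstance : Finite (∀ k, (M k).L)), fun hb => ⟨fun l i i' h1 h2 => ?_,
      fun l l' i h1 h2 => ?_⟩⟩
  · rw [smash_supp] at h1 h2
    exact funext fun k => ((h k).mono hb).1 _ _ _ (h1 k) (h2 k)
  · rw [smash_supp] at h1 h2
    exact funext fun k => ((h k).mono hb).2 _ _ _ (h1 k) (h2 k)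

theorem smash_reg (h : ∀ k, (M k).Reg) : (smash M).Reg := by
  refine ⟨⟨fun k => (h k).1.some⟩, fun i => ?_, fun l => ?_⟩
  · choose l hl using fun k => (h k).2.1 (i k)
    exact ⟨l, (smash_supp M l i).2 hl⟩
  · choose i hi using fun k => (h k).2.2 (l k)
    exact ⟨i, (smash_supp M l i).2 hi⟩

end RM

/-- Nontrivial homomorphic images of members of `Phi` are in `Phi`. -/
theorem phi_H {b : Prop} {V : GCls} (hV : IsPseudovariety V) : Le (opH (Phi b V)) (Phi b V) := by
  rintro T _ hT ⟨U, _, ⟨M, hM, hr, ⟨e⟩⟩, f, hf⟩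
  let φ : M.S →ₙ* T := f.comp (e.symm : M.S →ₙ* U)
  have hφ : Surjective φ := hf.comp e.symm.surjective
  clear_value φ
  have hnz : ∀ x, x ≠ 0 → φ x ≠ φ 0 := by
    intro x hx h0
    have : ∀ t, φ t = φ 0 := fun t => by
      obtain ⟨u, v, rfl⟩ := hr.simple hx t
      rw [map_mul, map_mul, h0, ← map_mul, ← map_mul]; simp
    obtain ⟨s, t, hst⟩ := hT
    obtain ⟨s, rfl⟩ := hφ s
    obtain ⟨t, rfl⟩ := hφ t
    exact hst ((this s).trans (this t).symm)
  have hnz' : ∀ x y, x ≠ 0 → φ x = φ y → y ≠ 0 := fun x y hx h hy => hnz x hx (hy ▸ h)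
  let sI : Setoid M.I :=
    { r := fun i i' => ∃ c, ∀ h m, φ (Rees.mk i h m) = φ (Rees.mk i' (c * h) m)
      iseqv := ⟨fun i => ⟨1, by simp⟩, fun ⟨c, hc⟩ => ⟨c⁻¹, fun h m => by rw [hc]; simp⟩,
        fun ⟨c, hc⟩ ⟨d, hd⟩ => ⟨d * c, fun h m => by rw [hc, hd, mul_assoc]⟩⟩ }
  let sL : Setoid M.L :=
    { r := fun l l' => ∃ c, ∀ h i, φ (Rees.mk i h l) = φ (Rees.mk i (h * c) l')
      iseqv := ⟨fun i => ⟨1, by simp⟩, fun ⟨c, hc⟩ => ⟨c⁻¹, fun h m => by rw [hc]; simp⟩,
        fun ⟨c, hc⟩ ⟨d, hd⟩ => ⟨c * d, fun h m => by rw [hc, hd, mul_assoc]⟩⟩ }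
  have hI : ∀ i g l i' g' l', φ (Rees.mk i g l) = φ (Rees.mk i' g' l') → sI i i' := by
    intro i g l i' g' l' h
    obtain ⟨j, p, hp⟩ := hr.row l
    have h1 : ∀ k m, φ (Rees.mk i (g * p * k) m) = φ (Rees.mk i' g' l' * Rees.mk j k m) :=
      fun k m => by rw [map_mul, ← h, ← map_mul, Rees.mk_mul_some hp]
    obtain ⟨p', hp'⟩ := Option.ne_none_iff_exists'.1
      (Rees.mk_mul_ne_zero.1 (hnz' _ _ (Rees.mk_ne_zero _ _ _) (h1 1 l)))
    refine ⟨g' * p' * (g * p)⁻¹, fun k m => ?_⟩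
    have := h1 ((g * p)⁻¹ * k) m
    rw [Rees.mk_mul_some hp'] at this
    simpa [mul_assoc] using this
  have hL : ∀ i g l i' g' l', φ (Rees.mk i g l) = φ (Rees.mk i' g' l') → sL l l' := by
    intro i g l i' g' l' h
    obtain ⟨m, p, hp⟩ := hr.col i
    have h1 : ∀ k j, φ (Rees.mk j (k * p * g) l) = φ (Rees.mk j k m * Rees.mk i' g' l') :=
      fun k j => by rw [map_mul, ← h, ← map_mul, Rees.mk_mul_some hp]
    obtain ⟨p', hp'⟩ := Option.ne_none_iff_exists'.1
      (Rees.mk_mul_ne_zero.1 (hnz' _ _ (Rees.mk_ne_zero _ _ _) (h1 1 i)))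
    refine ⟨(p * g)⁻¹ * (p' * g'), fun k j => ?_⟩
    have := h1 (k * (p * g)⁻¹) j
    rw [Rees.mk_mul_some hp'] at this
    simpa [mul_assoc] using this
  let N : Subgroup M.G :=
    { carrier := {n | ∀ i h h' l, φ (Rees.mk i (h * n * h') l) = φ (Rees.mk i (h * h') l)}
      one_mem' := by simp
      mul_mem' := fun {x y} hx hy i h h' l => by
        rw [← hy i h h' l, mul_assoc h y h', ← hx i h (y * h') l]; simp [mul_assoc]
      inv_mem' := fun {x} hx i h h' l => by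
        rw [← hx i (h * x⁻¹) h' l]; simp [mul_assoc] }
  have hNn : N.Normal := ⟨fun n hn g i h h' l => by
    have := hn i (h * g) (g⁻¹ * h') l
    simpa [mul_assoc] using this⟩
  have hN : ∀ i g g' l, φ (Rees.mk i g l) = φ (Rees.mk i g' l) → g⁻¹ * g' ∈ N := by
    intro i g g' l h j k k' m
    obtain ⟨n, p, hp⟩ := hr.col i
    obtain ⟨i2, p', hp'⟩ := hr.row l
    have h1 : ∀ x, φ (Rees.mk j (k * (p * g)⁻¹ * p * x * p' * (p'⁻¹ * k')) m) =
        φ (Rees.mk j (k * (p * g)⁻¹) n) * φ (Rees.mk i x l) * φ (Rees.mk i2 (p'⁻¹ * k') m) :=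
      fun x => by rw [← map_mul, ← map_mul, Rees.mk_mul_some hp, Rees.mk_mul_some hp']
    have h2 := (h1 g').trans (h ▸ (h1 g).symm)
    simpa [mul_assoc] using h2
  let M1 : RM := ⟨M.G, Quotient sI, Quotient sL, fun l i => M.P l.out i.out⟩
  let M2 : RM := ⟨M.G ⧸ N, Quotient sI, Quotient sL,
    fun l i => (M.P l.out i.out).map (QuotientGroup.mk' N)⟩
  let j : M1.S →ₙ* M.S := Rees.map0 (P := M1.P) (P' := M.P) Quotient.out Quotient.out
    (MonoidHom.id M.G) (fun l i => map_id_hom _)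
  have hj : ∀ i g l, j (Rees.mk (P := M1.P) i g l) = Rees.mk i.out g l.out :=
    fun _ _ _ => Rees.map0_mk _ _ _ _ _ _ _
  let π : M1.S →ₙ* M2.S := Rees.map0 (P := M1.P) (P' := M2.P) id id (QuotientGroup.mk' N)
    (fun l i => rfl)
  have hπmk : ∀ i g l, π (Rees.mk (P := M1.P) i g l) = Rees.mk (P := M2.P) i (g : M.G ⧸ N) l :=
    fun _ _ _ => Rees.map0_mk _ _ _ _ _ _ _
  have hπ : Surjective π :=
    Rees.map0_surjective surjective_id surjective_id (QuotientGroup.mk'_surjective N)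
  have hker : ∀ x y, π x = π y ↔ φ (j x) = φ (j y) := by
    intro x y
    rcases Rees.zero_or x with rfl | ⟨i, g, l, rfl⟩ <;>
      rcases Rees.zero_or y with rfl | ⟨i', g', l', rfl⟩
    · simp
    · rw [hπmk, hj]
      exact iff_of_false (Rees.zero_ne_mk _ _ _) (hnz _ (Rees.mk_ne_zero _ _ _)).symm
    · rw [hπmk, hj]
      exact iff_of_false (Rees.mk_ne_zero _ _ _) (hnz _ (Rees.mk_ne_zero _ _ _))
    · rw [hπmk, hπmk, hj, hj, Rees.mk_inj]
      constructor
      · rintro ⟨rfl, h, rfl⟩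
        have := QuotientGroup.eq.1 h i.out g 1 l.out
        simpa using this.symm
      · intro h
        obtain rfl : i = i' := Quotient.out_equiv_out.1 (hI _ _ _ _ _ _ h)
        obtain rfl : l = l' := Quotient.out_equiv_out.1 (hL _ _ _ _ _ _ h)
        exact ⟨rfl, QuotientGroup.eq.2 (hN _ _ _ _ h), rfl⟩
  obtain ⟨ψ, hψ⟩ := exists_lift_surj π hπ (φ.comp j) (fun x y h => (hker x y).1 h)
  have hψb : Bijective ψ := by
    constructor
    · intro x y h
      obtain ⟨x, rfl⟩ := hπ x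
      obtain ⟨y, rfl⟩ := hπ y
      rw [hψ, hψ] at h
      exact (hker x y).2 h
    · intro t
      obtain ⟨x, rfl⟩ := hφ t
      rcases Rees.zero_or x with rfl | ⟨i, g, l, rfl⟩
      · exact ⟨π 0, hψ 0⟩
      · obtain ⟨c, hc⟩ := sI.symm (Quotient.mk_out (s := sI) i)
        obtain ⟨d, hd⟩ := sL.symm (Quotient.mk_out (s := sL) l)
        refine ⟨π (Rees.mk (P := M1.P) ⟦i⟧ (c * g * d) ⟦l⟧), ?_⟩
        rw [hψ, hc, hd]
        exact congrArg φ (hj _ _ _)
  have := hM.finI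
  have := hM.finL
  have hs : ∀ l i, M2.supp l i ↔ M.supp l.out i.out := fun l i => by simp [RM.supp, M2]
  refine ⟨M2, ⟨hV.quot _ _ _ (QuotientGroup.mk'_surjective N) hM.mem,
    (inferInstance : Finite (Quotient sI)), (inferInstance : Finite (Quotient sL)),
    hM.mono.comap Quotient.out_injective Quotient.out_injective fun l i => (hs l i).1⟩,
    ⟨⟨⟦hr.1.some⟧⟩, fun i => ?_, fun l => ?_⟩, ⟨(MulEquiv.ofBijective ψ hψb).symm⟩⟩
  · obtain ⟨l, p, hp⟩ := hr.col i.out
    obtain ⟨d, hd⟩ := sL.symm (Quotient.mk_out (s := sL) l)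
    refine ⟨⟦l⟧, (hs _ _).2 (Rees.mk_mul_ne_zero.1 (hnz' (Rees.mk i.out 1 l * Rees.mk i.out 1 l)
      (Rees.mk i.out (1 * d) _ * Rees.mk i.out 1 l) (by simp [Rees.mk_mul_some hp]) ?_))⟩
    rw [map_mul, map_mul, ← hd]
  · obtain ⟨i, p, hp⟩ := hr.row l.out
    obtain ⟨c, hc⟩ := sI.symm (Quotient.mk_out (s := sI) i)
    refine ⟨⟦i⟧, (hs _ _).2 (Rees.mk_mul_ne_zero.1 (hnz' (Rees.mk i 1 l.out * Rees.mk i 1 l.out)
      (Rees.mk i 1 l.out * Rees.mk _ (c * 1) l.out) (by simp [Rees.mk_mul_some hp]) ?_))⟩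
    rw [map_mul, map_mul, ← hc]

end Pool.Agent.P.MP_152bd8_lc
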