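import Pool.Agent.P.MP_152bd8_lc.Rees

set_option autoImplicit false
set_option linter.dupNamespace false

namespace Pool.Agent.P.MP_152bd8_lc

open Function

theorem exists_factor {T U S : Type} [Mul T] [Mul U] [Mul S] (f : T →ₙ* S) (ψ : U →ₙ* S)
    (hψ : Injective ψ) (h : ∀ t, ∃ u, ψ u = f t) : ∃ φ : T →ₙ* U, ∀ t, ψ (φ t) = f t := by
  choose φ hφ using h
  exact ⟨⟨φ, fun a b => hψ (by simp [hφ])⟩, hφ⟩

theorem exists_lift_surj {B B' T : Type} [Mul B] [Mul B'] [Mul T] (π : B →ₙ* B')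
    (hπ : Surjective π) (φ : B →ₙ* T) (h : ∀ x y, π x = π y → φ x = φ y) :
    ∃ φ' : B' →ₙ* T, ∀ x, φ' (π x) = φ x := by
  have h1 : ∀ x, φ (surjInv hπ (π x)) = φ x := fun x => h _ _ (surjInv_eq hπ _)
  refine ⟨⟨fun y => φ (surjInv hπ y), fun x y => ?_⟩, h1⟩
  obtain ⟨x, rfl⟩ := hπ x
  obtain ⟨y, rfl⟩ := hπ y
  rw [← map_mul, h1, h1, h1, map_mul]

theorem Rees.map_surjective {G I L : Type} {P : L → I → Option G} [Group G]
    {G' I' L' : Type} [Group G'] {P' : L' → I' → Option G'}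
    {f : I → I'} {g : L → L'} {π : G →* G'} {a : I → G'} {c : L → G'}
    {h : ∀ l i, P' (g l) (f i) = (P l i).map fun p => (c l)⁻¹ * π p * (a i)⁻¹}
    (hf : Surjective f) (hg : Surjective g) (hπ : Surjective π) :
    Surjective (Rees.map f g π a c h) := by
  intro y
  cases y with
  | zero => exact ⟨0, rfl⟩
  | mk i x l =>
    obtain ⟨i, rfl⟩ := hf i
    obtain ⟨l, rfl⟩ := hg l
    obtain ⟨y, hy⟩ := hπ ((a i)⁻¹ * x * (c l)⁻¹)
    exact ⟨Rees.mk i y l, by simp [hy, mul_assoc]⟩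

theorem Rees.mk_mul_mul_mk {G I L : Type} {P : L → I → Option G} [Group G] {i j : I} {g h : G}
    {l m : L} {y : Rees P} (hy : Rees.mk i g l * y * Rees.mk j h m ≠ 0) :
    ∃ g', Rees.mk i g l * y * Rees.mk j h m = Rees.mk i g' m := by
  have h1 := left_ne_zero_of_mul hy
  obtain ⟨k, a, n, rfl⟩ := Rees.exists_of_ne (right_ne_zero_of_mul h1)
  obtain ⟨p, hp⟩ := Option.ne_none_iff_exists'.1 (Rees.mk_mul_ne_zero.1 h1)
  rw [Rees.mk_mul_some hp] at hy ⊢
  obtain ⟨p', hp'⟩ := Option.ne_none_iff_exists'.1 (Rees.mk_mul_ne_zero.1 hy)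
  exact ⟨_, Rees.mk_mul_some hp'⟩

/-- An element-wise form of 0-simplicity. -/
def Intr (T : Type) [Semigroup T] : Prop :=
  ∃ z : T, (∀ a, z * a = z ∧ a * z = z) ∧ (∃ s, s ≠ z) ∧ ∀ s, s ≠ z → ∀ t, ∃ u v, u * s * v = t

theorem intr_iff {T : Type} [Semigroup T] : Intr T ↔ IsZeroSimple T := by
  constructor
  · rintro ⟨z, hz, ⟨s, hs⟩, h⟩
    refine ⟨z, hz, ?_, fun J hJ hI => ?_⟩
    · obtain ⟨u, v, huv⟩ := h s hs s
      exact ⟨u * s, v, by rw [huv]; exact hs⟩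
    · by_cases h1 : ∃ x ∈ J, x ≠ z
      · obtain ⟨x, hx, hxz⟩ := h1
        refine Or.inr (Set.eq_univ_of_forall fun t => ?_)
        obtain ⟨u, v, rfl⟩ := h x hxz t
        exact (hI _ (hI x hx u).1 v).2
      · push Not at h1
        exact Or.inl (hJ.subset_singleton_iff.1 h1)
  · rintro ⟨z, hz, ⟨a, b, hab⟩, h⟩
    refine ⟨z, hz, ⟨_, hab⟩, fun s hs => ?_⟩
    rcases h {t | ∃ u v, u * s * v = t} ⟨_, s, s, rfl⟩ (by
      rintro _ ⟨u, v, rfl⟩ x
      exact ⟨⟨x * u, v, by simp only [mul_assoc]⟩, ⟨u, v * x, by simp only [mul_assoc]⟩⟩)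
      with h1 | h1
    · exfalso
      have h2 : ∀ u v, u * s * v = z := fun u v => (Set.ext_iff.1 h1 _).1 ⟨u, v, rfl⟩
      have h3 : ∀ x u v, u * x * v = z := by
        rcases h {x | ∀ u v, u * x * v = z} ⟨s, h2⟩ (by
          intro x hx y
          exact ⟨fun u v => by simpa only [mul_assoc] using hx (u * y) v,
            fun u v => by simpa only [mul_assoc] using hx u (y * v)⟩) with h3 | h3
        · exact absurd ((Set.ext_iff.1 h3 s).1 h2) hs
        · exact fun x => (Set.ext_iff.1 h3 x).2 trivial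
      rcases h {x | ∃ u v, u * v = x} ⟨_, a, b, rfl⟩ (by
        rintro _ ⟨u, v, rfl⟩ y
        exact ⟨⟨_, _, rfl⟩, ⟨_, _, rfl⟩⟩) with h4 | h4
      · exact hab ((Set.ext_iff.1 h4 _).1 ⟨a, b, rfl⟩)
      · obtain ⟨u, v, rfl⟩ := (Set.ext_iff.1 h4 a).2 trivial
        exact hab (h3 _ _ _)
    · exact fun t => (Set.ext_iff.1 h1 t).2 trivial

theorem Phi.intr {b : Prop} {V : GCls} {T : Type} [Semigroup T] (h : Phi b V T) : Intr T := by
  obtain ⟨M, -, hr, ⟨e⟩⟩ := h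
  obtain ⟨l, i, p, hp⟩ := hr.base
  refine ⟨e.symm 0, fun a => ⟨e.injective (by simp), e.injective (by simp)⟩,
    ⟨e.symm (Rees.mk i 1 l), fun h => by simpa using e.symm.injective h⟩, fun s hs t => ?_⟩
  obtain ⟨u, v, huv⟩ := hr.simple (x := e s) (fun h => hs (by rw [← h]; simp)) (e t)
  exact ⟨e.symm u, e.symm v, e.injective (by simpa using huv)⟩

theorem phi_of_intr {b : Prop} {V : GCls} (hV : IsPseudovariety V) {M : RM} (hG : V M.G)
    (hm : MonoR b M.supp) {T : Type} [Semigroup T] [Finite T] (f : T →ₙ* M.S) (hf : Injective f)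
    (hT : Intr T) : Phi b V T := by
  classical
  have := hV.finite _ hG
  obtain ⟨z, hz, ⟨s0, hs0⟩, hT⟩ := hT
  have hfz : f z = 0 := by
    rcases Rees.zero_or (f z) with h | ⟨i, g, l, h⟩
    · exact h
    exfalso
    have h1 : f s0 * f z = f z := by rw [← map_mul, (hz s0).2]
    have h2 : f z * f s0 = f z := by rw [← map_mul, (hz s0).1]
    have h3 : f z * f z = f z := by rw [← map_mul, (hz z).1]
    obtain ⟨i', g', l', h'⟩ := Rees.exists_of_ne (x := f s0) (fun h0 => by simp [h0, h] at h1)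
    rw [h] at h1 h2 h3
    rw [h'] at h1 h2
    obtain ⟨p, hp⟩ := Option.ne_none_iff_exists'.1 (Rees.mk_mul_ne_zero.1 (h1 ▸ Rees.mk_ne_zero _ _ _))
    obtain ⟨p', hp'⟩ :=
      Option.ne_none_iff_exists'.1 (Rees.mk_mul_ne_zero.1 (h2 ▸ Rees.mk_ne_zero _ _ _))
    rw [Rees.mk_mul_some hp, Rees.mk_inj] at h1
    rw [Rees.mk_mul_some hp', Rees.mk_inj] at h2
    obtain ⟨rfl, h1, -⟩ := h1
    obtain ⟨-, -, rfl⟩ := h2
    rw [Rees.mk_mul_some hp, Rees.mk_inj] at h3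
    apply hs0
    apply hf
    rw [h, h', mul_right_cancel (mul_right_cancel (h1.trans h3.2.1.symm))]
  have hne : ∀ t, f t ≠ 0 ↔ t ≠ z := fun t => not_congr ⟨fun h => hf (h.trans hfz.symm),
    fun h => h ▸ hfz⟩
  have hcell : ∀ i ∈ RM.usedI f, ∀ l ∈ RM.usedL f, ∃ t g, f t = Rees.mk i g l := by
    rintro i ⟨s, g, l', hs⟩ l ⟨t, i', g', ht⟩
    have hs' : s ≠ z := (hne s).1 (by simp [hs])
    have ht' : t ≠ z := (hne t).1 (by simp [ht])
    obtain ⟨u, v, h1⟩ := hT s hs' s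
    obtain ⟨u2, v2, rfl⟩ := hT t ht' v
    have h2 : f s * f u2 * f t ≠ 0 := fun h0 => (hne s).2 hs' (by
      have : f s = f u * (f s * f u2 * f t) * f v2 := by
        conv_lhs => rw [← h1]
        simp only [map_mul, mul_assoc]
      rw [this, h0]; simp)
    refine ⟨s * u2 * t, ?_⟩
    rw [map_mul, map_mul]
    rw [hs, ht] at h2 ⊢
    exact Rees.mk_mul_mul_mk h2
  have hcol : ∀ i ∈ RM.usedI f, ∃ l ∈ RM.usedL f, ∃ p, M.P l i = some p := by
    rintro i ⟨s, g, l', hs⟩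
    have hs' : s ≠ z := (hne s).1 (by simp [hs])
    obtain ⟨u, v, h1⟩ := hT s hs' s
    have h2 : f u * f s ≠ 0 := fun h0 => (hne s).2 hs' (by
      rw [← h1, map_mul, map_mul, h0, zero_mul])
    obtain ⟨j, h, m, hu⟩ := Rees.exists_of_ne (left_ne_zero_of_mul h2)
    rw [hu, hs] at h2
    exact ⟨m, ⟨u, j, h, hu⟩, Option.ne_none_iff_exists'.1 (Rees.mk_mul_ne_zero.1 h2)⟩
  have hrow : ∀ l ∈ RM.usedL f, ∃ i ∈ RM.usedI f, ∃ p, M.P l i = some p := by
    rintro l ⟨s, i', g, hs⟩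
    have hs' : s ≠ z := (hne s).1 (by simp [hs])
    obtain ⟨u, v, h1⟩ := hT s hs' s
    have h2 : f s * f v ≠ 0 := fun h0 => (hne s).2 hs' (by
      rw [← h1, mul_assoc, map_mul, map_mul, h0, mul_zero])
    obtain ⟨j, h, m, hu⟩ := Rees.exists_of_ne (right_ne_zero_of_mul h2)
    rw [hu, hs] at h2
    exact ⟨j, ⟨v, h, m, hu⟩, Option.ne_none_iff_exists'.1 (Rees.mk_mul_ne_zero.1 h2)⟩
  obtain ⟨i0, g0, l1, h0⟩ := Rees.exists_of_ne ((hne s0).2 hs0)
  have hi0 : i0 ∈ RM.usedI f := ⟨s0, g0, l1, h0⟩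
  obtain ⟨l0, hl0, p0, hp0⟩ := hcol i0 hi0
  have hmul : ∀ g h : M.G, (∃ t, f t = Rees.mk i0 (g * p0⁻¹) l0) →
      (∃ t, f t = Rees.mk i0 (h * p0⁻¹) l0) → ∃ t, f t = Rees.mk i0 (g * h * p0⁻¹) l0 := by
    rintro g h ⟨t, ht⟩ ⟨t', ht'⟩
    refine ⟨t * t', ?_⟩
    rw [map_mul, ht, ht', Rees.mk_mul_some hp0]
    congr 1; group
  have hpow : ∀ g : M.G, (∃ t, f t = Rees.mk i0 (g * p0⁻¹) l0) →
      ∀ n, ∃ t, f t = Rees.mk i0 (g ^ (n + 1) * p0⁻¹) l0 := by
    intro g hg n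
    induction n with
    | zero => simpa using hg
    | succ n ih => rw [pow_succ]; exact hmul _ _ ih hg
  let H : Subgroup M.G :=
    { carrier := {g | ∃ t, f t = Rees.mk i0 (g * p0⁻¹) l0}
      mul_mem' := fun {g h} => hmul g h
      one_mem' := by
        obtain ⟨t, g, ht⟩ := hcell i0 hi0 l0 hl0
        have := hpow (g * p0) ⟨t, by simpa using ht⟩ (orderOf (g * p0) - 1)
        rwa [Nat.sub_add_cancel (orderOf_pos _), pow_orderOf_eq_one] at this
      inv_mem' := fun {g} hg => by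
        have := hpow g hg (2 * orderOf g - 2)
        have h1 := orderOf_pos g
        have h2 : g ^ (2 * orderOf g - 2 + 1) = g⁻¹ := by
          refine eq_inv_of_mul_eq_one_left ?_
          rw [← pow_succ, show 2 * orderOf g - 2 + 1 + 1 = orderOf g * 2 by omega, pow_mul,
            pow_orderOf_eq_one, one_pow]
        rwa [h2] at this }
  have ha : ∀ i : RM.usedI f, ∃ t a, f t = Rees.mk i.1 (a * p0⁻¹) l0 := fun i => by
    obtain ⟨t, g, ht⟩ := hcell i.1 i.2 l0 hl0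
    exact ⟨t, g * p0, by simpa using ht⟩
  choose ta a ha using ha
  choose tc c hc using fun l : RM.usedL f => hcell i0 hi0 l.1 l.2
  have hmem : ∀ (l : RM.usedL f) (i : RM.usedI f) p, M.P l.1 i.1 = some p → c l * p * a i ∈ H := by
    intro l i p hp
    refine ⟨tc l * ta i, ?_⟩
    rw [map_mul, hc, ha, Rees.mk_mul_some hp]
    congr 1; group
  let M' : RM :=
    { G := H
      I := RM.usedI f
      L := RM.usedL f
      P := fun l i => (M.P l.1 i.1).map fun p =>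
        if h : c l * p * a i ∈ H then ⟨_, h⟩ else 1 }
  have hsupp : ∀ l i, M'.supp l i ↔ M.supp l.1 i.1 := fun l i => by simp [RM.supp, M']
  let ψ : M'.S →ₙ* M.S := Rees.map (P := M'.P) (P' := M.P) Subtype.val Subtype.val H.subtype a c
    (fun l i => by
      rcases hp : M.P l.1 i.1 with _ | p
      · simp [M', hp]
      · have := hmem l i p hp
        simp only [M', hp, Option.map_some, dif_pos this]
        simp [mul_assoc])
  have hψ : Injective ψ :=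
    Rees.map_injective Subtype.val_injective Subtype.val_injective H.subtype_injective
  have hψmk : ∀ i (h : H) l, ψ (Rees.mk (P := M'.P) i h l) = Rees.mk i.1 (a i * h * c l) l.1 :=
    fun _ _ _ => rfl
  obtain ⟨φ, hφ⟩ := exists_factor f ψ hψ (fun t => by
    rcases Rees.zero_or (f t) with h | ⟨i, g, l, h⟩
    · exact ⟨0, h.symm⟩
    · have hi : i ∈ RM.usedI f := ⟨t, g, l, h⟩
      have hl : l ∈ RM.usedL f := ⟨t, i, g, h⟩
      obtain ⟨m, hm, p1, hp1⟩ := hcol i hi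
      obtain ⟨j, hj, p2, hp2⟩ := hrow l hl
      have h1 := hmem ⟨m, hm⟩ ⟨i, hi⟩ p1 hp1
      have h2 := hmem ⟨l, hl⟩ ⟨j, hj⟩ p2 hp2
      have h3 : c ⟨m, hm⟩ * p1 * g * p2 * a ⟨j, hj⟩ ∈ H := by
        refine ⟨tc ⟨m, hm⟩ * t * ta ⟨j, hj⟩, ?_⟩
        rw [map_mul, map_mul, hc, ha, h, Rees.mk_mul_some hp1, Rees.mk_mul_some hp2]
        congr 1; group
      refine ⟨Rees.mk (P := M'.P) ⟨i, hi⟩ ⟨_, H.mul_mem (H.mul_mem (H.inv_mem h1) h3)
        (H.inv_mem h2)⟩ ⟨l, hl⟩, ?_⟩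
      rw [hψmk, h]
      congr 1; group)
  have hφb : Bijective φ := by
    refine ⟨fun x y h => hf (by rw [← hφ, ← hφ, h]), fun y => ?_⟩
    rcases Rees.zero_or y with rfl | ⟨i, ⟨h, t, ht⟩, l, rfl⟩
    · exact ⟨z, hψ (by rw [hφ, hfz]; rfl)⟩
    · refine ⟨ta i * t * tc l, hψ ?_⟩
      rw [hφ, hψmk, map_mul, map_mul, ha, hc, ht, Rees.mk_mul_some hp0, Rees.mk_mul_some hp0]
      congr 1; group
  refine ⟨M', ⟨hV.subgroup H hG, (RM.usedI_card f).1, (RM.usedL_card f).1,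
    hm.comap Subtype.val_injective Subtype.val_injective fun l i => (hsupp l i).1⟩,
    ⟨⟨⟨i0, hi0⟩⟩, fun i => ?_, fun l => ?_⟩, ⟨MulEquiv.ofBijective φ hφb⟩⟩
  · obtain ⟨l, hl, p, hp⟩ := hcol i.1 i.2
    exact ⟨⟨l, hl⟩, (hsupp _ _).2 (by simp [RM.supp, hp])⟩
  · obtain ⟨i, hi, p, hp⟩ := hrow l.1 l.2
    exact ⟨⟨i, hi⟩, (hsupp _ _).2 (by simp [RM.supp, hp])⟩

theorem isRees_iff {S : Type} [Semigroup S] {G I L : Type} [Group G] {P : L → I → Option G} :
    IsRees S P ↔ Nonempty (S ≃* Rees P) :=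
  ⟨fun ⟨e, he⟩ => ⟨{ e with map_mul' := he }⟩, fun ⟨e⟩ => ⟨e.toEquiv, e.map_mul⟩⟩

theorem zeroSimpleOver_eq {V : GCls} (hV : IsPseudovariety V) :
    ZeroSimpleOver V = Phi False V := by
  funext S _
  apply propext
  constructor
  · rintro ⟨h, G, I, L, _, P, hG, _, _, hR⟩
    obtain ⟨e⟩ := isRees_iff.1 hR
    have := hV.finite G hG
    have : Finite S := Finite.of_equiv _ e.symm.toEquiv
    exact phi_of_intr hV (M := ⟨G, I, L, P⟩) hG (fun h => h.elim) (e : S →ₙ* Rees P) e.injective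
      (intr_iff.2 h)
  · intro h
    refine ⟨intr_iff.1 h.intr, ?_⟩
    obtain ⟨M, hM, -, he⟩ := h
    exact ⟨M.G, M.I, M.L, inferInstance, M.P, hM.mem, hM.finI, hM.finL, isRees_iff.2 he⟩

theorem brandtOver_eq {V : GCls} : BrandtOver V = Phi True V := by
  classical
  funext S _
  apply propext
  constructor
  · rintro ⟨G, I, _, _, hG, hI, hne, hR⟩
    refine ⟨⟨G, I, I, fun l i => if l = i then some 1 else none⟩, ⟨hG, hI, hI, fun _ => ?_⟩,
      ⟨hne, fun i => ⟨i, by simp [RM.supp]⟩, fun i => ⟨i, by simp [RM.supp]⟩⟩, isRees_iff.1 hR⟩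
    simp only [RM.supp]
    grind
  · rintro ⟨M, hM, hr, ⟨e⟩⟩
    choose σ p hp using hr.col
    obtain ⟨h1, h2⟩ := hM.mono trivial
    have hs : ∀ i, M.supp (σ i) i := fun i => by simp [RM.supp, hp]
    have hσi : Injective σ := fun i j h => h1 (σ i) i j (hs i) (h ▸ hs j)
    have hσs : Surjective σ := fun l => by
      obtain ⟨i, hi⟩ := hr.2.2 l
      exact ⟨i, h2 _ _ i (hs i) hi⟩
    let ψ : Rees (fun l i : M.I => if l = i then some (1 : M.G) else none) →ₙ* M.S :=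
      Rees.map id σ (MonoidHom.id _) (fun _ => 1) (fun j => (p j)⁻¹) (fun l i => by
        by_cases h : l = i
        · simp [h, hp]
        · simp only [h, if_false, id, Option.map_none]
          by_contra h3
          exact h (h1 _ _ _ (hs l) h3))
    have hψ : Bijective ψ := ⟨Rees.map_injective injective_id hσi injective_id,
      Rees.map_surjective surjective_id hσs surjective_id⟩
    exact ⟨M.G, M.I, inferInstance, inferInstance, hM.mem, hM.finI, hr.1,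
      isRees_iff.2 ⟨e.trans (MulEquiv.ofBijective ψ hψ).symm⟩⟩

theorem phi_isoClosed {b : Prop} {V : GCls} : IsoClosed (Phi b V) := by
  rintro S T _ _ e ⟨M, h1, h2, ⟨f⟩⟩
  exact ⟨M, h1, h2, ⟨e.symm.trans f⟩⟩

end Pool.Agent.P.MP_152bd8_lc
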