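import Pool.Agent.P.MP_152bd8_lc.Smash
import Pool.Agent.P.MP_152bd8_lc.Graph

set_option autoImplicit false
set_option linter.dupNamespace false

namespace Pool.Agent.P.MP_152bd8_lc

open Function

section words
variable {X S T : Type} [Semigroup S] [Semigroup T]

/-- The value of a word in the monoid obtained by adjoining an identity. -/
def ev (f : X → S) (w : List X) : WithOne S := lab (fun x => (f x : WithOne S)) w

@[simp] theorem ev_nil (f : X → S) : ev f [] = 1 := rfl
@[simp] theorem ev_cons (f : X → S) (x : X) (w : List X) : ev f (x :: w) = f x * ev f w :=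
  lab_cons _ _ _
@[simp] theorem ev_append (f : X → S) (u v : List X) : ev f (u ++ v) = ev f u * ev f v :=
  lab_append _ _ _

variable [Inhabited X]

/-- The value of a nonempty word. -/
def val (f : X → S) : List X → S
  | [] => f default
  | [x] => f x
  | x :: y :: l => f x * val f (y :: l)

@[simp] theorem val_single (f : X → S) (x : X) : val f [x] = f x := rfl
@[simp] theorem val_cons_cons (f : X → S) (x y : X) (l : List X) :
    val f (x :: y :: l) = f x * val f (y :: l) := rfl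

theorem val_cons (f : X → S) (x : X) {l : List X} (h : l ≠ []) :
    val f (x :: l) = f x * val f l := by
  cases l with
  | nil => exact absurd rfl h
  | cons y l => rfl

theorem coe_val (f : X → S) {w : List X} (h : w ≠ []) :
    ((val f w : S) : WithOne S) = ev f w := by
  induction w with
  | nil => exact absurd rfl h
  | cons x l ih =>
    cases l with
    | nil => simp
    | cons y l => rw [val_cons_cons, WithOne.coe_mul, ih (by simp), ev_cons f x]

theorem val_append (f : X → S) {u v : List X} (hu : u ≠ []) (hv : v ≠ []) :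
    val f (u ++ v) = val f u * val f v := by
  apply WithOne.coe_injective
  rw [WithOne.coe_mul, coe_val f hu, coe_val f hv, coe_val f (by simp [hu]), ev_append]

theorem map_val (φ : S →ₙ* T) (f : X → S) (w : List X) :
    φ (val f w) = val (fun x => φ (f x)) w := by
  induction w with
  | nil => rfl
  | cons x l ih =>
    cases l with
    | nil => rfl
    | cons y l => rw [val_cons_cons, map_mul, ih, val_cons_cons]

theorem val_apply {ι : Type} {A : ι → Type} [∀ i, Semigroup (A i)] (f : X → ∀ i, A i)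
    (w : List X) (i : ι) : val f w i = val (fun x => f x i) w :=
  map_val (Pi.evalMulHom A i) f w

theorem val_eq_of_ev {f : X → S} {u v : List X} (hu : u ≠ []) (hv : v ≠ [])
    (h : ev f u = ev f v) : val f u = val f v :=
  WithOne.coe_inj.1 (by rw [coe_val f hu, coe_val f hv, h])

/-- The subsemigroup generated by the letters. -/
def Gen (f : X → S) : Subsemigroup S where
  carrier := {s | ∃ w, w ≠ [] ∧ val f w = s}
  mul_mem' := by
    rintro _ _ ⟨u, hu, rfl⟩ ⟨v, hv, rfl⟩
    exact ⟨u ++ v, by simp [hu], val_append f hu hv⟩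

def gen (f : X → S) (x : X) : Gen f := ⟨f x, [x], by simp, rfl⟩

theorem coe_val_gen (f : X → S) (w : List X) : ((val (gen f) w : Gen f) : S) = val f w :=
  map_val (MulMemClass.subtype (Gen f)) (gen f) w

theorem exists_word {f : X → S} (s : Gen f) : ∃ w, w ≠ [] ∧ val (gen f) w = s := by
  obtain ⟨s, w, hw, rfl⟩ := s
  exact ⟨w, hw, Subtype.ext (coe_val_gen f w)⟩

theorem val_gen_eq_iff {f : X → S} {u v : List X} :
    val (gen f) u = val (gen f) v ↔ val f u = val f v := by
  rw [Subtype.ext_iff, coe_val_gen, coe_val_gen]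

theorem exists_hom_gen (a : X → S) (f : X → T)
    (h : ∀ w w', w ≠ [] → w' ≠ [] → val a w = val a w' → val f w = val f w') :
    ∃ ψ : Gen a →ₙ* T, ∀ x, ψ (gen a x) = f x := by
  choose wd h1 h2 using fun s : Gen a => exists_word s
  have h3 : ∀ w, w ≠ [] → val f (wd (val (gen a) w)) = val f w := fun w hw =>
    h _ _ (h1 _) hw (val_gen_eq_iff.1 (h2 _))
  refine ⟨⟨fun s => val f (wd s), fun s t => ?_⟩, fun x => h3 [x] (by simp)⟩
  conv_lhs => rw [← h2 s, ← h2 t, ← val_append _ (h1 s) (h1 t), h3 _ (by simp [h1 s])]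
  exact val_append _ (h1 s) (h1 t)

end words

section zero
variable {X : Type} [Inhabited X]

/-- Patterns of zero letters and zero products of two letters. -/
abbrev ZT (X : Type) := (X → X → Prop) × (X → Prop)

def NZ (j : ZT X) : List X → Prop
  | [] => True
  | [x] => j.2 x
  | x :: y :: l => j.1 x y ∧ NZ j (y :: l)

def zt {M : RM} (a : X → M.S) : ZT X := (fun s t => a s * a t ≠ 0, fun x => a x ≠ 0)

theorem val_ne_zero_iff {M : RM} (a : X → M.S) {w : List X} (hw : w ≠ []) :
    val a w ≠ 0 ↔ NZ (zt a) w := by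
  induction w with
  | nil => exact absurd rfl hw
  | cons x l ih =>
    cases l with
    | nil => rfl
    | cons y l =>
      rw [val_cons_cons, NZ, ← ih (by simp)]
      change _ ↔ a x * a y ≠ 0 ∧ _
      cases l with
      | nil => exact ⟨fun h => ⟨h, right_ne_zero_of_mul h⟩, fun h => h.1⟩
      | cons z l =>
        rw [val_cons_cons]
        refine ⟨fun h => ⟨?_, right_ne_zero_of_mul h⟩, fun h => ?_⟩
        · rw [← mul_assoc] at h
          exact left_ne_zero_of_mul h
        · rw [← mul_assoc]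
          exact Rees.mul_mul_ne_zero h.1 h.2

omit [Inhabited X] in
theorem card_ZT [Finite X] : Nat.card (ZT X) = (2 ^ Nat.card X) ^ Nat.card X * 2 ^ Nat.card X := by
  simp [Nat.card_prod, Nat.card_fun]

theorem val_sat {M : RM} (a : X → M.S) (u v m s : List X) (hv : v ≠ [])
    (h : val a (u ++ v ++ s) = 0) : val a (u ++ v ++ m ++ v ++ s) = 0 := by
  by_contra h1
  have h2 : val a (u ++ v) ≠ 0 := by
    rw [List.append_assoc, List.append_assoc, val_append a (by simp [hv]) (by simp [hv])] at h1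
    exact left_ne_zero_of_mul h1
  have h3 : val a (v ++ s) ≠ 0 := by
    rw [List.append_assoc, val_append a (by simp [hv]) (by simp [hv])] at h1
    exact right_ne_zero_of_mul h1
  by_cases hu : u = []
  · exact h3 (by simpa [hu] using h)
  by_cases hs : s = []
  · exact h2 (by simpa [hs] using h)
  rw [val_append a hu hv] at h2
  rw [val_append a hv hs] at h3
  rw [val_append a (by simp [hv]) hs, val_append a hu hv] at h
  exact Rees.mul_mul_ne_zero h2 h3 h

end zero

section rw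
variable {X I L : Type}

def wd (l : List (X ⊕ L × I)) : List X := l.filterMap Sum.getLeft?

@[simp] theorem wd_nil : wd ([] : List (X ⊕ L × I)) = [] := rfl
@[simp] theorem wd_inl (x : X) (l : List (X ⊕ L × I)) : wd (Sum.inl x :: l) = x :: wd l := rfl
@[simp] theorem wd_inr (x : L × I) (l : List (X ⊕ L × I)) : wd (Sum.inr x :: l) = wd l := rfl
@[simp] theorem wd_append (l m : List (X ⊕ L × I)) : wd (l ++ m) = wd l ++ wd m :=
  List.filterMap_append

/-- The graph `Γ` with labels `q` describes the matrix `P` and the letters `a`. -/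
structure Compat (Γ : Gr (Option (I ⊕ L)) (X ⊕ L × I)) {G : Type} [Group G]
    (P : L → I → Option G) (a : X → Rees P) (q : X ⊕ L × I → G) : Prop where
  ok1 : ∀ x, Γ.ok (Sum.inl x) ↔ a x ≠ 0
  let1 : ∀ x i g l, a x = Rees.mk i g l → Γ.src (Sum.inl x) = some (Sum.inl i) ∧
    Γ.tgt (Sum.inl x) = some (Sum.inr l) ∧ q (Sum.inl x) = g
  ok2 : ∀ l i, Γ.ok (Sum.inr (l, i)) ↔ P l i ≠ none
  lab2 : ∀ l i p, P l i = some p → q (Sum.inr (l, i)) = p
  src2 : ∀ l i, Γ.src (Sum.inr (l, i)) = some (Sum.inr l)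
  tgt2 : ∀ l i, Γ.tgt (Sum.inr (l, i)) = some (Sum.inl i)

namespace Compat

variable {Γ : Gr (Option (I ⊕ L)) (X ⊕ L × I)} {G : Type} [Group G]
  {P : L → I → Option G} {a : X → Rees P} {q : X ⊕ L × I → G} (hc : Compat Γ P a q)
include hc

theorem path_ev (m : L) (l : List (X ⊕ L × I)) : ∀ v, Γ.IsPath v l (some (Sum.inr m)) →
    (∀ i, v = some (Sum.inl i) → ev a (wd l) = (Rees.mk i (lab q l) m : Rees P)) ∧
    (∀ n, v = some (Sum.inr n) → ∀ j h, ((Rees.mk j h n : Rees P) : WithOne (Rees P)) *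
      ev a (wd l) = (Rees.mk j (h * lab q l) m : Rees P)) := by
  induction l with
  | nil =>
    rintro v rfl
    refine ⟨by simp, fun n hn j h => ?_⟩
    obtain rfl : m = n := by simpa using hn
    simp
  | cons e l ih =>
    rintro v ⟨h1, rfl, h3⟩
    rcases e with x | ⟨n, i⟩
    · obtain ⟨i, g, n, hx⟩ := Rees.exists_of_ne ((hc.ok1 x).1 h1)
      obtain ⟨e1, e2, e3⟩ := hc.let1 x i g n hx
      rw [e1]
      refine ⟨fun i' hi => ?_, by simp⟩
      obtain rfl : i = i' := by simpa using hi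
      rw [wd_inl, ev_cons, hx, (ih _ h3).2 n e2, lab_cons, e3]
    · obtain ⟨p, hp⟩ := Option.ne_none_iff_exists'.1 ((hc.ok2 n i).1 h1)
      rw [hc.src2]
      refine ⟨by simp, fun n' hn j h => ?_⟩
      obtain rfl : n = n' := by simpa using hn
      rw [wd_inr, (ih _ h3).1 i (hc.tgt2 n i), ← WithOne.coe_mul, Rees.mk_mul_some hp, lab_cons,
        hc.lab2 n i p hp, mul_assoc]

variable [Inhabited X]

theorem path_val {i : I} {m : L} {l : List (X ⊕ L × I)}
    (h : Γ.IsPath (some (Sum.inl i)) l (some (Sum.inr m))) :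
    wd l ≠ [] ∧ val a (wd l) = Rees.mk i (lab q l) m := by
  have h1 := (hc.path_ev m l _ h).1 i rfl
  have h2 : wd l ≠ [] := fun h0 => by simp [h0] at h1
  exact ⟨h2, WithOne.coe_inj.1 ((coe_val a h2).trans h1)⟩

theorem val_path {m : L} {w : List X} (hw : w ≠ []) : ∀ {i : I} {g : G},
    val a w = Rees.mk i g m →
    ∃ l, Γ.IsPath (some (Sum.inl i)) l (some (Sum.inr m)) ∧ wd l = w := by
  induction w with
  | nil => exact absurd rfl hw
  | cons x w ih =>
    intro i g h
    by_cases hw' : w = []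
    · subst hw'
      obtain ⟨e1, e2, -⟩ := hc.let1 x i g m h
      exact ⟨[Sum.inl x], ⟨(hc.ok1 x).2 (by rw [← val_single a, h]; simp), e1, e2⟩, rfl⟩
    · rw [val_cons a x hw'] at h
      have h0 : a x * val a w ≠ 0 := by rw [h]; simp
      obtain ⟨i1, g1, n, h1⟩ := Rees.exists_of_ne (left_ne_zero_of_mul h0)
      obtain ⟨i2, g2, m2, h2⟩ := Rees.exists_of_ne (right_ne_zero_of_mul h0)
      rw [h1, h2] at h h0
      have h3 := Rees.mk_mul_ne_zero.1 h0
      obtain ⟨p, hp⟩ := Option.ne_none_iff_exists'.1 h3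
      rw [Rees.mk_mul_some hp, Rees.mk_inj] at h
      obtain ⟨rfl, -, rfl⟩ := h
      obtain ⟨l, h4, rfl⟩ := ih hw' h2
      obtain ⟨e1, e2, -⟩ := hc.let1 x _ _ _ h1
      refine ⟨Sum.inl x :: Sum.inr (n, i2) :: l, ⟨(hc.ok1 x).2 (by rw [h1]; simp), e1,
        (hc.ok2 _ _).2 h3, by rw [e2, hc.src2], by rw [hc.tgt2]; exact h4⟩, rfl⟩

omit [Inhabited X] in
theorem wd_eq_nil {u v : Option (I ⊕ L)} {l : List (X ⊕ L × I)} (h : Γ.IsPath u l v)
    (hl : wd l = []) : (l = [] ∧ u = v) ∨ ∃ n i, l = [Sum.inr (n, i)] ∧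
      u = some (Sum.inr n) ∧ v = some (Sum.inl i) := by
  rcases l with _ | ⟨x | ⟨n, i⟩, l⟩
  · exact Or.inl ⟨rfl, h⟩
  · simp at hl
  · rcases l with _ | ⟨x | ⟨n', i'⟩, l⟩
    · exact Or.inr ⟨n, i, rfl, by rw [← h.2.1, hc.src2], by rw [← h.2.2, hc.tgt2]⟩
    · simp at hl
    · have := h.2.2.2.1
      simp [hc.src2, hc.tgt2] at this

end Compat

end rw

/-- The hypotheses on an invariant `F` of words. -/
structure WHyp {X : Type} [Inhabited X] {M : RM} (a : X → M.S) (k : ℕ) {γ : Type}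
    (F : List X → γ) (Adm : List X → Prop) : Prop where
  s1 : ∀ u v m s, v ≠ [] → Adm (u ++ v ++ s) → Adm (u ++ v ++ m ++ v ++ s)
  lb : ∀ w w', w ≠ [] → w' ≠ [] → Adm w → Adm w' → val a w = val a w' → val a w ≠ 0 → F w = F w'
  fin : ∀ u : List X, ∃ (K : Type) (_ : Finite K) (α : List X → K), Nat.card K ≤ k ∧
    ∀ l l' s, u ++ l ++ s ≠ [] → u ++ l' ++ s ≠ [] → α l = α l' →
      F (u ++ l ++ s) = F (u ++ l' ++ s)

/-- `a'` is a reduction of `a`. -/
structure Red {X : Type} [Inhabited X] {M M' : RM} (a : X → M.S) (a' : X → M'.S) (k : ℕ) :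
    Prop where
  zero : ∀ w, w ≠ [] → (val a' w = 0 ↔ val a w = 0)
  main : ∀ (γ : Type) (F : List X → γ) (Adm : List X → Prop), WHyp a k F Adm → ∀ w w', w ≠ [] →
    w' ≠ [] → Adm w → Adm w' → val a' w = val a' w' → val a' w ≠ 0 → F w = F w'

def rb (c n k : ℕ) : ℕ :=
  n * (gb k (n * n + 2 * n + 1) ^ (n * n + 2 * n + 1) * c ^ (n * n + 2 * n + 1) * n) + 1

theorem exists_red0 {b : Prop} {V : GCls} (hV : IsPseudovariety V) {Z : Type} [Group Z] {z : Z}
    (hZ : V Z) (hz : ∀ (G : Type) [Group G], V G → Nontrivial G → z ≠ 1) {X : Type} [Finite X]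
    [Inhabited X] {M : RM} (hM : M.Good b V) (hI : Nat.card M.I ≤ Nat.card X)
    (hL : Nat.card M.L ≤ Nat.card X) (a : X → M.S) (k : ℕ) :
    ∃ (M' : RM) (a' : X → M'.S), M'.Good b V ∧ Nat.card M'.S ≤ rb (Nat.card Z) (Nat.card X) k ∧
      Red a a' k := by
  have := hM.finI
  have := hM.finL
  let a1 : X → Option (M.I × M.G × M.L) := a
  let Γ : Gr (Option (M.I ⊕ M.L)) (X ⊕ M.L × M.I) :=
    { ok := Sum.elim (fun x => a x ≠ 0) (fun p => M.P p.1 p.2 ≠ none)
      src := Sum.elim (fun x => (a1 x).map fun p => Sum.inl p.1) (fun p => some (Sum.inr p.1))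
      tgt := Sum.elim (fun x => (a1 x).map fun p => Sum.inr p.2.2) (fun p => some (Sum.inl p.2)) }
  let q : X ⊕ M.L × M.I → M.G :=
    Sum.elim (fun x => ((a1 x).map fun p => p.2.1).getD 1) (fun p => (M.P p.1 p.2).getD 1)
  have hc : Compat Γ M.P a q := by
    refine ⟨fun _ => Iff.rfl, fun x i g l h => ?_, fun _ _ => Iff.rfl, fun l i p h => ?_,
      fun _ _ => rfl, fun _ _ => rfl⟩
    · have h' : a1 x = some (i, g, l) := h
      simp [Γ, q, h']
    · simp [q, h]
  obtain ⟨G', _, q', hG', hcard, hmain⟩ := Γ.exists_reduce hV hZ hz hM.mem q k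
    (Nat.card X * Nat.card X + 2 * Nat.card X + 1)
    (by rw [Finite.card_option, Nat.card_sum]; omega)
    (by rw [Nat.card_sum, Nat.card_prod]; have := Nat.mul_le_mul hL hI; omega)
  let M' : RM := ⟨G', M.I, M.L, fun l i => (M.P l i).map fun _ => q' (Sum.inr (l, i))⟩
  let a' : X → M'.S := fun x => (a1 x).map fun p => (p.1, q' (Sum.inl x), p.2.2)
  have hc' : Compat Γ M'.P a' q' := by
    refine ⟨fun x => ?_, fun x i g l h => ?_, fun l i => by simp [Γ, M'], fun l i p h => ?_,
      fun _ _ => rfl, fun _ _ => rfl⟩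
    · change a1 x ≠ none ↔ (a1 x).map _ ≠ none
      simp
    · have h' : ((a1 x).map fun p => (p.1, q' (Sum.inl x), p.2.2)) = some (i, g, l) := h
      obtain ⟨p, h1, h2⟩ := Option.map_eq_some_iff.1 h'
      simp only [Prod.mk.injEq] at h2
      simp [Γ, h1, h2]
    · simp only [M', Option.map_eq_some_iff] at h
      exact h.choose_spec.2
  have := hV.finite _ hG'
  refine ⟨M', a', ⟨hG', hM.finI, hM.finL,
    hM.mono.comap injective_id injective_id fun l i => by simp [RM.supp, M']⟩, ?_, ?_, ?_⟩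
  · rw [Rees.card, rb]
    exact Nat.succ_le_succ (Nat.mul_le_mul hI (Nat.mul_le_mul hcard hL))
  · intro w hw
    rw [← not_iff_not]
    constructor
    · intro h
      obtain ⟨i, g, m, h1⟩ := Rees.exists_of_ne h
      obtain ⟨l, h2, rfl⟩ := hc'.val_path hw h1
      rw [(hc.path_val h2).2]; simp
    · intro h
      obtain ⟨i, g, m, h1⟩ := Rees.exists_of_ne h
      obtain ⟨l, h2, rfl⟩ := hc.val_path hw h1
      rw [(hc'.path_val h2).2]; simp
  · intro γ F Adm hyp w w' hw hw' h1 h2 h3 h4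
    obtain ⟨i, g, m, h5⟩ := Rees.exists_of_ne h4
    obtain ⟨l, h6, rfl⟩ := hc'.val_path hw h5
    obtain ⟨l', h7, rfl⟩ := hc'.val_path hw' (h3.symm.trans h5)
    rw [(hc'.path_val h6).2, (hc'.path_val h7).2, Rees.mk_inj] at h3
    refine hmain _ _ γ (fun l => F (wd l)) (fun l => Adm (wd l)) (fun l => wd l ≠ [])
      ⟨fun p l m r => ?_, fun u v l l' p1 p2 s1 s2 => ?_, fun l l' p1 p2 a1 a2 e => ?_,
        fun p => ?_⟩ l l' h6 h7 h1 h2 h3.2.1
    · simp only [wd_append]
      exact hyp.s1 _ _ _ _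
    · rcases hc.wd_eq_nil p1 (not_not.1 s1) with ⟨rfl, e1⟩ | ⟨n1, i1, rfl, e1, e2⟩ <;>
        rcases hc.wd_eq_nil p2 (not_not.1 s2) with ⟨rfl, e3⟩ | ⟨n2, i2, rfl, e3, e4⟩
      · rfl
      · simp [e3, e4] at e1
      · simp [e1, e2] at e3
      · simp only [e1, Option.some.injEq, Sum.inr.injEq] at e3
        simp only [e2, Option.some.injEq, Sum.inl.injEq] at e4
        rw [e3, e4]
    · refine hyp.lb _ _ (hc.path_val p1).1 (hc.path_val p2).1 a1 a2 ?_ ?_
      · rw [(hc.path_val p1).2, (hc.path_val p2).2, e]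
      · rw [(hc.path_val p1).2]; simp
    · obtain ⟨K, _, α, hK, hα⟩ := hyp.fin (wd p)
      refine ⟨K, inferInstance, fun l => α (wd l), hK, fun l l' s p1 p2 _ _ e => ?_⟩
      have t1 := (hc.path_val p1).1
      have t2 := (hc.path_val p2).1
      simp only [wd_append] at t1 t2 ⊢
      exact hα _ _ _ t1 t2 e

theorem exists_red {b : Prop} {V : GCls} (hV : IsPseudovariety V) : ∃ c : ℕ,
    ∀ {X : Type} [Finite X] [Inhabited X] {M : RM}, M.Good b V → ∀ (a : X → M.S) (k : ℕ),
    ∃ (M' : RM) (a' : X → M'.S), M'.Good b V ∧ Nat.card M'.S ≤ rb c (Nat.card X) k ∧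
      Red a a' k := by
  obtain ⟨Z, _, z, hZ, hz⟩ := hV.exists_mark
  refine ⟨Nat.card Z, fun {X} _ _ {M} hM a k => ?_⟩
  obtain ⟨M0, j, a0, h0, hI, hL, hj, hj0, ha⟩ := RM.exists_compress (V := V) hM.mem hM.mono a
  obtain ⟨M', a', h1, h2, h3⟩ := exists_red0 hV hZ hz h0 hI hL a0 k
  have hv : ∀ w, val a w = j (val a0 w) := fun w => by simp only [map_val, ha]
  have hv0 : ∀ w, val a0 w = 0 ↔ val a w = 0 := fun w => by rw [hv, ← hj0, hj.eq_iff]
  refine ⟨M', a', h1, h2, fun w hw => (h3.zero w hw).trans (hv0 w),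
    fun γ F Adm hyp => h3.main γ F Adm ⟨hyp.s1, fun w w' p1 p2 p3 p4 p5 p6 => ?_, hyp.fin⟩⟩
  exact hyp.lb w w' p1 p2 p3 p4 (by rw [hv, hv, p5]) (mt (hv0 w).2 p6)

end Pool.Agent.P.MP_152bd8_lc
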